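import Pool.Agent.Q289.SI.PLS
import Pool.Agent.H984R4.NP.Walk
import Pool.Agent.H984R4.HN.Step

/-!
The beginning and the end of the lattice path only depend on the edges nearby.
-/

set_option autoImplicit false

namespace Pool.Agent.Q289.SI

open H974 Finset H342P H984P H984N

/-- The edge examined by the backward step. -/
def be (σ : St) : Edg := match σ.2 with
  | .ne => (σ.1.1, σ.1.2, false)
  | .nw => (σ.1.1 - 1, σ.1.2, true)
  | .sw => (σ.1.1, σ.1.2 - 1, false)
  | .se => (σ.1.1, σ.1.2, true)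

theorem step_congr' {G G' : Set Edg} {σ : St} (h : be σ ∈ G ↔ be σ ∈ G') :
    H984H.step G σ = H984H.step G' σ := by
  classical
  obtain ⟨⟨x, y⟩, q⟩ := σ
  cases q <;> simp only [be] at h <;> simp only [H984H.step] <;> exact if_congr h rfl rfl

theorem nxt_congr {G G' : Set Edg} {σ : St} (h : ae σ ∈ G ↔ ae σ ∈ G') : nxt G σ = nxt G' σ := by
  classical
  unfold nxt
  exact if_congr h rfl rfl

/-- The point of a vertex. -/
noncomputable def vp (δ : ℝ) (v : Vtx) : ℂ := ⟨δ * v.1, δ * (v.2 + 1)⟩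

theorem cdist_le {z w : ℂ} {a b : ℝ} (h1 : |z.re - w.re| ≤ a) (h2 : |z.im - w.im| ≤ b) :
    dist z w ≤ a + b := by
  rw [Complex.dist_eq]
  refine (Complex.norm_le_abs_re_add_abs_im _).trans ?_
  rw [Complex.sub_re, Complex.sub_im]
  linarith

theorem dist_ae {δ : ℝ} (hδ : 0 < δ) (σ : St) : dist (pos δ σ) (vp δ (src (ae σ))) ≤ 2 * δ := by
  obtain ⟨⟨x, y⟩, q⟩ := σ
  have e : (2:ℝ) * δ = 5/4 * δ + 3/4 * δ := by ring
  have e' : (2:ℝ) * δ = 3/4 * δ + 5/4 * δ := by ring
  cases q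
  · rw [e]
    apply cdist_le <;> simp only [pos, vp, ae_ne, src_mk]
    · rw [show δ * ((x:ℝ) + 1/4) - δ * x = δ * (1/4) by ring, abs_of_pos (by positivity)]
      nlinarith
    · rw [show δ * ((y:ℝ) + 1 + 1/4) - δ * (y + 1) = δ * (1/4) by ring,
        abs_of_pos (by positivity)]
      nlinarith
  · rw [e]
    apply cdist_le <;> simp only [pos, vp, ae_nw, src_mk]
    · rw [show δ * ((x:ℝ) - 1/4) - δ * x = -(δ * (1/4)) by ring, abs_neg,
        abs_of_pos (by positivity)]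
      nlinarith
    · rw [show δ * ((y:ℝ) + 1 + 1/4) - δ * (y + 1) = δ * (1/4) by ring,
        abs_of_pos (by positivity)]
      nlinarith
  · rw [e]
    apply cdist_le <;> simp only [pos, vp, ae_sw, src_mk]
    · push_cast
      rw [show δ * ((x:ℝ) - 1/4) - δ * (x - 1) = δ * (3/4) by ring, abs_of_pos (by positivity)]
      nlinarith
    · rw [show δ * ((y:ℝ) + 1 - 1/4) - δ * (y + 1) = -(δ * (1/4)) by ring, abs_neg,
        abs_of_pos (by positivity)]
      nlinarith
  · rw [e']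
    apply cdist_le <;> simp only [pos, vp, ae_se, src_mk]
    · rw [show δ * ((x:ℝ) + 1/4) - δ * x = δ * (1/4) by ring, abs_of_pos (by positivity)]
      nlinarith
    · push_cast
      rw [show δ * ((y:ℝ) + 1 - 1/4) - δ * (y - 1 + 1) = δ * (3/4) by ring,
        abs_of_pos (by positivity)]
      nlinarith

theorem dist_be {δ : ℝ} (hδ : 0 < δ) (σ : St) : dist (pos δ σ) (vp δ (src (be σ))) ≤ 2 * δ := by
  obtain ⟨⟨x, y⟩, q⟩ := σ
  have e : (2:ℝ) * δ = 5/4 * δ + 3/4 * δ := by ring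
  have e' : (2:ℝ) * δ = 3/4 * δ + 5/4 * δ := by ring
  cases q
  · rw [e]
    apply cdist_le <;> simp only [pos, vp, be, src_mk]
    · rw [show δ * ((x:ℝ) + 1/4) - δ * x = δ * (1/4) by ring, abs_of_pos (by positivity)]
      nlinarith
    · rw [show δ * ((y:ℝ) + 1 + 1/4) - δ * (y + 1) = δ * (1/4) by ring,
        abs_of_pos (by positivity)]
      nlinarith
  · rw [e]
    apply cdist_le <;> simp only [pos, vp, be, src_mk]
    · push_cast
      rw [show δ * ((x:ℝ) - 1/4) - δ * (x - 1) = δ * (3/4) by ring, abs_of_pos (by positivity)]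
      nlinarith
    · rw [show δ * ((y:ℝ) + 1 + 1/4) - δ * (y + 1) = δ * (1/4) by ring,
        abs_of_pos (by positivity)]
      nlinarith
  · rw [e']
    apply cdist_le <;> simp only [pos, vp, be, src_mk]
    · rw [show δ * ((x:ℝ) - 1/4) - δ * x = -(δ * (1/4)) by ring, abs_neg,
        abs_of_pos (by positivity)]
      nlinarith
    · push_cast
      rw [show δ * ((y:ℝ) + 1 - 1/4) - δ * (y - 1 + 1) = δ * (3/4) by ring,
        abs_of_pos (by positivity)]
      nlinarith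
  · rw [e]
    apply cdist_le <;> simp only [pos, vp, be, src_mk]
    · rw [show δ * ((x:ℝ) + 1/4) - δ * x = δ * (1/4) by ring, abs_of_pos (by positivity)]
      nlinarith
    · rw [show δ * ((y:ℝ) + 1 - 1/4) - δ * (y + 1) = -(δ * (1/4)) by ring, abs_neg,
        abs_of_pos (by positivity)]
      nlinarith

/-- Forward agreement. -/
theorem fwd_agree {D : Dm} {F F' : Finset Edg} {k : ℕ}
    (h : ∀ j < k, (ae (D.walk F j) ∈ D.cfg F ↔ ae (D.walk F j) ∈ D.cfg F')) :
    ∀ j ≤ k, D.walk F' j = D.walk F j := by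
  intro j hj
  induction j with
  | zero => rfl
  | succ j ih =>
    rw [walk_succ, walk_succ, ih (by omega)]
    exact (nxt_congr (h j (by omega))).symm

/-- Backward agreement. -/
theorem bwd_agree {D D' : Dm} (hD : D.Ok) (hD' : D'.Ok) {F F' : Finset Edg} (hF : F ⊆ D.edges)
    (hF' : F' ⊆ D'.edges) {k : ℕ} (hk : k ≤ D.len F)
    (h : ∀ j < k, (be (D.walk F (D.len F - j)) ∈ D.cfg F ↔
      be (D.walk F (D.len F - j)) ∈ D'.cfg F'))
    (hs : ∀ j < k, D.walk F (D.len F - j) ≠ D'.start) :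
    ∀ j ≤ k, j ≤ D'.len F' ∧ D'.walk F' (D'.len F' - j) = D.walk F (D.len F - j) := by
  intro j hj
  induction j with
  | zero =>
    refine ⟨Nat.zero_le _, ?_⟩
    rw [Nat.sub_zero, Nat.sub_zero, walk_len hD hF, walk_len hD' hF']
  | succ j ih =>
    obtain ⟨h1, h2⟩ := ih (by omega)
    have h3 : D'.len F' - j ≠ 0 := by
      intro h0
      rw [h0, walk_zero] at h2
      exact hs j (by omega) h2.symm
    refine ⟨by omega, ?_⟩
    obtain ⟨m, hm⟩ : ∃ m, D.len F - j = m + 1 := ⟨D.len F - j - 1, by omega⟩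
    obtain ⟨m', hm'⟩ : ∃ m, D'.len F' - j = m + 1 := ⟨D'.len F' - j - 1, by omega⟩
    have e1 : D.len F - (j + 1) = m := by omega
    have e2 : D'.len F' - (j + 1) = m' := by omega
    have h4 := h j (by omega)
    rw [e1, e2]
    have e3 : D.walk F m = H984H.step (D.cfg F) (D.walk F (D.len F - j)) := by
      rw [hm, walk_succ, H984H.step_nxt]
    have e4 : D'.walk F' m' = H984H.step (D'.cfg F') (D'.walk F' (D'.len F' - j)) := by
      rw [hm', walk_succ, H984H.step_nxt]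
    rw [e3, e4, h2]
    exact (step_congr' h4).symm

theorem len_pos {D : Dm} (hD : D.Ok) {F : Finset Edg} (hF : F ⊆ D.edges) : 0 < D.len F := by
  rcases Nat.eq_zero_or_pos (D.len F) with h | h
  · have h1 := walk_len hD hF
    rw [h, walk_zero] at h1
    have h2 : D.h = 0 := congrArg (fun σ : St => σ.1.2) h1
    have := hD.h_pos
    omega
  · exact h

open Classical in
/-- The edges of the lattice rectangle near `U`. -/
noncomputable def EU (D : Dm) (δ : ℝ) (U : Set ℂ) : Finset Edg :=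
  D.edges.filter (fun e => vp δ (src e) ∈ U)

theorem mem_EU {D : Dm} {δ : ℝ} {U : Set ℂ} {e : Edg} :
    e ∈ EU D δ U ↔ e ∈ D.edges ∧ vp δ (src e) ∈ U := by
  classical
  unfold EU
  simp only [Finset.mem_filter]

theorem EU_sub (D : Dm) (δ : ℝ) (U : Set ℂ) : EU D δ U ⊆ D.edges := by
  intro e he
  exact (mem_EU.1 he).1

theorem EU_disj (D : Dm) (δ : ℝ) {U V : Set ℂ} (h : Disjoint U V) :
    Disjoint (EU D δ U) (EU D δ V) := by
  rw [Finset.disjoint_left]
  intro e h1 h2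
  exact Set.disjoint_left.1 h (mem_EU.1 h1).2 (mem_EU.1 h2).2

theorem cfg_iff {D : Dm} {δ : ℝ} {U : Set ℂ} {F F' : Finset Edg} (hF : F ⊆ D.edges)
    (hF' : F' ⊆ D.edges) (h : F ∩ EU D δ U = F' ∩ EU D δ U) {e : Edg} (he : vp δ (src e) ∈ U) :
    e ∈ D.cfg F ↔ e ∈ D.cfg F' := by
  have key : ∀ G G' : Finset Edg, G ⊆ D.edges → G ∩ EU D δ U = G' ∩ EU D δ U → e ∈ G → e ∈ G' := by
    intro G G' hG hGG h1
    have h2 : e ∈ G ∩ EU D δ U := Finset.mem_inter.2 ⟨h1, mem_EU.2 ⟨hG h1, he⟩⟩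
    rw [hGG] at h2
    exact (Finset.mem_inter.1 h2).1
  unfold Dm.cfg
  simp only [Set.mem_union, Finset.mem_coe]
  constructor
  · rintro (h1 | h1)
    · exact Or.inl (key F F' hF h h1)
    · exact Or.inr h1
  · rintro (h1 | h1)
    · exact Or.inl (key F' F hF' h.symm h1)
    · exact Or.inr h1

section

variable {U : Set ℂ} {u : ℂ → ℝ} (hu : Cut U u) {r δ : ℝ} (hδ : 0 < δ) (hr : 2 * δ ≤ r)

include hu hδ hr

theorem near {σ : St} {w : ℂ} (h : r < u (pos δ σ)) (hw : dist (pos δ σ) w ≤ 2 * δ) : w ∈ U := by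
  rw [← hu.pos]
  have h1 := hu.lip (pos δ σ) w
  linarith

theorem fwd_foll {D : Dm} {F F' : Finset Edg} (hF : F ⊆ D.edges) (hF' : F' ⊆ D.edges)
    (hD : D.Ok) (h : F ∩ EU D δ U = F' ∩ EU D δ U) :
    Foll r u (D.len F) (D.len F') (fun k => pos δ (D.walk F k)) (fun k => pos δ (D.walk F' k)) := by
  intro k hk hall
  have h1 : ∀ j ≤ k + 1, D.walk F' j = D.walk F j := by
    apply fwd_agree
    intro j hj
    exact cfg_iff hF hF' h (near hu hδ hr (hall j (by omega)) (dist_ae hδ _))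
  refine ⟨?_, fun j hj => by simp only [h1 j hj]⟩
  by_contra hcon
  have h2 := walk_len hD hF'
  rw [h1 _ (by omega)] at h2
  exact Nat.notMem_of_lt_sInf (lt_of_le_of_lt (by omega : D.len F' ≤ k) hk) h2

theorem bwd_foll {D D' : Dm} (hD : D.Ok) (hD' : D'.Ok) {F F' : Finset Edg} (hF : F ⊆ D.edges)
    (hF' : F' ⊆ D'.edges)
    (h : ∀ e : Edg, vp δ (src e) ∈ U → (e ∈ D.cfg F ↔ e ∈ D'.cfg F'))
    (hs : ∀ j < D.len F, D.walk F (D.len F - j) = D'.start → u (pos δ D'.start) ≤ r) :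
    Foll r u (D.len F) (D'.len F') (fun k => pos δ (D.walk F (D.len F - k)))
      (fun k => pos δ (D'.walk F' (D'.len F' - k))) := by
  intro k hk hall
  have h1 := bwd_agree hD hD' hF hF' (k := k + 1) (by omega)
    (fun j hj => h _ (near hu hδ hr (hall j (by omega)) (dist_be hδ _)))
    (fun j hj hcon => by
      have h2 := hs j (by omega) hcon
      have h3 := hall j (by omega)
      simp only at h3
      rw [hcon] at h3
      linarith)
  exact ⟨(h1 (k + 1) le_rfl).1, fun j hj => by simp only [(h1 j hj).2]⟩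

theorem fwd_soft (R : Rect) {F F' : Finset Edg} (hD : (R.dm δ).Ok) (hF : F ⊆ (R.dm δ).edges)
    (hF' : F' ⊆ (R.dm δ).edges) (h : F ∩ EU (R.dm δ) δ U = F' ∩ EU (R.dm δ) δ U) :
    softX r u (R.curve δ F, R.time δ F) = softX r u (R.curve δ F', R.time δ F') := by
  unfold Rect.curve Rect.time
  exact soft_pl (q := fun k => pos δ ((R.dm δ).walk F k))
    (q' := fun k => pos δ ((R.dm δ).walk F' k)) hu (by linarith) (len_pos hD hF) (len_pos hD hF') rfl
    (fwd_foll hu hδ hr hF hF' hD h) (fwd_foll hu hδ hr hF' hF hD h.symm) _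

theorem bwd_soft' (R R' : Rect) {F F' : Finset Edg} (hD : (R.dm δ).Ok) (hD' : (R'.dm δ).Ok)
    (hF : F ⊆ (R.dm δ).edges) (hF' : F' ⊆ (R'.dm δ).edges)
    (h : ∀ e : Edg, vp δ (src e) ∈ U → (e ∈ (R.dm δ).cfg F ↔ e ∈ (R'.dm δ).cfg F'))
    (hs : ∀ j < (R.dm δ).len F, (R.dm δ).walk F ((R.dm δ).len F - j) = (R'.dm δ).start →
      u (pos δ (R'.dm δ).start) ≤ r)
    (hs' : ∀ j < (R'.dm δ).len F', (R'.dm δ).walk F' ((R'.dm δ).len F' - j) = (R.dm δ).start →
      u (pos δ (R.dm δ).start) ≤ r) :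
    softX r u (revX (R.curve δ F, R.time δ F)) = softX r u (revX (R'.curve δ F', R'.time δ F')) := by
  unfold Rect.curve Rect.time revX
  have l1 := len_pos hD hF
  have l2 := len_pos hD' hF'
  rw [revC_pl l1, revC_pl l2]
  refine soft_pl hu (by linarith) l1 l2 ?_ (bwd_foll hu hδ hr hD hD' hF hF' h hs)
    (bwd_foll hu hδ hr hD' hD hF' hF (fun e he => (h e he).symm) hs') _
  simp only [Nat.sub_zero]
  rw [walk_len hD hF, walk_len hD' hF']

theorem bwd_soft (R : Rect) {F F' : Finset Edg} (hD : (R.dm δ).Ok) (hF : F ⊆ (R.dm δ).edges)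
    (hF' : F' ⊆ (R.dm δ).edges) (h : F ∩ EU (R.dm δ) δ U = F' ∩ EU (R.dm δ) δ U) :
    softX r u (revX (R.curve δ F, R.time δ F)) = softX r u (revX (R.curve δ F', R.time δ F')) := by
  have key : ∀ G : Finset Edg, G ⊆ (R.dm δ).edges → ∀ j < (R.dm δ).len G,
      (R.dm δ).walk G ((R.dm δ).len G - j) = (R.dm δ).start → u (pos δ (R.dm δ).start) ≤ r := by
    intro G hG j hj hcon
    exact absurd hcon.symm (walk_inj hD hG (i := 0) (by omega) (by omega))
  exact bwd_soft' hu hδ hr R R hD hD hF hF' (fun e he => cfg_iff hF hF' h he) (key F hF) (key F' hF')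

end

end Pool.Agent.Q289.SI
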