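import Pool.Agent.Q289.SI.Lim

/-!
Germs of curves in their natural time and the abstract form of the zero-one law.
-/

set_option autoImplicit false

namespace Pool.Agent.Q289.SI

open H984N MeasureTheory Filter Topology ProbabilityTheory Set
open scoped BoundedContinuousFunction

/-- The first `ε` units of natural time of the curve (the whole curve if its natural time is less
than `ε`). -/
noncomputable def firstX (ε : ℝ) (p : X) : X :=
  (cutAt p.1 (projIcc 0 1 zero_le_one (ε / p.2)),
    (projIcc (0:ℝ) 1 zero_le_one (ε / p.2) : ℝ) * p.2)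

theorem firstX_meas (ε : ℝ) : Measurable (firstX ε) := by
  have h1 : Measurable (fun p : X => projIcc (0:ℝ) 1 zero_le_one (ε / p.2)) :=
    continuous_projIcc.measurable.comp (measurable_const.div measurable_snd)
  have h2 : Measurable (fun p : X => cutAt p.1 (projIcc (0:ℝ) 1 zero_le_one (ε / p.2))) :=
    continuous_cutAt.measurable.comp (measurable_fst.prodMk h1)
  exact h2.prodMk ((measurable_subtype_coe.comp h1).mul measurable_snd)

theorem cutAt_cutAt (γ : C(unitInterval, ℂ)) (l m : unitInterval) :
    cutAt (cutAt γ l) m = cutAt γ (l * m) := by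
  ext s
  simp only [cutAt_apply]
  rw [mul_assoc]

/-- The germ of the curve cut at a later time. -/
theorem firstX_cut {p : X} {l : unitInterval} {ε : ℝ} (hp : 0 < p.2) (hε : 0 < ε)
    (h : ε ≤ l * p.2) : firstX ε (cutAt p.1 l, l * p.2) = firstX ε p := by
  have hl : (0:ℝ) < l := by
    by_contra hcon
    have : (l : ℝ) = 0 := le_antisymm (not_lt.1 hcon) l.2.1
    rw [this, zero_mul] at h
    linarith
  have h1 : ε / ((l : ℝ) * p.2) ∈ Icc (0:ℝ) 1 :=
    ⟨by positivity, (div_le_one (by positivity)).2 h⟩
  have h2 : ε / p.2 ∈ Icc (0:ℝ) 1 := by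
    refine ⟨by positivity, (div_le_one hp).2 (h.trans ?_)⟩
    have := l.2.2
    nlinarith
  unfold firstX
  simp only
  rw [projIcc_of_mem _ h1, projIcc_of_mem _ h2, cutAt_cutAt]
  refine Prod.ext ?_ ?_
  · simp only
    congr 1
    apply Subtype.ext
    show (l : ℝ) * (ε / (l * p.2)) = ε / p.2
    field_simp
  · simp only
    field_simp

theorem firstX_stopX {U : Set ℂ} {p : X} {ε : ℝ} (hp : 0 < p.2) (hε : 0 < ε)
    (h : ε ≤ exitT U p.1 * p.2) : firstX ε (stopX U p) = firstX ε p :=
  firstX_cut (l := ⟨exitT U p.1, exitT_mem U p.1⟩) hp hε h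

theorem firstX_firstX {ε ε' : ℝ} (hε : 0 < ε) (h : ε ≤ ε') (p : X) :
    firstX ε (firstX ε' p) = firstX ε p := by
  rcases lt_or_ge 0 p.2 with hp | hp
  · rcases le_total ε p.2 with h1 | h1
    · refine firstX_cut (l := projIcc 0 1 zero_le_one (ε' / p.2)) hp hε ?_
      have hε' : 0 < ε' := hε.trans_le h
      rcases le_total ε' p.2 with h2 | h2
      · rw [projIcc_of_mem _ ⟨by positivity, (div_le_one hp).2 h2⟩]
        simp only
        rw [div_mul_cancel₀ _ hp.ne']
        exact h
      · rw [projIcc_of_right_le _ ((one_le_div hp).2 h2)]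
        simpa using h1
    · have e : firstX ε' p = p := by
        unfold firstX
        rw [projIcc_of_right_le _ ((one_le_div hp).2 (h1.trans h))]
        refine Prod.ext ?_ (by simp)
        ext s
        simp only [cutAt_apply]
        congr 1
        apply Subtype.ext
        show (1:ℝ) * s = s
        rw [one_mul]
      rw [e]
  · have e1 : ∀ ε : ℝ, 0 < ε → firstX ε p = (cutAt p.1 0, 0) := by
      intro ε hε
      unfold firstX
      rw [projIcc_of_le_left _ (div_nonpos_of_nonneg_of_nonpos hε.le hp)]
      refine Prod.ext ?_ ?_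
      · simp only
        rfl
      · simp
    rw [e1 ε hε, e1 ε' (hε.trans_le h)]
    unfold firstX
    simp only [div_zero, mul_zero]
    rw [projIcc_left]
    refine Prod.ext ?_ rfl
    simp only
    rw [cutAt_cutAt]
    congr 1
    apply Subtype.ext
    show (0:ℝ) * 0 = 0
    simp

/-- The information contained in the first `ε` units of natural time. -/
@[reducible] noncomputable def sigF (ε : ℝ) : MeasurableSpace X := MeasurableSpace.comap (firstX ε) inferInstance

/-- The information contained in the last `ε` units of natural time. -/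
@[reducible] noncomputable def sigL (ε : ℝ) : MeasurableSpace X :=
  MeasurableSpace.comap (fun p => firstX ε (revX p)) inferInstance

theorem revX_revX (p : X) : revX (revX p) = p := by
  unfold revX
  refine Prod.ext ?_ rfl
  ext s
  simp

/-- The abstract zero-one law. -/
theorem zero_one_aux {μ : Measure X} [IsProbabilityMeasure μ] {W : X → X} (hW : Measurable W)
    (hWW : ∀ p, W (W p) = p) {Φ Ψ : ℕ → X → X} (hΦm : ∀ n, Measurable (Φ n))
    (hΨm : ∀ n, Measurable (Ψ n)) (hind : ∀ n, IndepFun (Φ n) (Ψ n) μ)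
    (hΦ : ∀ᵐ p ∂μ, Tendsto (fun n => Φ n p) atTop (𝓝 (W p))) {g : ℝ → X → X}
    (hg : ∀ n, ∀ᵐ p ∂μ, ∃ ε0 : ℝ, 0 < ε0 ∧ ∀ ε : ℝ, 0 < ε → ε ≤ ε0 →
      firstX ε (Ψ n p) = g ε p)
    {A : Set X} (hA : ∀ ε : ℝ, 0 < ε →
      MeasurableSet[MeasurableSpace.comap (g ε) inferInstance] A)
    (hAm : MeasurableSet A) : μ A = 0 ∨ μ A = 1 := by
  -- the approximations of `A`
  have hB : ∀ m : ℕ, ∃ B : Set X, MeasurableSet B ∧ g (1 / ((m : ℝ) + 1)) ⁻¹' B = A := fun m =>
    hA _ (by positivity)
  choose B hBm hBA using hB
  have hpos : ∀ m : ℕ, (0:ℝ) < 1 / ((m : ℝ) + 1) := fun m => by positivity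
  have h0 : Tendsto (fun m : ℕ => 1 / ((m : ℝ) + 1)) atTop (𝓝 0) :=
    tendsto_one_div_add_atTop_nhds_zero_nat
  -- independence of `A`
  have key1 : ∀ n : ℕ, ∀ f : X →ᵇ ℝ, ∫ p, f (Φ n p) * A.indicator (fun _ => (1:ℝ)) p ∂μ =
      (∫ p, f (Φ n p) ∂μ) * ∫ p, A.indicator (fun _ => (1:ℝ)) p ∂μ := by
    intro n f
    let G : ℕ → X → ℝ := fun m p =>
      (B m).indicator (fun _ => (1:ℝ)) (firstX (1 / ((m : ℝ) + 1)) (Ψ n p))
    have hGm : ∀ m, Measurable (G m) := fun m =>
      (measurable_const.indicator (hBm m)).comp ((firstX_meas _).comp (hΨm n))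
    have hGb : ∀ m p, |G m p| ≤ 1 := by
      intro m p
      show |(B m).indicator (fun _ => (1:ℝ)) _| ≤ 1
      by_cases h : firstX (1 / ((m : ℝ) + 1)) (Ψ n p) ∈ B m
      · rw [indicator_of_mem h]; simp
      · rw [indicator_of_notMem h]; simp
    have hGlim : ∀ᵐ p ∂μ, Tendsto (fun m => G m p) atTop
        (𝓝 (A.indicator (fun _ => (1:ℝ)) p)) := by
      filter_upwards [hg n] with p hp
      obtain ⟨ε0, hε0, hp⟩ := hp
      apply tendsto_const_nhds.congr'
      filter_upwards [h0.eventually (ge_mem_nhds hε0)] with m hm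
      show A.indicator (fun _ => (1:ℝ)) p =
        (B m).indicator (fun _ => (1:ℝ)) (firstX (1 / ((m : ℝ) + 1)) (Ψ n p))
      rw [hp _ (hpos m) hm]
      by_cases h : p ∈ A
      · have h' : g (1 / ((m : ℝ) + 1)) p ∈ B m := by
          rw [← hBA m] at h; exact h
        rw [indicator_of_mem h, indicator_of_mem h']
      · have h' : g (1 / ((m : ℝ) + 1)) p ∉ B m := by
          rw [← hBA m] at h; exact h
        rw [indicator_of_notMem h, indicator_of_notMem h']
    have hfm : Measurable (fun p => f (Φ n p)) := f.continuous.measurable.comp (hΦm n)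
    have hi : ∀ m, ∫ p, f (Φ n p) * G m p ∂μ = (∫ p, f (Φ n p) ∂μ) * ∫ p, G m p ∂μ := by
      intro m
      have hind' : IndepFun (fun p => f (Φ n p)) (G m) μ :=
        (hind n).comp (φ := fun q => f q) (ψ := fun q =>
          (B m).indicator (fun _ => (1:ℝ)) (firstX (1 / ((m : ℝ) + 1)) q))
          f.continuous.measurable
          ((measurable_const.indicator (hBm m)).comp (firstX_meas _))
      exact hind'.integral_fun_mul_eq_mul_integral hfm.aestronglyMeasurable
        (hGm m).aestronglyMeasurable
    have l1 : Tendsto (fun m => ∫ p, f (Φ n p) * G m p ∂μ) atTop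
        (𝓝 (∫ p, f (Φ n p) * A.indicator (fun _ => (1:ℝ)) p ∂μ)) := by
      apply tendsto_integral_of_dominated_convergence (fun _ => ‖f‖ * 1)
      · exact fun m => (hfm.mul (hGm m)).aestronglyMeasurable
      · exact integrable_const _
      · refine fun m => Eventually.of_forall fun p => ?_
        rw [norm_mul]
        exact mul_le_mul (f.norm_coe_le_norm _) (hGb m p) (norm_nonneg _) (norm_nonneg _)
      · filter_upwards [hGlim] with p hp
        exact hp.const_mul _
    have l2 : Tendsto (fun m => ∫ p, G m p ∂μ) atTop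
        (𝓝 (∫ p, A.indicator (fun _ => (1:ℝ)) p ∂μ)) := by
      apply tendsto_integral_of_dominated_convergence (fun _ => 1)
      · exact fun m => (hGm m).aestronglyMeasurable
      · exact integrable_const _
      · exact fun m => Eventually.of_forall fun p => hGb m p
      · exact hGlim
    exact tendsto_nhds_unique l1 ((l2.const_mul _).congr fun m => (hi m).symm)
  have key2 : ∀ f : X →ᵇ ℝ, ∫ p, f (W p) * A.indicator (fun _ => (1:ℝ)) p ∂μ =
      (∫ p, f (W p) ∂μ) * ∫ p, A.indicator (fun _ => (1:ℝ)) p ∂μ := by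
    intro f
    have hAi : Measurable (A.indicator (fun _ => (1:ℝ))) := measurable_const.indicator hAm
    have hAb : ∀ p, ‖A.indicator (fun _ => (1:ℝ)) p‖ ≤ 1 := by
      intro p
      by_cases h : p ∈ A
      · rw [indicator_of_mem h]; simp
      · rw [indicator_of_notMem h]; simp
    have l1 : Tendsto (fun n => ∫ p, f (Φ n p) * A.indicator (fun _ => (1:ℝ)) p ∂μ) atTop
        (𝓝 (∫ p, f (W p) * A.indicator (fun _ => (1:ℝ)) p ∂μ)) := by
      apply tendsto_integral_of_dominated_convergence (fun _ => ‖f‖ * 1)
      · exact fun n => ((f.continuous.measurable.comp (hΦm n)).mul hAi).aestronglyMeasurable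
      · exact integrable_const _
      · refine fun n => Eventually.of_forall fun p => ?_
        rw [norm_mul]
        exact mul_le_mul (f.norm_coe_le_norm _) (hAb p) (norm_nonneg _) (norm_nonneg _)
      · filter_upwards [hΦ] with p hp
        exact ((f.continuous.tendsto _).comp hp).mul_const _
    have l2 : Tendsto (fun n => ∫ p, f (Φ n p) ∂μ) atTop (𝓝 (∫ p, f (W p) ∂μ)) := by
      apply tendsto_integral_of_dominated_convergence (fun _ => ‖f‖)
      · exact fun n => (f.continuous.measurable.comp (hΦm n)).aestronglyMeasurable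
      · exact integrable_const _
      · exact fun n => Eventually.of_forall fun p => f.norm_coe_le_norm _
      · filter_upwards [hΦ] with p hp
        exact (f.continuous.tendsto _).comp hp
    exact tendsto_nhds_unique l1 ((l2.mul_const _).congr fun n => (key1 n f).symm)
  -- conclusion
  have hiA : ∫ p, A.indicator (fun _ => (1:ℝ)) p ∂μ = μ.real A := by
    rw [integral_indicator hAm]
    simp
  have key3 : (μ.restrict A).map W = (ENNReal.ofReal (μ.real A)) • μ.map W := by
    have i1 : IsFiniteMeasure (ENNReal.ofReal (μ.real A) • μ.map W) :=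
      Measure.smul_finite _ ENNReal.ofReal_ne_top
    apply ext_of_forall_integral_eq_of_IsFiniteMeasure
    intro f
    rw [integral_map hW.aemeasurable f.continuous.aestronglyMeasurable, integral_smul_measure,
      integral_map hW.aemeasurable f.continuous.aestronglyMeasurable,
      ENNReal.toReal_ofReal measureReal_nonneg, smul_eq_mul]
    have h := key2 f
    rw [hiA, mul_comm (∫ p, f (W p) ∂μ)] at h
    rw [← h, ← integral_indicator hAm]
    congr 1
    ext p
    by_cases hp : p ∈ A
    · rw [indicator_of_mem hp, indicator_of_mem hp, mul_one]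
    · rw [indicator_of_notMem hp, indicator_of_notMem hp, mul_zero]
  have hpre : W ⁻¹' (W ⁻¹' A) = A := by
    ext p
    simp [hWW]
  have key4 := congrArg (fun ν : Measure X => ν (W ⁻¹' A)) key3
  rw [Measure.map_apply hW (hW hAm), Measure.smul_apply, Measure.map_apply hW (hW hAm), hpre,
    Measure.restrict_apply hAm, inter_self, smul_eq_mul, Measure.real,
    ENNReal.ofReal_toReal (measure_ne_top μ A)] at key4
  by_cases h : μ A = 0
  · exact Or.inl h
  · right
    have h2 : μ A * 1 = μ A * μ A := by rw [mul_one]; exact key4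
    exact ((ENNReal.mul_right_inj h (measure_ne_top μ A)).1 h2).symm

end Pool.Agent.Q289.SI
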