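import Pool.Agent.Q289.SI.Disc
import Pool.Agent.H984R4.NP.EnLimit
import Pool.Agent.H984R4.NP.Limit

/-!
Spatial independence in the limit.
-/

set_option autoImplicit false

namespace Pool.Agent.Q289.SI

open H974 H342P H984P H984N MeasureTheory Filter Topology ProbabilityTheory
open scoped BoundedContinuousFunction

theorem stopX_meas {U : Set ℂ} (hU : IsOpen U) : Measurable (stopX U) := by
  obtain ⟨u, hu⟩ := exists_cut hU
  apply measurable_of_tendsto_metrizable
    (f := fun (n : ℕ) (p : X) => softX (1 / ((n : ℝ) + 1)) u p)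
  · intro n
    exact (softX_cont hu (by positivity)).measurable
  · rw [tendsto_pi_nhds]
    exact fun p => softX_tendsto hu p

/-- the bounded continuous function `f ∘ g` -/
noncomputable def bc (f : X →ᵇ ℝ) {g : X → X} (hg : Continuous g) : X →ᵇ ℝ :=
  f.compContinuous ⟨g, hg⟩

@[simp] theorem bc_apply (f : X →ᵇ ℝ) {g : X → X} (hg : Continuous g) (p : X) :
    bc f hg p = f (g p) := rfl

theorem law_int (R : Rect) (δ : ℝ) (g : X →ᵇ ℝ) :
    ∫ p, g p ∂(R.law δ : Measure X) =
      E (R.dm δ).edges (fun F => g (R.curve δ F, R.time δ F)) :=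
  EnLimit_int R δ g g.continuous.stronglyMeasurable

theorem disc_indep (R : Rect) {δ r : ℝ} (hδ : 0 < δ) (hr : 2 * δ ≤ r) (hD : (R.dm δ).Ok)
    {U V : Set ℂ} (hUV : Disjoint U V) {u v : ℂ → ℝ} (hu : Cut U u) (hv : Cut V v)
    (f g : X → ℝ) :
    E (R.dm δ).edges (fun F => f (softX r u (R.curve δ F, R.time δ F)) *
        g (softX r v (revX (R.curve δ F, R.time δ F)))) =
      E (R.dm δ).edges (fun F => f (softX r u (R.curve δ F, R.time δ F))) *
        E (R.dm δ).edges (fun F => g (softX r v (revX (R.curve δ F, R.time δ F)))) := by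
  apply Ex_mul_indep (EU_sub (R.dm δ) δ U) (EU_sub (R.dm δ) δ V) (EU_disj (R.dm δ) δ hUV)
  · intro F hF
    rw [fwd_soft hu hδ hr R hD hF (Finset.inter_subset_left.trans hF) (by
      rw [Finset.inter_assoc, Finset.inter_self])]
  · intro F hF
    rw [bwd_soft hv hδ hr R hD hF (Finset.inter_subset_left.trans hF) (by
      rw [Finset.inter_assoc, Finset.inter_self])]

variable (R : Rect) {δ : ℕ → ℝ} (hδ : ∀ i, 0 < δ i) (hlim : Tendsto δ atTop (𝓝 0))
  {μ : ProbabilityMeasure X} (hμ : Tendsto (fun i => R.law (δ i)) atTop (𝓝 μ))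

include hδ hlim hμ

theorem soft_indep {r : ℝ} (hr : 0 < r) {U V : Set ℂ} (hUV : Disjoint U V) {u v : ℂ → ℝ}
    (hu : Cut U u) (hv : Cut V v) (f g : X →ᵇ ℝ) :
    ∫ p, f (softX r u p) * g (softX r v (revX p)) ∂(μ : Measure X) =
      (∫ p, f (softX r u p) ∂(μ : Measure X)) *
        ∫ p, g (softX r v (revX p)) ∂(μ : Measure X) := by
  have hcu := softX_cont hu hr
  have hcv : Continuous (fun p : X => softX r v (revX p)) := (softX_cont hv hr).comp revX_cont
  have t := ProbabilityMeasure.tendsto_iff_forall_integral_tendsto.mp hμ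
  have t1 := t (bc f hcu)
  have t2 := t (bc g hcv)
  have t3 := t (bc f hcu * bc g hcv)
  obtain ⟨κ, S, δ0, -, -, hδ0, -, hshape⟩ := R.shape
  have hev : ∀ᶠ i in atTop, (∫ p, bc f hcu p ∂(R.law (δ i) : Measure X)) *
      (∫ p, bc g hcv p ∂(R.law (δ i) : Measure X)) =
      ∫ p, (bc f hcu * bc g hcv) p ∂(R.law (δ i) : Measure X) := by
    filter_upwards [hlim.eventually (ge_mem_nhds hδ0),
      hlim.eventually (ge_mem_nhds (half_pos hr))] with i hi1 hi2
    rw [law_int, law_int, law_int]
    have hD := (hshape (δ i) (hδ i) hi1).ok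
    exact (disc_indep R (hδ i) (by linarith) hD hUV hu hv f g).symm
  have t4 := (t1.mul t2).congr' hev
  exact tendsto_nhds_unique t3 t4

theorem spatial_indep {U V : Set ℂ} (hU : IsOpen U) (hV : IsOpen V) (hUV : Disjoint U V) :
    IndepFun (stopX U) (fun p => stopX V (revX p)) (μ : Measure X) := by
  obtain ⟨u, hu⟩ := exists_cut hU
  obtain ⟨v, hv⟩ := exists_cut hV
  have hmU := stopX_meas hU
  have hmV : Measurable (fun p => stopX V (revX p)) := (stopX_meas hV).comp revX_cont.measurable
  refine indepFun_of_bcf hmU.aemeasurable hmV.aemeasurable fun f g => ?_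
  show ∫ p, f (stopX U p) * g (stopX V (revX p)) ∂(μ : Measure X) =
      (∫ p, f (stopX U p) ∂(μ : Measure X)) * ∫ p, g (stopX V (revX p)) ∂(μ : Measure X)
  have hr : ∀ n : ℕ, (0:ℝ) < 1 / ((n : ℝ) + 1) := fun n => by positivity
  have k1 : ∀ p : X, Tendsto (fun n : ℕ => f (softX (1 / ((n : ℝ) + 1)) u p)) atTop
      (𝓝 (f (stopX U p))) := fun p => (f.continuous.tendsto _).comp (softX_tendsto hu p)
  have k2 : ∀ p : X, Tendsto (fun n : ℕ => g (softX (1 / ((n : ℝ) + 1)) v (revX p))) atTop
      (𝓝 (g (stopX V (revX p)))) := fun p => (g.continuous.tendsto _).comp (softX_tendsto hv _)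
  have m1 : ∀ n : ℕ, Continuous (fun p : X => f (softX (1 / ((n : ℝ) + 1)) u p)) := fun n =>
    f.continuous.comp (softX_cont hu (hr n))
  have m2 : ∀ n : ℕ, Continuous (fun p : X => g (softX (1 / ((n : ℝ) + 1)) v (revX p))) :=
    fun n => g.continuous.comp ((softX_cont hv (hr n)).comp revX_cont)
  have l1 : Tendsto (fun n : ℕ => ∫ p, f (softX (1 / ((n : ℝ) + 1)) u p) ∂(μ : Measure X)) atTop
      (𝓝 (∫ p, f (stopX U p) ∂(μ : Measure X))) := by
    apply tendsto_integral_of_dominated_convergence (fun _ => ‖f‖)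
    · exact fun n => (m1 n).aestronglyMeasurable
    · exact integrable_const _
    · exact fun n => Eventually.of_forall fun p => f.norm_coe_le_norm _
    · exact Eventually.of_forall k1
  have l2 : Tendsto (fun n : ℕ => ∫ p, g (softX (1 / ((n : ℝ) + 1)) v (revX p)) ∂(μ : Measure X))
      atTop (𝓝 (∫ p, g (stopX V (revX p)) ∂(μ : Measure X))) := by
    apply tendsto_integral_of_dominated_convergence (fun _ => ‖g‖)
    · exact fun n => (m2 n).aestronglyMeasurable
    · exact integrable_const _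
    · exact fun n => Eventually.of_forall fun p => g.norm_coe_le_norm _
    · exact Eventually.of_forall k2
  have l3 : Tendsto (fun n : ℕ => ∫ p, f (softX (1 / ((n : ℝ) + 1)) u p) *
      g (softX (1 / ((n : ℝ) + 1)) v (revX p)) ∂(μ : Measure X))
      atTop (𝓝 (∫ p, f (stopX U p) * g (stopX V (revX p)) ∂(μ : Measure X))) := by
    apply tendsto_integral_of_dominated_convergence (fun _ => ‖f‖ * ‖g‖)
    · exact fun n => ((m1 n).mul (m2 n)).aestronglyMeasurable
    · exact integrable_const _
    · refine fun n => Eventually.of_forall fun p => ?_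
      rw [norm_mul]
      exact mul_le_mul (f.norm_coe_le_norm _) (g.norm_coe_le_norm _) (norm_nonneg _) (norm_nonneg _)
    · exact Eventually.of_forall fun p => (k1 p).mul (k2 p)
  have l4 := l1.mul l2
  refine tendsto_nhds_unique l3 (l4.congr fun n => ?_)
  exact (soft_indep R hδ hlim hμ (hr n) hUV hu hv f g).symm

end Pool.Agent.Q289.SI
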