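import Pool.Agent.Q289.SI.Lim

/-!
Locality: near the end point the limits do not depend on the rectangle.
-/

set_option autoImplicit false

namespace Pool.Agent.Q289.SI

open H974 Finset H342P H984P H984N MeasureTheory Filter Topology ProbabilityTheory
open scoped BoundedContinuousFunction

/-- The points of the plane which are not above the top side of the rectangle and between its
lateral sides. -/
def below (R : Rect) : Set ℂ := {z | -R.A < z.re ∧ z.re < R.B ∧ z.im < R.H}

theorem edges_iff (R : Rect) {δ : ℝ} (hδ : 0 < δ) {e : Edg}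
    (h1 : -R.A + 2 * δ < (vp δ (src e)).re) (h2 : (vp δ (src e)).re < R.B - 2 * δ)
    (h3 : (vp δ (src e)).im < R.H - 2 * δ) :
    (e ∈ (R.dm δ).edges ↔ 0 ≤ e.2.1) ∧
      (e ∈ (R.dm δ).wir ↔ e.2.2 = true ∧ e.2.1 = 0 ∧ e.1 < 0) := by
  obtain ⟨x, y, b⟩ := e
  simp only [vp, src_mk] at h1 h2 h3
  have e1 : -(R.A / δ) + 2 < x := by
    have : (-R.A + 2 * δ) / δ < x := by rw [div_lt_iff₀ hδ]; linarith
    rw [add_div, mul_div_cancel_right₀ _ hδ.ne', neg_div] at this
    exact this
  have e2 : (x : ℝ) < R.B / δ - 2 := by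
    have : (x : ℝ) < (R.B - 2 * δ) / δ := by rw [lt_div_iff₀ hδ]; linarith
    rw [sub_div, mul_div_cancel_right₀ _ hδ.ne'] at this
    exact this
  have e3 : (y : ℝ) + 1 < R.H / δ - 2 := by
    have : (y : ℝ) + 1 < (R.H - 2 * δ) / δ := by rw [lt_div_iff₀ hδ]; linarith
    rw [sub_div, mul_div_cancel_right₀ _ hδ.ne'] at this
    exact this
  have g1 : (R.dm δ).l + 1 ≤ x := by
    have k1 := Int.floor_le (-(R.A / δ))
    have k2 : ((⌊-(R.A / δ)⌋ + 2 : ℤ) : ℝ) < x := by push_cast; linarith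
    have k3 : ⌊-(R.A / δ)⌋ + 2 < x := by exact_mod_cast k2
    show ⌊-(R.A / δ)⌋ + 1 + 1 ≤ x
    omega
  have g2 : x < (R.dm δ).r := by
    have k1 := Int.le_ceil (R.B / δ)
    have k2 : (x : ℝ) < ((⌈R.B / δ⌉ - 2 : ℤ) : ℝ) := by push_cast; linarith
    have k3 : x < ⌈R.B / δ⌉ - 2 := by exact_mod_cast k2
    show x < ⌈R.B / δ⌉ - 1
    omega
  have g3 : y < (R.dm δ).h := by
    have k1 := Int.le_ceil (R.H / δ)
    have k2 : (y : ℝ) < ((⌈R.H / δ⌉ - 3 : ℤ) : ℝ) := by push_cast; linarith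
    have k3 : y < ⌈R.H / δ⌉ - 3 := by exact_mod_cast k2
    show y < ⌈R.H / δ⌉ - 2
    omega
  unfold Dm.edges Dm.wir
  cases b
  · refine ⟨by rw [mem_RE_false]; simp only; constructor <;> intro h <;> omega, ?_⟩
    constructor
    · rintro (⟨h, -⟩ | ⟨-, h, -⟩ | ⟨h, -⟩)
      · exact absurd h (by simp)
      · simp only at h; omega
      · exact absurd h (by simp)
    · rintro ⟨h, -⟩
      exact absurd h (by simp)
  · refine ⟨by rw [mem_RE_true]; simp only; constructor <;> intro h <;> omega, ?_⟩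
    constructor
    · rintro (⟨-, h, -⟩ | ⟨h, -⟩ | ⟨-, h, -, h'⟩)
      · simp only at h; omega
      · exact absurd h (by simp)
      · exact ⟨rfl, h, h'⟩
    · rintro ⟨-, h, h'⟩
      refine Or.inr (Or.inr ⟨rfl, h, ?_, h'⟩)
      simp only; omega

/-- The curve and its natural time. -/
noncomputable def cvD (D : Dm) (δ : ℝ) (F : Finset Edg) : X :=
  (pl (D.len F) (fun k => pos δ (D.walk F k)), δ ^ (7/4 : ℝ) * D.len F)

/-- The configuration near `U` does not depend on the lattice rectangle. -/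
structure LocOk (D : Dm) (u : ℂ → ℝ) (r δ : ℝ) : Prop where
  edges : ∀ e : Edg, r / 2 < u (vp δ (src e)) → (e ∈ D.edges ↔ 0 ≤ e.2.1)
  wir : ∀ e : Edg, r / 2 < u (vp δ (src e)) →
    (e ∈ D.wir ↔ e.2.2 = true ∧ e.2.1 = 0 ∧ e.1 < 0)
  start : u (pos δ D.start) ≤ r

section

variable {U : Set ℂ} {u : ℂ → ℝ} (hu : Cut U u) {r δ : ℝ} (hδ : 0 < δ) (hr : 6 * δ ≤ r)

include hu hδ hr

theorem bwd_foll2 {D D' : Dm} (hD : D.Ok) (hD' : D'.Ok) {F F' : Finset Edg} (hF : F ⊆ D.edges)
    (hF' : F' ⊆ D'.edges)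
    (h : ∀ e : Edg, r / 2 < u (vp δ (src e)) → (e ∈ D.cfg F ↔ e ∈ D'.cfg F'))
    (hs : u (pos δ D'.start) ≤ r) :
    Foll r u (D.len F) (D'.len F') (fun k => pos δ (D.walk F (D.len F - k)))
      (fun k => pos δ (D'.walk F' (D'.len F' - k))) := by
  intro k hk hall
  have h1 := bwd_agree hD hD' hF hF' (k := k + 1) (by omega)
    (fun j hj => h _ (by
      have h3 := hall j (by omega)
      have h4 := hu.lip (pos δ (D.walk F (D.len F - j)))
        (vp δ (src (be (D.walk F (D.len F - j)))))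
      have h5 := dist_be hδ (D.walk F (D.len F - j))
      simp only at h3
      linarith))
    (fun j hj hcon => by
      have h3 := hall j (by omega)
      simp only at h3
      rw [hcon] at h3
      linarith)
  exact ⟨(h1 (k + 1) le_rfl).1, fun j hj => by simp only [(h1 j hj).2]⟩

theorem bwd_softD {D D' : Dm} {F F' : Finset Edg} (hD : D.Ok) (hD' : D'.Ok)
    (hF : F ⊆ D.edges) (hF' : F' ⊆ D'.edges)
    (h : ∀ e : Edg, r / 2 < u (vp δ (src e)) → (e ∈ D.cfg F ↔ e ∈ D'.cfg F'))
    (hs : u (pos δ D'.start) ≤ r) (hs' : u (pos δ D.start) ≤ r) :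
    softX r u (revX (cvD D δ F)) = softX r u (revX (cvD D' δ F')) := by
  unfold cvD revX
  have l1 := len_pos hD hF
  have l2 := len_pos hD' hF'
  rw [revC_pl l1, revC_pl l2]
  refine soft_pl hu (by linarith) l1 l2 ?_ (bwd_foll2 hu hδ hr hD hD' hF hF' h hs)
    (bwd_foll2 hu hδ hr hD' hD hF' hF (fun e he => (h e he).symm) hs') _
  simp only [Nat.sub_zero]
  rw [walk_len hD hF, walk_len hD' hF']

theorem disc_locD {D D' : Dm} (hD : D.Ok) (hD' : D'.Ok) (h1 : LocOk D u r δ)
    (h2 : LocOk D' u r δ) (f : X → ℝ) :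
    E D.edges (fun F => f (softX r u (revX (cvD D δ F)))) =
      E D'.edges (fun F => f (softX r u (revX (cvD D' δ F)))) := by
  classical
  set C : Finset Edg := D.edges.filter (fun e => r / 2 < u (vp δ (src e))) with hC
  have hC' : C = D'.edges.filter (fun e => r / 2 < u (vp δ (src e))) := by
    ext e
    rw [hC, Finset.mem_filter, Finset.mem_filter]
    refine and_congr_left fun he => ?_
    rw [h1.edges e he, h2.edges e he]
  have hCs : C ⊆ D.edges := Finset.filter_subset _ _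
  have hCs' : C ⊆ D'.edges := by rw [hC']; exact Finset.filter_subset _ _
  have key : ∀ (S S' : Dm), LocOk S u r δ → LocOk S' u r δ → ∀ F F' : Finset Edg,
      F ⊆ S.edges → F' ⊆ S'.edges → F ∩ C = F' ∩ C →
      (∀ e : Edg, r / 2 < u (vp δ (src e)) → 0 ≤ e.2.1 → e ∈ C) →
      ∀ e : Edg, r / 2 < u (vp δ (src e)) → (e ∈ S.cfg F ↔ e ∈ S'.cfg F') := by
    intro S S' g1 g2 F F' hF hF' hFF hmem e he
    have t1 : ∀ (S : Dm) (G G' : Finset Edg), LocOk S u r δ →
        G ⊆ S.edges → G ∩ C = G' ∩ C → e ∈ G → e ∈ G' := by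
      intro S G G' hS hG hGG heG
      have h5 : e ∈ G ∩ C := Finset.mem_inter.2 ⟨heG, hmem e he ((hS.edges e he).1 (hG heG))⟩
      rw [hGG] at h5
      exact (Finset.mem_inter.1 h5).1
    unfold Dm.cfg
    simp only [Set.mem_union, Finset.mem_coe]
    rw [g1.wir e he, g2.wir e he]
    exact or_congr_left ⟨t1 S F F' g1 hF hFF, t1 S' F' F g2 hF' hFF.symm⟩
  have hmem : ∀ e : Edg, r / 2 < u (vp δ (src e)) → 0 ≤ e.2.1 → e ∈ C := by
    intro e he h0
    rw [hC, Finset.mem_filter]
    exact ⟨(h1.edges e he).2 h0, he⟩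
  have l1 : E D.edges (fun F => f (softX r u (revX (cvD D δ F)))) =
      E C (fun F => f (softX r u (revX (cvD D δ F)))) := by
    apply Ex_local hCs
    intro F hF
    rw [bwd_softD hu hδ hr hD hD hF (Finset.inter_subset_left.trans hF)
      (key D D h1 h1 F (F ∩ C) hF (Finset.inter_subset_left.trans hF) (by
        rw [Finset.inter_assoc, Finset.inter_self]) hmem) h1.start h1.start]
  have l2 : E D'.edges (fun F => f (softX r u (revX (cvD D' δ F)))) =
      E C (fun F => f (softX r u (revX (cvD D' δ F)))) := by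
    apply Ex_local hCs'
    intro F hF
    rw [bwd_softD hu hδ hr hD' hD' hF (Finset.inter_subset_left.trans hF)
      (key D' D' h2 h2 F (F ∩ C) hF (Finset.inter_subset_left.trans hF) (by
        rw [Finset.inter_assoc, Finset.inter_self]) hmem) h2.start h2.start]
  rw [l1, l2]
  apply Ex_congr
  intro F hF
  rw [bwd_softD hu hδ hr hD hD' (hF.trans hCs) (hF.trans hCs')
    (key D D' h1 h2 F F (hF.trans hCs) (hF.trans hCs') rfl hmem) h2.start h1.start]

theorem u_start (R : Rect) (hUR : U ⊆ below R) : u (pos δ (R.dm δ).start) ≤ r := by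
  have h1 : R.a ∉ U := fun h => by
    have := (hUR h).2.2
    exact lt_irrefl _ this
  have h2 : u R.a ≤ 0 := by
    by_contra hcon
    exact h1 ((hu.pos _).1 (not_le.1 hcon))
  have h3 := hu.lip (pos δ (R.dm δ).start) R.a
  have h4 := R.pos_start hδ
  linarith

theorem edges_iff' (R : Rect) (hUR : U ⊆ below R) {e : Edg} (he : r / 2 < u (vp δ (src e))) :
    (e ∈ (R.dm δ).edges ↔ 0 ≤ e.2.1) ∧
      (e ∈ (R.dm δ).wir ↔ e.2.2 = true ∧ e.2.1 = 0 ∧ e.1 < 0) := by
  have key : ∀ w : ℂ, dist (vp δ (src e)) w ≤ 2 * δ → w ∈ U := by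
    intro w hw
    rw [← hu.pos]
    have h1 := hu.lip (vp δ (src e)) w
    linarith
  have d2 : |2 * δ| = 2 * δ := abs_of_pos (by linarith)
  apply edges_iff R hδ
  · have h1 := (hUR (key ⟨(vp δ (src e)).re - 2 * δ, (vp δ (src e)).im⟩ (by
      refine (cdist_le (a := 2 * δ) (b := 0) ?_ ?_).trans (by linarith)
      · simp only
        rw [sub_sub_cancel, d2]
      · simp))).1
    simp only at h1
    linarith
  · have h1 := (hUR (key ⟨(vp δ (src e)).re + 2 * δ, (vp δ (src e)).im⟩ (by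
      refine (cdist_le (a := 2 * δ) (b := 0) ?_ ?_).trans (by linarith)
      · simp only
        rw [sub_add_cancel_left, abs_neg, d2]
      · simp))).2.1
    simp only at h1
    linarith
  · have h1 := (hUR (key ⟨(vp δ (src e)).re, (vp δ (src e)).im + 2 * δ⟩ (by
      refine (cdist_le (a := 0) (b := 2 * δ) ?_ ?_).trans (by linarith)
      · simp
      · simp only
        rw [sub_add_cancel_left, abs_neg, d2]))).2.2
    simp only at h1
    linarith

theorem locOk_of (R : Rect) (hUR : U ⊆ below R) : LocOk (R.dm δ) u r δ :=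
  ⟨fun _ he => (edges_iff' hu hδ hr R hUR he).1, fun _ he => (edges_iff' hu hδ hr R hUR he).2,
    u_start hu hδ hr R hUR⟩

theorem disc_loc (R R' : Rect) (hUR : U ⊆ below R) (hUR' : U ⊆ below R') (hD : (R.dm δ).Ok)
    (hD' : (R'.dm δ).Ok) (f : X → ℝ) :
    E (R.dm δ).edges (fun F => f (softX r u (revX (R.curve δ F, R.time δ F)))) =
      E (R'.dm δ).edges (fun F => f (softX r u (revX (R'.curve δ F, R'.time δ F)))) :=
  disc_locD hu hδ hr hD hD' (locOk_of hu hδ hr R hUR) (locOk_of hu hδ hr R' hUR') f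

end

/-- Locality at the end point. -/
theorem locality (R R' : Rect) {δ : ℕ → ℝ} (hδ : ∀ i, 0 < δ i) (hlim : Tendsto δ atTop (𝓝 0))
    {μ μ' : ProbabilityMeasure X} (hμ : Tendsto (fun i => R.law (δ i)) atTop (𝓝 μ))
    (hμ' : Tendsto (fun i => R'.law (δ i)) atTop (𝓝 μ')) {V : Set ℂ} (hV : IsOpen V)
    (hVR : V ⊆ below R) (hVR' : V ⊆ below R') :
    (μ : Measure X).map (fun p => stopX V (revX p)) =
      (μ' : Measure X).map (fun p => stopX V (revX p)) := by
  obtain ⟨v, hv⟩ := exists_cut hV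
  have hmV : Measurable (fun p => stopX V (revX p)) := (stopX_meas hV).comp revX_cont.measurable
  have hr : ∀ n : ℕ, (0:ℝ) < 1 / ((n : ℝ) + 1) := fun n => by positivity
  have i1 : IsFiniteMeasure ((μ' : Measure X).map (fun p => stopX V (revX p))) :=
    Measure.isFiniteMeasure_map _ _
  apply ext_of_forall_integral_eq_of_IsFiniteMeasure
  intro f
  rw [integral_map hmV.aemeasurable f.continuous.aestronglyMeasurable,
    integral_map hmV.aemeasurable f.continuous.aestronglyMeasurable]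
  have hsoft : ∀ n : ℕ, ∫ p, f (softX (1 / ((n : ℝ) + 1)) v (revX p)) ∂(μ : Measure X) =
      ∫ p, f (softX (1 / ((n : ℝ) + 1)) v (revX p)) ∂(μ' : Measure X) := by
    intro n
    have hcv : Continuous (fun p : X => softX (1 / ((n : ℝ) + 1)) v (revX p)) :=
      (softX_cont hv (hr n)).comp revX_cont
    have t1 := ProbabilityMeasure.tendsto_iff_forall_integral_tendsto.mp hμ (bc f hcv)
    have t2 := ProbabilityMeasure.tendsto_iff_forall_integral_tendsto.mp hμ' (bc f hcv)
    obtain ⟨κ, S, δ0, -, -, hδ0, -, hshape⟩ := R.shape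
    obtain ⟨κ', S', δ0', -, -, hδ0', -, hshape'⟩ := R'.shape
    refine tendsto_nhds_unique t1 (t2.congr' ?_)
    filter_upwards [hlim.eventually (ge_mem_nhds hδ0), hlim.eventually (ge_mem_nhds hδ0'),
      hlim.eventually (ge_mem_nhds (show 0 < 1 / ((n : ℝ) + 1) / 6 by positivity))]
      with i hi1 hi2 hi3
    rw [law_int, law_int]
    exact (disc_loc hv (hδ i) (by linarith) R R' hVR hVR' (hshape _ (hδ i) hi1).ok
      (hshape' _ (hδ i) hi2).ok f).symm
  have lim : ∀ ν : ProbabilityMeasure X, Tendsto (fun n : ℕ =>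
      ∫ p, f (softX (1 / ((n : ℝ) + 1)) v (revX p)) ∂(ν : Measure X)) atTop
      (𝓝 (∫ p, f (stopX V (revX p)) ∂(ν : Measure X))) := by
    intro ν
    apply tendsto_integral_of_dominated_convergence (fun _ => ‖f‖)
    · exact fun n => (f.continuous.comp ((softX_cont hv (hr n)).comp
        revX_cont)).aestronglyMeasurable
    · exact integrable_const _
    · exact fun n => Eventually.of_forall fun p => f.norm_coe_le_norm _
    · exact Eventually.of_forall fun p => (f.continuous.tendsto _).comp (softX_tendsto hv _)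
  exact tendsto_nhds_unique (lim μ) ((lim μ').congr fun n => (hsoft n).symm)

end Pool.Agent.Q289.SI
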