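import Pool.Agent.Q289.SI.Germ

/-!
The local modulus of continuity at the start of a curve as a germ.
-/

set_option autoImplicit false

namespace Pool.Agent.Q289.SI

open H984N MeasureTheory Filter Topology ProbabilityTheory Set

/-- The modulus of continuity of the exploration path. -/
noncomputable def ph (h : ℝ) : ℝ := h ^ (4/7 : ℝ) * Real.log (1 / h) ^ (3/7 : ℝ)

theorem ph_nonneg {h : ℝ} (h0 : 0 < h) (h1 : h < 1) : 0 ≤ ph h := by
  unfold ph
  have : 0 ≤ Real.log (1 / h) := Real.log_nonneg (by rw [le_div_iff₀ h0]; linarith)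
  positivity

/-- The curve has modulus of continuity `K ph` at scales less than `θ`. -/
def CM (K θ : ℝ) : Set X := {q | ∀ h : ℝ, 0 < h → h < θ → ∀ s t : unitInterval, s ≤ t →
  ((t : ℝ) - s) * q.2 < h → dist (q.1 s) (q.1 t) ≤ K * ph h}

theorem CM_closed (K θ : ℝ) : IsClosed (CM K θ) := by
  unfold CM
  simp only [ofPred_forall]
  refine isClosed_iInter fun h => isClosed_iInter fun _ => isClosed_iInter fun _ =>
    isClosed_iInter fun s => isClosed_iInter fun t => isClosed_iInter fun _ => ?_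
  have e : {q : X | ((t : ℝ) - s) * q.2 < h → dist (q.1 s) (q.1 t) ≤ K * ph h} =
      {q : X | h ≤ ((t : ℝ) - s) * q.2} ∪ {q : X | dist (q.1 s) (q.1 t) ≤ K * ph h} := by
    ext q
    simp only [mem_ofPred_eq, mem_union]
    rw [imp_iff_not_or, not_lt]
  rw [e]
  have e1 : Continuous (fun q : X => ((t : ℝ) - s) * q.2) := by fun_prop
  have e2 : Continuous (fun q : X => dist (q.1 s) (q.1 t)) := by fun_prop
  exact (isClosed_le continuous_const e1).union (isClosed_le e2 continuous_const)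

theorem CM_first {K θ θ' : ℝ} (h : θ' ≤ θ) {q : X} (hq : q ∈ CM K θ) : firstX θ' q ∈ CM K θ' := by
  intro k hk hk2 s t hst hd
  have hst' : (s : ℝ) ≤ t := hst
  unfold firstX at hd ⊢
  simp only [cutAt_apply] at hd ⊢
  have hl := (projIcc (0:ℝ) 1 zero_le_one (θ' / q.2)).2.1
  refine hq k hk (hk2.trans_le h) _ _ ?_ ?_
  · apply Subtype.coe_le_coe.1
    exact mul_le_mul_of_nonneg_left hst' hl
  · show ((projIcc (0:ℝ) 1 zero_le_one (θ' / q.2) : ℝ) * t -
      (projIcc (0:ℝ) 1 zero_le_one (θ' / q.2) : ℝ) * s) * q.2 < k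
    calc _ = ((t : ℝ) - s) * ((projIcc (0:ℝ) 1 zero_le_one (θ' / q.2) : ℝ) * q.2) := by ring
      _ < k := hd

/-- The local modulus of continuity at the start is at most `K ph`. -/
def AK (K : ℝ) : Set X := {p | ∃ n : ℕ, firstX (1 / ((n : ℝ) + 1)) p ∈ CM K (1 / ((n : ℝ) + 1))}

theorem AK_germ (K : ℝ) {ε : ℝ} (hε : 0 < ε) : MeasurableSet[sigF ε] (AK K) := by
  obtain ⟨N, hN⟩ := exists_nat_one_div_lt hε
  refine ⟨⋃ n : ℕ, ⋃ (_ : N ≤ n), firstX (1 / ((n : ℝ) + 1)) ⁻¹' CM K (1 / ((n : ℝ) + 1)), ?_, ?_⟩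
  · exact MeasurableSet.iUnion fun n => MeasurableSet.iUnion fun _ =>
      (firstX_meas _) (CM_closed _ _).measurableSet
  · ext p
    simp only [mem_preimage, mem_iUnion, exists_prop, AK, mem_ofPred_eq]
    have hle : ∀ n : ℕ, N ≤ n → 1 / ((n : ℝ) + 1) ≤ ε := by
      intro n hn
      have : (N : ℝ) ≤ n := by exact_mod_cast hn
      refine le_trans ?_ hN.le
      gcongr
    constructor
    · rintro ⟨n, hn, h⟩
      rw [firstX_firstX (by positivity) (hle n hn)] at h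
      exact ⟨n, h⟩
    · rintro ⟨n, h⟩
      have hnm : (n : ℝ) ≤ ((max n N : ℕ) : ℝ) := by exact_mod_cast le_max_left n N
      have h1 : 1 / (((max n N : ℕ) : ℝ) + 1) ≤ 1 / ((n : ℝ) + 1) := by gcongr
      refine ⟨max n N, le_max_right _ _, ?_⟩
      rw [firstX_firstX (by positivity) (hle _ (le_max_right _ _)),
        ← firstX_firstX (by positivity) h1]
      exact CM_first h1 h

theorem AK_mono {K K' : ℝ} (h : K ≤ K') : AK K ⊆ AK K' := by
  rintro p ⟨n, hn⟩
  refine ⟨n, fun k hk hk2 s t hst hd => (hn k hk hk2 s t hst hd).trans ?_⟩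
  apply mul_le_mul_of_nonneg_right h
  apply ph_nonneg hk
  refine hk2.trans_le ?_
  rw [div_le_one (by positivity)]
  have : (0:ℝ) ≤ n := Nat.cast_nonneg n
  linarith

/-- In terms of the curve. -/
theorem mem_AK {K : ℝ} {p : X} (hp : 0 < p.2) : p ∈ AK K ↔ ∃ θ : ℝ, 0 < θ ∧ θ ≤ 1 ∧
    ∀ h : ℝ, 0 < h → h < θ → ∀ s t : unitInterval, s ≤ t → (t : ℝ) * p.2 ≤ θ →
      ((t : ℝ) - s) * p.2 < h → dist (p.1 s) (p.1 t) ≤ K * ph h := by
  have key : ∀ θ : ℝ, 0 < θ → (firstX θ p ∈ CM K θ ↔ ∀ h : ℝ, 0 < h → h < θ →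
      ∀ s t : unitInterval, s ≤ t → (t : ℝ) * p.2 ≤ θ →
      ((t : ℝ) - s) * p.2 < h → dist (p.1 s) (p.1 t) ≤ K * ph h) := by
    intro θ hθ
    obtain ⟨l, hl⟩ : ∃ l : unitInterval, l = projIcc (0:ℝ) 1 zero_le_one (θ / p.2) := ⟨_, rfl⟩
    have hlp : (l : ℝ) * p.2 ≤ θ := by
      rw [hl]
      rcases le_total θ p.2 with h2 | h2
      · rw [projIcc_of_mem _ ⟨by positivity, (div_le_one hp).2 h2⟩]
        simp only
        rw [div_mul_cancel₀ _ hp.ne']
      · rw [projIcc_of_right_le _ ((one_le_div hp).2 h2)]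
        simpa using h2
    have hl0 : (0:ℝ) < l := by
      rw [hl]
      rcases le_total θ p.2 with h2 | h2
      · rw [projIcc_of_mem _ ⟨by positivity, (div_le_one hp).2 h2⟩]
        simp only
        positivity
      · rw [projIcc_of_right_le _ ((one_le_div hp).2 h2)]
        simp
    have hlt : ∀ t : unitInterval, (t : ℝ) * p.2 ≤ θ → t ≤ l := by
      intro t ht
      rw [hl]
      rcases le_total θ p.2 with h2 | h2
      · rw [projIcc_of_mem _ ⟨by positivity, (div_le_one hp).2 h2⟩]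
        apply Subtype.coe_le_coe.1
        simp only
        rw [le_div_iff₀ hp]
        exact ht
      · rw [projIcc_of_right_le _ ((one_le_div hp).2 h2)]
        exact t.2.2
    have e1 : firstX θ p = (cutAt p.1 l, (l : ℝ) * p.2) := by
      unfold firstX
      rw [hl]
    rw [e1]
    constructor
    · intro H h h0 hh s t hst htθ hd
      have hst' : (s : ℝ) ≤ t := hst
      have htl : (t : ℝ) ≤ l := hlt t htθ
      have ms : (s : ℝ) / l ∈ Icc (0:ℝ) 1 :=
        ⟨div_nonneg s.2.1 hl0.le, (div_le_one hl0).2 (hst'.trans htl)⟩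
      have mt : (t : ℝ) / l ∈ Icc (0:ℝ) 1 := ⟨div_nonneg t.2.1 hl0.le, (div_le_one hl0).2 htl⟩
      have k := H h h0 hh ⟨(s : ℝ) / l, ms⟩ ⟨(t : ℝ) / l, mt⟩ (by
        show (s : ℝ) / l ≤ (t : ℝ) / l
        gcongr) (by
        show ((t : ℝ) / l - (s : ℝ) / l) * (l * p.2) < h
        calc ((t : ℝ) / l - (s : ℝ) / l) * (l * p.2) = ((t : ℝ) - s) * p.2 := by field_simp
          _ < h := hd)
      have e2 : ∀ (v : unitInterval) (mv : (v : ℝ) / l ∈ Icc (0:ℝ) 1),
          l * ⟨(v : ℝ) / l, mv⟩ = v := by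
        intro v mv
        apply Subtype.ext
        show (l : ℝ) * ((v : ℝ) / l) = v
        field_simp
      simp only [cutAt_apply] at k
      rwa [e2, e2] at k
    · intro H h h0 hh s t hst hd
      simp only [cutAt_apply]
      have hst' : (s : ℝ) ≤ t := hst
      refine H h h0 hh _ _ ?_ ?_ ?_
      · apply Subtype.coe_le_coe.1
        exact mul_le_mul_of_nonneg_left hst' hl0.le
      · show (l : ℝ) * t * p.2 ≤ θ
        have := t.2.2
        have := t.2.1
        nlinarith [mul_pos hl0 hp]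
      · show ((l : ℝ) * t - l * s) * p.2 < h
        calc ((l : ℝ) * t - l * s) * p.2 = ((t : ℝ) - s) * (l * p.2) := by ring
          _ < h := hd
  constructor
  · rintro ⟨n, hn⟩
    refine ⟨1 / ((n : ℝ) + 1), by positivity, ?_, (key _ (by positivity)).1 hn⟩
    rw [div_le_one (by positivity)]
    have : (0:ℝ) ≤ n := Nat.cast_nonneg n
    linarith
  · rintro ⟨θ, hθ, -, H⟩
    obtain ⟨n, hn⟩ := exists_nat_one_div_lt hθ
    refine ⟨n, (key _ (by positivity)).2 fun h h0 hh s t hst htθ hd => ?_⟩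
    exact H h h0 (hh.trans hn) s t hst (htθ.trans hn.le) hd

/-- The local modulus of continuity at the start of the curve is of the exact order `ph`, with the
deterministic constant `L`. -/
def LocMod (L : ℝ) (ν : Measure X) : Prop :=
  (∀ K : ℝ, L < K → ∀ᵐ p ∂ν, ∃ θ : ℝ, 0 < θ ∧ ∀ h : ℝ, 0 < h → h < θ →
    ∀ s t : unitInterval, s ≤ t → (t : ℝ) * p.2 ≤ θ → ((t : ℝ) - s) * p.2 < h →
      dist (p.1 s) (p.1 t) ≤ K * (h ^ (4/7 : ℝ) * Real.log (1 / h) ^ (3/7 : ℝ))) ∧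
  (∀ K : ℝ, K < L → ∀ᵐ p ∂ν, ∀ θ : ℝ, 0 < θ → ∃ h : ℝ, 0 < h ∧ h < θ ∧
    ∃ s t : unitInterval, s ≤ t ∧ (t : ℝ) * p.2 ≤ θ ∧ ((t : ℝ) - s) * p.2 < h ∧
      K * (h ^ (4/7 : ℝ) * Real.log (1 / h) ^ (3/7 : ℝ)) < dist (p.1 s) (p.1 t))

/-- From the zero-one law to the deterministic constant. -/
theorem locMod_of {ν : Measure X} [IsProbabilityMeasure ν] (hpos : ∀ᵐ p ∂ν, 0 < p.2) {L : ℝ}
    (h1 : ∀ K : ℝ, L < K → ν (AK K) = 1) (h0 : ∀ K : ℝ, K < L → ν (AK K) = 0) :
    LocMod L ν := by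
  have hm : ∀ K, MeasurableSet (AK K) := by
    intro K
    obtain ⟨B, hB, hBA⟩ := AK_germ K (ε := 1) one_pos
    rw [← hBA]
    exact (firstX_meas 1) hB
  refine ⟨fun K hK => ?_, fun K hK => ?_⟩
  · have h : ∀ᵐ p ∂ν, p ∈ AK K := by
      rw [ae_iff]
      exact (prob_compl_eq_zero_iff (hm K)).2 (h1 K hK)
    filter_upwards [h, hpos] with p hp hp2
    obtain ⟨θ, hθ, -, H⟩ := (mem_AK hp2).1 hp
    exact ⟨θ, hθ, H⟩
  · have h : ∀ᵐ p ∂ν, p ∉ AK K := by
      rw [ae_iff]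
      simp only [not_not]
      exact h0 K hK
    filter_upwards [h, hpos] with p hp hp2 θ hθ
    by_contra hcon
    push Not at hcon
    apply hp
    rw [mem_AK hp2]
    refine ⟨min θ 1, by positivity, min_le_right _ _, fun h h0 hh s t hst htθ hd => ?_⟩
    exact hcon h h0 (hh.trans_le (min_le_left _ _)) s t hst (htθ.trans (min_le_left _ _)) hd

end Pool.Agent.Q289.SI
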