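import Pool.Agent.Q289.SI.RetD
import Pool.Agent.Q289.SI.Disc

/-!
The limits do not come back: near the end point.
-/

set_option autoImplicit false

namespace Pool.Agent.Q289.SI

open H974 H342P H984P H984N MeasureTheory Filter Topology

theorem norm_stop {δ : ℝ} (hδ : 0 ≤ δ) : ‖pos δ Dm.stop‖ ≤ δ := by
  refine (Complex.norm_le_abs_re_add_abs_im _).trans ?_
  simp only [pos, Dm.stop]
  rw [abs_of_nonneg (by push_cast; positivity), abs_of_nonneg (by push_cast; linarith)]
  push_cast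
  linarith

theorem norm_pos_le {δ : ℝ} (hδ : 0 ≤ δ) (σ : St) :
    ‖pos δ σ‖ ≤ δ * (2 * ((sd σ.1 (0, 0) : ℤ) : ℝ) + 2) := by
  have h1 := dist_pos_le hδ σ Dm.stop
  have h2 := norm_stop hδ
  have h3 : ‖pos δ σ‖ ≤ dist (pos δ σ) (pos δ Dm.stop) + ‖pos δ Dm.stop‖ := by
    rw [dist_eq_norm]
    have := norm_add_le (pos δ σ - pos δ Dm.stop) (pos δ Dm.stop)
    rwa [sub_add_cancel] at this
  have h4 : (Dm.stop).1 = (0, 0) := rfl
  rw [h4] at h1
  linarith

theorem le_norm_pos {δ : ℝ} (hδ : 0 ≤ δ) (σ : St) :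
    δ * (((sd σ.1 (0, 0) : ℤ) : ℝ) - 3/2) ≤ ‖pos δ σ‖ := by
  have h1 := le_dist_pos hδ σ Dm.stop
  have h2 := norm_stop hδ
  have h3 : dist (pos δ σ) (pos δ Dm.stop) ≤ ‖pos δ σ‖ + ‖pos δ Dm.stop‖ := by
    rw [dist_eq_norm]
    exact norm_sub_le _ _
  have h4 : (Dm.stop).1 = (0, 0) := rfl
  rw [h4] at h1
  linarith

/-- Two ordered times of the curve and the corresponding states. -/
theorem curve_two {D : Dm} {F : Finset Edg} {δ : ℝ} (hδ : 0 ≤ δ) (hN : 0 < D.len F)
    {s t : unitInterval} (hst : s ≤ t) : ∃ k l : ℕ, k ≤ l ∧ l ≤ D.len F ∧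
      dist (pl (D.len F) (fun k => pos δ (D.walk F k)) s) (pos δ (D.walk F k)) ≤ δ / 2 ∧
      dist (pl (D.len F) (fun k => pos δ (D.walk F k)) t) (pos δ (D.walk F l)) ≤ δ / 2 := by
  have seg : ∀ s : unitInterval, ∀ k < D.len F, (k : ℝ) ≤ s * D.len F →
      (s : ℝ) * D.len F ≤ k + 1 →
      dist (pl (D.len F) (fun k => pos δ (D.walk F k)) s) (pos δ (D.walk F k)) ≤ δ / 2 := by
    intro s k hk h1 h2
    rw [pl_seg hk h1 h2, dist_eq_norm, add_sub_cancel_left, norm_mul, Complex.norm_real,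
      Real.norm_eq_abs, abs_of_nonneg (by linarith)]
    have h3 := pos_nxt hδ (D.cfg F) (D.walk F k)
    rw [← walk_succ, dist_comm, dist_eq_norm] at h3
    have h4 := norm_nonneg (pos δ (D.walk F (k + 1)) - pos δ (D.walk F k))
    nlinarith
  obtain ⟨k, hk, hk1, hk2⟩ := pl_exists_seg hN s
  obtain ⟨l, hl, hl1, hl2⟩ := pl_exists_seg hN t
  rcases eq_or_lt_of_le hst with h | h
  · subst h
    exact ⟨k, k, le_rfl, hk.le, seg s k hk hk1 hk2, seg s k hk hk1 hk2⟩
  · refine ⟨k, l, ?_, hl.le, seg s k hk hk1 hk2, seg t l hl hl1 hl2⟩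
    have hNr : (0 : ℝ) < D.len F := by exact_mod_cast hN
    have h1 : (s : ℝ) * D.len F < t * D.len F := mul_lt_mul_of_pos_right h hNr
    have h2 : (k : ℝ) < l + 1 := by linarith
    have h3 : k < l + 1 := by exact_mod_cast h2
    omega

theorem ret_closed (z : ℂ) (R0 η : ℝ) :
    IsClosed {p : X | ∀ s t : unitInterval, s ≤ t → η ≤ dist (p.1 s) z ∨ dist (p.1 t) z ≤ R0} := by
  simp only [Set.ofPred_forall]
  refine isClosed_iInter fun s => isClosed_iInter fun t => isClosed_iInter fun _ => ?_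
  have e1 : Continuous (fun p : X => dist (p.1 s) z) := by fun_prop
  have e2 : Continuous (fun p : X => dist (p.1 t) z) := by fun_prop
  exact (isClosed_le continuous_const e1).union (isClosed_le e2 continuous_const)

theorem ret_closed' (z : ℂ) (R0 η : ℝ) :
    IsClosed {p : X | ∀ s t : unitInterval, s ≤ t → dist (p.1 s) z ≤ R0 ∨ η ≤ dist (p.1 t) z} := by
  simp only [Set.ofPred_forall]
  refine isClosed_iInter fun s => isClosed_iInter fun t => isClosed_iInter fun _ => ?_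
  have e1 : Continuous (fun p : X => dist (p.1 s) z) := by fun_prop
  have e2 : Continuous (fun p : X => dist (p.1 t) z) := by fun_prop
  exact (isClosed_le e1 continuous_const).union (isClosed_le continuous_const e2)

/-- From bounds at all scales to the almost sure statement. -/
theorem ae_of_scales {μ : Measure X} {A a C Rm : ℝ} (hA : 0 ≤ A) (ha : 0 < a) (hC : 0 ≤ C)
    (hRm : 0 < Rm)
    {G : ℝ → ℝ → Set X}
    (h : ∀ R0 η : ℝ, 0 < R0 → R0 ≤ Rm → 0 < η → η < R0 → μ (G R0 η) ≤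
      ENNReal.ofReal (A * (C * η / R0) ^ a)) :
    ∀ᵐ p ∂μ, ∀ R0 : ℝ, 0 < R0 → (∀ R1 η : ℝ, 0 < R1 → R1 ≤ R0 → 0 < η → p ∈ G R1 η) → False := by
  have hz : ∀ m : ℕ, ∀ᵐ p ∂μ, ¬ ∀ η : ℝ, 0 < η → p ∈ G (Rm / ((m : ℝ) + 1)) η := by
    intro m
    rw [ae_iff]
    simp only [not_not]
    obtain ⟨R1, hR1⟩ : ∃ R1 : ℝ, R1 = Rm / ((m : ℝ) + 1) := ⟨_, rfl⟩
    rw [← hR1]
    have hR0 : 0 < R1 := by rw [hR1]; positivity
    have hRle : R1 ≤ Rm := by
      rw [hR1]
      apply div_le_self hRm.le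
      have : (0 : ℝ) ≤ m := Nat.cast_nonneg m
      linarith
    refine le_antisymm ?_ bot_le
    have hlim : Tendsto (fun j : ℕ => ENNReal.ofReal (A * (C * (R1 / ((j : ℝ) + 2)) / R1) ^ a))
        atTop (𝓝 0) := by
      rw [← ENNReal.ofReal_zero]
      apply (ENNReal.continuous_ofReal.tendsto 0).comp
      have h1 : Tendsto (fun j : ℕ => C * (R1 / ((j : ℝ) + 2)) / R1) atTop (𝓝 0) := by
        have h2 : Tendsto (fun j : ℕ => C * (1 / ((j : ℝ) + 2))) atTop (𝓝 (C * 0)) := by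
          apply Tendsto.const_mul
          have h3 : Tendsto (fun j : ℕ => ((j : ℝ) + 2)) atTop atTop :=
            tendsto_atTop_add_const_right _ _ tendsto_natCast_atTop_atTop
          have h5 := h3.inv_tendsto_atTop
          refine h5.congr fun j => ?_
          simp
        rw [mul_zero] at h2
        refine h2.congr fun j => ?_
        field_simp
      have h4 := (h1.rpow_const (p := a) (Or.inr ha.le)).const_mul A
      rw [Real.zero_rpow ha.ne', mul_zero] at h4
      exact h4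
    refine ge_of_tendsto' hlim fun j => ?_
    refine (measure_mono ?_).trans (h R1 (R1 / ((j : ℝ) + 2)) hR0 hRle (by positivity) ?_)
    · intro p hp
      exact hp _ (by positivity)
    · rw [div_lt_iff₀ (by positivity)]
      have : (0 : ℝ) ≤ j := Nat.cast_nonneg j
      nlinarith
  filter_upwards [ae_all_iff.2 hz] with p hp R0 hR0 hall
  obtain ⟨m, hm⟩ := exists_nat_one_div_lt (show 0 < R0 / Rm by positivity)
  refine hp m fun η hη => hall _ η (by positivity) ?_ hη
  rw [lt_div_iff₀ hRm] at hm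
  have e : Rm / ((m : ℝ) + 1) = 1 / ((m : ℝ) + 1) * Rm := by ring
  rw [e]
  exact hm.le

/-- Sizes of the lattice rectangle. -/
theorem dm_size (R : Rect) {δ : ℝ} (hδ : 0 < δ) : R.A / δ - 1 ≤ ((-(R.dm δ).l : ℤ) : ℝ) ∧
    R.H / δ - 2 ≤ (((R.dm δ).h : ℤ) : ℝ) := by
  constructor
  · simp only [Rect.dm]
    push_cast
    have := Int.floor_le (-(R.A / δ))
    linarith
  · simp only [Rect.dm]
    push_cast
    have := Int.le_ceil (R.H / δ)
    linarith

section

variable (R : Rect) {δ : ℕ → ℝ} (hδ : ∀ i, 0 < δ i) (hlim : Tendsto δ atTop (𝓝 0))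
  {μ : ProbabilityMeasure X} (hμ : Tendsto (fun i => R.law (δ i)) atTop (𝓝 μ))

include hδ hlim hμ

theorem noret_end : ∀ᵐ p ∂(μ : Measure X), ∀ s t : unitInterval, s ≤ t → p.1 s = 0 →
    p.1 t = 0 := by
  obtain ⟨a, A, ha, hA1, hret⟩ := retD
  have hA : 0 < A := by linarith
  obtain ⟨κ, S, δ1, -, -, hδ1, -, hshape⟩ := R.shape
  have hRA := R.hA
  have hRH := R.hH
  have key : ∀ R0 η : ℝ, 0 < R0 → R0 ≤ min R.A R.H → 0 < η → η < R0 → (μ : Measure X)
      {p : X | ∀ s t : unitInterval, s ≤ t → η ≤ dist (p.1 s) 0 ∨ dist (p.1 t) 0 ≤ R0}ᶜ ≤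
      ENNReal.ofReal (A * (16 * η / R0) ^ a) := by
    intro R0 η hR0 hRm hη hηR
    have hRA' : R0 ≤ R.A := hRm.trans (min_le_left _ _)
    have hRH' : R0 ≤ R.H := hRm.trans (min_le_right _ _)
    refine limit_closed R hδ hlim hμ (ret_closed 0 R0 η) (δ0 := min δ1 (min (η / 16) (R0 / 16)))
      (by positivity) (lt_min hδ1 (lt_min (by linarith) (by linarith))) ?_
    intro d hd hdle
    have hd1 : d ≤ δ1 := hdle.trans (min_le_left _ _)
    have hd2 : d ≤ η / 16 := hdle.trans ((min_le_right _ _).trans (min_le_left _ _))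
    have hd3 : d ≤ R0 / 16 := hdle.trans ((min_le_right _ _).trans (min_le_right _ _))
    have hD := (hshape d hd hd1).ok
    have e1 : 16 ≤ η / d := by rw [le_div_iff₀ hd]; linarith
    have e2 : 16 ≤ R0 / d := by rw [le_div_iff₀ hd]; linarith
    obtain ⟨R', hR'⟩ : ∃ R' : ℤ, R' = ⌊R0 / d / 4⌋ := ⟨_, rfl⟩
    obtain ⟨r', hr'⟩ : ∃ r' : ℤ, r' = ⌈η / d + 2⌉ := ⟨_, rfl⟩
    have f1 : (R' : ℝ) ≤ R0 / d / 4 := by rw [hR']; exact Int.floor_le _
    have f2 : η / d + 2 ≤ r' := by rw [hr']; exact Int.le_ceil _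
    have f3 : R0 / d / 4 < R' + 1 := by rw [hR']; exact Int.lt_floor_add_one _
    have f4 : (r' : ℝ) < η / d + 2 + 1 := by rw [hr']; exact Int.ceil_lt_add_one _
    have g1 : R0 / d / 8 ≤ (R' : ℝ) := by linarith
    have g2 : (r' : ℝ) ≤ 2 * (η / d) := by linarith
    have g3 : (1 : ℤ) ≤ r' := by
      have : (1 : ℝ) ≤ r' := by linarith
      exact_mod_cast this
    have hprob : R.prob d (fun F => (R.curve d F, R.time d F) ∉
        {p : X | ∀ s t : unitInterval, s ≤ t → η ≤ dist (p.1 s) 0 ∨ dist (p.1 t) 0 ≤ R0}) ≤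
        P (R.dm d).edges (fun F => ∃ k l : ℕ, k ≤ l ∧ l ≤ (R.dm d).len F ∧
          sd ((R.dm d).walk F k).1 (0, 0) ≤ r' ∧ R' ≤ sd ((R.dm d).walk F l).1 (0, 0)) := by
      unfold Rect.prob
      refine Pr_mono (fun _ => ⟨by norm_num, by norm_num⟩) fun F hF hF2 => ?_
      simp only [Set.mem_ofPred_eq, not_forall, not_or, not_le, dist_zero_right] at hF2
      obtain ⟨s, t, hst, hs, ht⟩ := hF2
      obtain ⟨k, l, hkl, hl, h1, h2⟩ := curve_two hd.le (len_pos hD hF) hst
      refine ⟨k, l, hkl, hl, ?_, ?_⟩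
      · have h3 : ‖pos d ((R.dm d).walk F k)‖ ≤ ‖R.curve d F s‖ + d / 2 := by
          rw [dist_comm, dist_eq_norm] at h1
          have := norm_add_le (pos d ((R.dm d).walk F k) - R.curve d F s) (R.curve d F s)
          rw [sub_add_cancel] at this
          unfold Rect.curve at this ⊢
          linarith
        have h4 := le_norm_pos hd.le ((R.dm d).walk F k)
        have h5 : d * (((sd ((R.dm d).walk F k).1 (0, 0) : ℤ) : ℝ) - 3/2) < η + d / 2 := by linarith
        have h6 : ((sd ((R.dm d).walk F k).1 (0, 0) : ℤ) : ℝ) - 3/2 < (η + d / 2) / d := by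
          rw [lt_div_iff₀ hd]; linarith
        have h7 : (η + d / 2) / d = η / d + 1/2 := by field_simp
        rw [h7] at h6
        have h8 : ((sd ((R.dm d).walk F k).1 (0, 0) : ℤ) : ℝ) ≤ r' := by linarith
        exact_mod_cast h8
      · have h3 : ‖R.curve d F t‖ ≤ ‖pos d ((R.dm d).walk F l)‖ + d / 2 := by
          rw [dist_eq_norm] at h2
          have := norm_add_le (R.curve d F t - pos d ((R.dm d).walk F l)) (pos d ((R.dm d).walk F l))
          rw [sub_add_cancel] at this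
          unfold Rect.curve at this ⊢
          linarith
        have h4 := norm_pos_le hd.le ((R.dm d).walk F l)
        have h5 : R0 / d < 2 * ((sd ((R.dm d).walk F l).1 (0, 0) : ℤ) : ℝ) + 2 + 1/2 := by
          rw [div_lt_iff₀ hd]
          have := ht.trans_le (h3.trans (add_le_add_left h4 _))
          nlinarith
        have h8 : (R' : ℝ) ≤ ((sd ((R.dm d).walk F l).1 (0, 0) : ℤ) : ℝ) := by linarith
        exact_mod_cast h8
    refine hprob.trans ?_
    obtain ⟨s1, s2⟩ := dm_size R hd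
    have i1 : (R' : ℝ) ≤ ((-(R.dm d).l : ℤ) : ℝ) := by
      have : R0 / d ≤ R.A / d := by gcongr
      linarith
    have i2 : (R' : ℝ) ≤ (((R.dm d).h : ℤ) : ℝ) := by
      have : R0 / d ≤ R.H / d := by gcongr
      linarith
    rcases le_or_gt r' R' with hle | hlt
    · refine (hret (R.dm d) hD r' R' g3 hle (by exact_mod_cast i1) (by exact_mod_cast i2)).trans ?_
      apply mul_le_mul_of_nonneg_left _ hA.le
      have hr0 : (0 : ℝ) ≤ r' := by linarith
      have hR'0 : (0 : ℝ) < R' := by linarith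
      apply Real.rpow_le_rpow (by positivity) _ ha.le
      rw [div_le_div_iff₀ hR'0 hR0]
      have k1 : (r' : ℝ) * R0 ≤ 2 * (η / d) * R0 := mul_le_mul_of_nonneg_right g2 hR0.le
      have k2 : 16 * η * (R0 / d / 8) ≤ 16 * η * R' := mul_le_mul_of_nonneg_left g1 (by linarith)
      have k3 : 16 * η * (R0 / d / 8) = 2 * (η / d) * R0 := by ring
      linarith
    · -- trivial case: `16 η / R0 ≥ 1`
      have hR'0 : (0 : ℝ) < R' := by linarith
      have k0 : (R' : ℝ) ≤ r' := by exact_mod_cast hlt.le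
      have k4 : 1 ≤ 16 * η / R0 := by
        rw [le_div_iff₀ hR0, one_mul]
        have k5 : R0 / d / 8 ≤ 2 * (η / d) := g1.trans (k0.trans g2)
        have k6 : R0 / d / 8 = R0 / 8 / d := by ring
        have k7 : 2 * (η / d) = 2 * η / d := by ring
        rw [k6, k7, div_le_div_iff_of_pos_right hd] at k5
        linarith
      have k5 : 1 ≤ (16 * η / R0) ^ a := Real.one_le_rpow k4 ha.le
      have hok : Ok (fun _ : Edg => (1/2:ℝ)) := fun _ => ⟨by norm_num, by norm_num⟩
      refine (Pr_le_one hok _ _).trans ?_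
      nlinarith
  have h := ae_of_scales (μ := (μ : Measure X)) (G := fun R0 η => {p : X | ∀ s t : unitInterval,
    s ≤ t → η ≤ dist (p.1 s) 0 ∨ dist (p.1 t) 0 ≤ R0}ᶜ) hA.le ha (by norm_num : (0:ℝ) ≤ 16)
    (lt_min hRA hRH) key
  filter_upwards [h] with p hp s t hst hs
  by_contra hne
  refine hp (dist (p.1 t) 0 / 2) (by have := dist_pos.2 hne; positivity) ?_
  intro R1 η hR1 hR1' hη hmem
  have h0 : 0 < dist (p.1 t) 0 := dist_pos.2 hne
  rcases hmem s t hst with h1 | h1
  · rw [hs, dist_self] at h1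
    linarith
  · linarith

end

end Pool.Agent.Q289.SI
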