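import Pool.Agent.Q289.SI.RetD
import Pool.Agent.Q289.SI.Disc

/-!
Reflection of the lattice rectangle: the path near its starting point.
-/

set_option autoImplicit false

namespace Pool.Agent.Q289.SI

open H974 Finset H342P H984P H984N MeasureTheory

/-- The reflected rectangle. -/
def rfD (D : Dm) : Dm := ⟨D.l - D.t, D.r - D.t, D.h, -D.t⟩

/-- Reflection of vertices. -/
def rfV (D : Dm) (v : Vtx) : Vtx := (v.1 - D.t, D.h - v.2)

/-- Reflection of corners. -/
def rfQ : Q4 → Q4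
  | .ne => .se
  | .se => .ne
  | .nw => .sw
  | .sw => .nw

/-- Reflection of states. -/
def rfS (D : Dm) (σ : St) : St := (rfV D σ.1, rfQ σ.2)

/-- Reflection of edges. -/
def rfE (D : Dm) : Edg ≃ Edg where
  toFun e := if e.2.2 then (e.1 - D.t, D.h - e.2.1, true) else (e.1 - D.t, D.h - e.2.1 - 1, false)
  invFun e := if e.2.2 then (e.1 + D.t, D.h - e.2.1, true) else (e.1 + D.t, D.h - e.2.1 - 1, false)
  left_inv e := by
    obtain ⟨x, y, _ | _⟩ := e
    · simp only [Bool.false_eq_true, if_false, Prod.mk.injEq, and_true]; omega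
    · simp only [if_true, Prod.mk.injEq, and_true]; omega
  right_inv e := by
    obtain ⟨x, y, _ | _⟩ := e
    · simp only [Bool.false_eq_true, if_false, Prod.mk.injEq, and_true]; omega
    · simp only [if_true, Prod.mk.injEq, and_true]; omega

@[simp] theorem rfE_true (D : Dm) (x y : ℤ) : rfE D (x, y, true) = (x - D.t, D.h - y, true) := rfl
@[simp] theorem rfE_false (D : Dm) (x y : ℤ) :
    rfE D (x, y, false) = (x - D.t, D.h - y - 1, false) := rfl

theorem rfS_inj (D : Dm) : Function.Injective (rfS D) := by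
  rintro ⟨⟨x, y⟩, q⟩ ⟨⟨x', y'⟩, q'⟩ h
  simp only [rfS, rfV, Prod.mk.injEq] at h
  obtain ⟨⟨h1, h2⟩, h3⟩ := h
  have : q = q' := by cases q <;> cases q' <;> simp [rfQ] at h3 ⊢
  rw [this, show x = x' by omega, show y = y' by omega]

theorem be_rfS (D : Dm) (σ : St) : be (rfS D σ) = rfE D (ae σ) := by
  obtain ⟨⟨x, y⟩, q⟩ := σ
  cases q
  · rfl
  · rfl
  · show ((x - D.t - 1, D.h - y, true) : Edg) = (x - 1 - D.t, D.h - y, true)
    rw [sub_right_comm]
  · show ((x - D.t, D.h - y, false) : Edg) = (x - D.t, D.h - (y - 1) - 1, false)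
    rw [show D.h - (y - 1) - 1 = D.h - y by omega]

theorem rfS_nxt (D : Dm) (G : Set Edg) (σ : St) :
    rfS D (nxt G σ) = H984H.step (rfE D '' G) (rfS D σ) := by
  classical
  have hmem : be (rfS D σ) ∈ rfE D '' G ↔ ae σ ∈ G := by
    rw [be_rfS]
    exact (rfE D).injective.mem_set_image
  obtain ⟨⟨x, y⟩, q⟩ := σ
  by_cases h : ae ((x, y), q) ∈ G
  · rw [nxt_open h]
    have h2 := hmem.2 h
    unfold H984H.step
    cases q
    · have h3 : (((rfS D ((x, y), Q4.ne)).1.1, (rfS D ((x, y), Q4.ne)).1.2, true) : Edg) ∈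
        rfE D '' G := h2
      show _ = ite _ _ _
      rw [if_pos h3]
      show ((((x + 1) - D.t, D.h - y), Q4.sw) : St) = (((x - D.t) + 1, D.h - y), Q4.sw)
      rw [add_sub_right_comm]
    · have h3 : (((rfS D ((x, y), Q4.nw)).1.1, (rfS D ((x, y), Q4.nw)).1.2 - 1, false) : Edg) ∈
        rfE D '' G := h2
      show _ = ite _ _ _
      rw [if_pos h3]
      show (((x - D.t, D.h - (y + 1)), Q4.nw) : St) = ((x - D.t, D.h - y - 1), Q4.nw)
      rw [sub_sub]
    · have h3 : (((rfS D ((x, y), Q4.sw)).1.1 - 1, (rfS D ((x, y), Q4.sw)).1.2, true) : Edg) ∈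
        rfE D '' G := h2
      show _ = ite _ _ _
      rw [if_pos h3]
      show (((x - 1 - D.t, D.h - y), Q4.ne) : St) = ((x - D.t - 1, D.h - y), Q4.ne)
      rw [sub_right_comm]
    · have h3 : (((rfS D ((x, y), Q4.se)).1.1, (rfS D ((x, y), Q4.se)).1.2, false) : Edg) ∈
        rfE D '' G := h2
      show _ = ite _ _ _
      rw [if_pos h3]
      show (((x - D.t, D.h - (y - 1)), Q4.se) : St) = ((x - D.t, D.h - y + 1), Q4.se)
      rw [show D.h - (y - 1) = D.h - y + 1 by omega]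
  · rw [nxt_closed h]
    have h2 : be (rfS D ((x, y), q)) ∉ rfE D '' G := fun k => h (hmem.1 k)
    unfold H984H.step
    cases q
    · have h3 : (((rfS D ((x, y), Q4.ne)).1.1, (rfS D ((x, y), Q4.ne)).1.2, true) : Edg) ∉
        rfE D '' G := h2
      show _ = ite _ _ _
      rw [if_neg h3]
      rfl
    · have h3 : (((rfS D ((x, y), Q4.nw)).1.1, (rfS D ((x, y), Q4.nw)).1.2 - 1, false) : Edg) ∉
        rfE D '' G := h2
      show _ = ite _ _ _
      rw [if_neg h3]
      rfl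
    · have h3 : (((rfS D ((x, y), Q4.sw)).1.1 - 1, (rfS D ((x, y), Q4.sw)).1.2, true) : Edg) ∉
        rfE D '' G := h2
      show _ = ite _ _ _
      rw [if_neg h3]
      rfl
    · have h3 : (((rfS D ((x, y), Q4.se)).1.1, (rfS D ((x, y), Q4.se)).1.2, false) : Edg) ∉
        rfE D '' G := h2
      show _ = ite _ _ _
      rw [if_neg h3]
      rfl

/-- Reflection of configurations. -/
def rfF (D : Dm) (F : Finset Edg) : Finset Edg := F.map (rfE D).toEmbedding

theorem rfD_edges (D : Dm) : (rfD D).edges = rfF D D.edges := by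
  ext e
  unfold rfF
  rw [Finset.mem_map_equiv]
  obtain ⟨x, y, _ | _⟩ := e
  · show (x, y, false) ∈ RE (D.l - D.t) (D.r - D.t) 0 D.h ↔
      (x + D.t, D.h - y - 1, false) ∈ RE D.l D.r 0 D.h
    rw [mem_RE_false, mem_RE_false]
    omega
  · show (x, y, true) ∈ RE (D.l - D.t) (D.r - D.t) 0 D.h ↔
      (x + D.t, D.h - y, true) ∈ RE D.l D.r 0 D.h
    rw [mem_RE_true, mem_RE_true]
    omega

theorem rfD_cfg (D : Dm) (F : Finset Edg) : (rfD D).cfg (rfF D F) = rfE D '' (D.cfg F) := by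
  unfold Dm.cfg rfF
  rw [Set.image_union, Finset.coe_map]
  congr 1
  ext e
  rw [(rfE D).image_eq_preimage_symm, Set.mem_preimage]
  obtain ⟨x, y, _ | _⟩ := e
  · show (x, y, false) ∈ (rfD D).wir ↔ (x + D.t, D.h - y - 1, false) ∈ D.wir
    unfold Dm.wir rfD
    simp only [Set.mem_ofPred_eq, Bool.false_eq_true, false_and, true_and, false_or, or_false]
    omega
  · show (x, y, true) ∈ (rfD D).wir ↔ (x + D.t, D.h - y, true) ∈ D.wir
    unfold Dm.wir rfD
    simp only [Set.mem_ofPred_eq, Bool.true_eq_false, false_and, true_and, false_or]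
    omega

theorem rfF_sub {D : Dm} {F : Finset Edg} (h : F ⊆ D.edges) : rfF D F ⊆ (rfD D).edges := by
  rw [rfD_edges]
  exact Finset.map_subset_map.2 h

theorem rfD_ok {D : Dm} (hD : D.Ok) (h1 : D.l < D.t) (h2 : D.t < D.r) : (rfD D).Ok := by
  have h3 := hD.h_pos
  have h4 := hD.l_neg
  have h5 := hD.r_pos
  constructor <;> simp only [rfD] <;> omega

theorem rf_aux {D : Dm} (hD : D.Ok) (hD' : (rfD D).Ok) {F : Finset Edg} (hF : F ⊆ D.edges) {k : ℕ}
    (hk : k ≤ (rfD D).len (rfF D F)) :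
    rfS D (D.walk F k) = (rfD D).walk (rfF D F) ((rfD D).len (rfF D F) - k) := by
  induction k with
  | zero =>
    rw [Nat.sub_zero, walk_len hD' (rfF_sub hF), walk_zero]
    simp [rfS, rfV, rfQ, Dm.start, Dm.stop]
  | succ k ih =>
    obtain ⟨m, hm⟩ : ∃ m, (rfD D).len (rfF D F) - k = m + 1 :=
      ⟨(rfD D).len (rfF D F) - k - 1, by omega⟩
    have e : (rfD D).len (rfF D F) - (k + 1) = m := by omega
    have h1 := ih (by omega)
    rw [walk_succ, rfS_nxt, h1, ← rfD_cfg, hm, walk_succ, H984H.step_nxt, e]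

theorem rf_len {D : Dm} (hD : D.Ok) (hD' : (rfD D).Ok) {F : Finset Edg} (hF : F ⊆ D.edges) :
    (rfD D).len (rfF D F) = D.len F := by
  have hstop : rfS D Dm.stop = (rfD D).start := by
    simp [rfS, rfV, rfQ, Dm.start, Dm.stop, rfD]
  rcases lt_trichotomy ((rfD D).len (rfF D F)) (D.len F) with h | h | h
  · have h1 := rf_aux hD hD' hF (k := (rfD D).len (rfF D F)) le_rfl
    rw [Nat.sub_self, walk_zero, ← hstop] at h1
    exact absurd (rfS_inj D h1) (clu_ne_stop h)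
  · exact h
  · have h1 := rf_aux hD hD' hF (k := D.len F) h.le
    rw [walk_len hD hF, hstop] at h1
    exact absurd h1 (walk_inj hD' (rfF_sub hF) (i := 0) (by omega) (by omega))

theorem rf_walk {D : Dm} (hD : D.Ok) (hD' : (rfD D).Ok) {F : Finset Edg} (hF : F ⊆ D.edges) {k : ℕ}
    (hk : k ≤ D.len F) :
    rfS D (D.walk F k) = (rfD D).walk (rfF D F) (D.len F - k) := by
  rw [rf_aux hD hD' hF (by rw [rf_len hD hD' hF]; exact hk), rf_len hD hD' hF]

theorem rf_Ex (D : Dm) (f : Finset Edg → ℝ) :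
    E (rfD D).edges f = E D.edges (fun F => f (rfF D F)) := by
  unfold E rfF
  rw [rfD_edges]
  unfold rfF
  rw [Ex_map]

theorem rf_sd (D : Dm) (v : Vtx) : sd (rfV D v) (0, 0) = sd v (D.t, D.h) := by
  unfold sd rfV
  simp only [sub_zero]
  rw [abs_sub_comm D.h v.2]

/-- After the beginning the path comes back to its starting point with small probability. -/
theorem retD' : ∃ a A : ℝ, 0 < a ∧ 1 ≤ A ∧ ∀ (D : Dm), D.Ok → D.l < D.t → D.t < D.r →
    ∀ r R : ℤ, 1 ≤ r → r ≤ R → R ≤ D.t - D.l → R ≤ D.h →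
    P D.edges (fun F => ∃ k l : ℕ, k ≤ l ∧ l ≤ D.len F ∧
      R ≤ sd (D.walk F k).1 (D.t, D.h) ∧ sd (D.walk F l).1 (D.t, D.h) ≤ r) ≤
      A * ((r : ℝ) / R) ^ a := by
  obtain ⟨a, A, ha, hA, h⟩ := retD
  refine ⟨a, A, ha, hA, ?_⟩
  intro D hD h1 h2 r R hr hrR hR1 hR2
  have hD' := rfD_ok hD h1 h2
  have h3 := h (rfD D) hD' r R hr hrR (by simp only [rfD]; omega) (by simp only [rfD]; exact hR2)
  refine le_trans ?_ h3
  have hok : Ok (fun _ : Edg => (1/2:ℝ)) := fun _ => ⟨by norm_num, by norm_num⟩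
  have e : P (rfD D).edges (fun F => ∃ k l : ℕ, k ≤ l ∧ l ≤ (rfD D).len F ∧
      sd ((rfD D).walk F k).1 (0, 0) ≤ r ∧ R ≤ sd ((rfD D).walk F l).1 (0, 0)) =
      P D.edges (fun F => ∃ k l : ℕ, k ≤ l ∧ l ≤ (rfD D).len (rfF D F) ∧
      sd ((rfD D).walk (rfF D F) k).1 (0, 0) ≤ r ∧
      R ≤ sd ((rfD D).walk (rfF D F) l).1 (0, 0)) :=
    rf_Ex D (fun F => ind (∃ k l : ℕ, k ≤ l ∧ l ≤ (rfD D).len F ∧
      sd ((rfD D).walk F k).1 (0, 0) ≤ r ∧ R ≤ sd ((rfD D).walk F l).1 (0, 0)))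
  rw [e]
  refine Pr_mono hok fun F hF => ?_
  rintro ⟨k, l, hkl, hl, g1, g2⟩
  refine ⟨D.len F - l, D.len F - k, by omega, ?_, ?_, ?_⟩
  · rw [rf_len hD hD' hF]; omega
  · rw [← rf_walk hD hD' hF hl]
    show sd (rfV D _) (0, 0) ≤ r
    rw [rf_sd]
    exact g2
  · rw [← rf_walk hD hD' hF (hkl.trans hl)]
    show R ≤ sd (rfV D _) (0, 0)
    rw [rf_sd]
    exact g1

end Pool.Agent.Q289.SI
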