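import Pool.Agent.Q289.SI.NoRet
import Pool.Agent.Q289.SI.Refl

/-!
The limits do not come back to the starting point.
-/

set_option autoImplicit false

namespace Pool.Agent.Q289.SI

open H974 H342P H984P H984N MeasureTheory Filter Topology

/-- Sizes of the lattice rectangle. -/
theorem dm_size' (R : Rect) {δ : ℝ} (hδ : 0 < δ) :
    (R.t + R.A) / δ - 2 ≤ (((R.dm δ).t - (R.dm δ).l : ℤ) : ℝ) ∧
    (R.B - R.t) / δ - 1 ≤ (((R.dm δ).r - (R.dm δ).t : ℤ) : ℝ) := by
  constructor
  · simp only [Rect.dm]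
    push_cast
    have h1 := Int.floor_le (-(R.A / δ))
    have h2 := Int.lt_floor_add_one (R.t / δ)
    rw [add_div]
    linarith
  · simp only [Rect.dm]
    push_cast
    have h1 := Int.le_ceil (R.B / δ)
    have h2 := Int.floor_le (R.t / δ)
    rw [sub_div]
    linarith

section

variable (R : Rect) {δ : ℕ → ℝ} (hδ : ∀ i, 0 < δ i) (hlim : Tendsto δ atTop (𝓝 0))
  {μ : ProbabilityMeasure X} (hμ : Tendsto (fun i => R.law (δ i)) atTop (𝓝 μ))

include hδ hlim hμ

theorem noret_start : ∀ᵐ p ∂(μ : Measure X), ∀ s t : unitInterval, s ≤ t → p.1 t = R.a →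
    p.1 s = R.a := by
  obtain ⟨a, A, ha, hA1, hret⟩ := retD'
  have hA : 0 < A := by linarith
  obtain ⟨κ, S, δ1, -, -, hδ1, -, hshape⟩ := R.shape
  have hRA : 0 < R.t + R.A := by linarith [R.ht1]
  have hRB : 0 < R.B - R.t := by linarith [R.ht2]
  have hRH := R.hH
  have key : ∀ R0 η : ℝ, 0 < R0 → R0 ≤ min (R.t + R.A) R.H → 0 < η → η < R0 → (μ : Measure X)
      {p : X | ∀ s t : unitInterval, s ≤ t → dist (p.1 s) R.a ≤ R0 ∨ η ≤ dist (p.1 t) R.a}ᶜ ≤
      ENNReal.ofReal (A * (16 * η / R0) ^ a) := by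
    intro R0 η hR0 hRm hη hηR
    have hRA' : R0 ≤ R.t + R.A := hRm.trans (min_le_left _ _)
    have hRH' : R0 ≤ R.H := hRm.trans (min_le_right _ _)
    refine limit_closed R hδ hlim hμ (ret_closed' R.a R0 η)
      (δ0 := min δ1 (min (η / 16) (min (R0 / 16) ((R.B - R.t) / 2))))
      (by positivity) (lt_min hδ1 (lt_min (by linarith) (lt_min (by linarith) (by linarith)))) ?_
    intro d hd hdle
    have hd1 : d ≤ δ1 := hdle.trans (min_le_left _ _)
    have hd2 : d ≤ η / 16 := hdle.trans ((min_le_right _ _).trans (min_le_left _ _))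
    have hd3 : d ≤ R0 / 16 := hdle.trans ((min_le_right _ _).trans ((min_le_right _ _).trans
      (min_le_left _ _)))
    have hd4 : d ≤ (R.B - R.t) / 2 := hdle.trans ((min_le_right _ _).trans
      ((min_le_right _ _).trans (min_le_right _ _)))
    have hD := (hshape d hd hd1).ok
    have e1 : 16 ≤ η / d := by rw [le_div_iff₀ hd]; linarith
    have e2 : 16 ≤ R0 / d := by rw [le_div_iff₀ hd]; linarith
    have e3 : 2 ≤ (R.B - R.t) / d := by rw [le_div_iff₀ hd]; linarith
    obtain ⟨R', hR'⟩ : ∃ R' : ℤ, R' = ⌊R0 / d / 4⌋ := ⟨_, rfl⟩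
    obtain ⟨r', hr'⟩ : ∃ r' : ℤ, r' = ⌈η / d + 5⌉ := ⟨_, rfl⟩
    have f1 : (R' : ℝ) ≤ R0 / d / 4 := by rw [hR']; exact Int.floor_le _
    have f2 : η / d + 5 ≤ r' := by rw [hr']; exact Int.le_ceil _
    have f3 : R0 / d / 4 < R' + 1 := by rw [hR']; exact Int.lt_floor_add_one _
    have f4 : (r' : ℝ) < η / d + 5 + 1 := by rw [hr']; exact Int.ceil_lt_add_one _
    have g1 : R0 / d / 8 ≤ (R' : ℝ) := by linarith
    have g2 : (r' : ℝ) ≤ 2 * (η / d) := by linarith
    have g3 : (1 : ℤ) ≤ r' := by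
      have : (1 : ℝ) ≤ r' := by linarith
      exact_mod_cast this
    obtain ⟨s1, s2⟩ := dm_size R hd
    obtain ⟨s3, s4⟩ := dm_size' R hd
    have i0 : R0 / d ≤ (R.t + R.A) / d := by gcongr
    have i1 : (R' : ℝ) ≤ (((R.dm d).t - (R.dm d).l : ℤ) : ℝ) := by linarith
    have i2 : (R' : ℝ) ≤ (((R.dm d).h : ℤ) : ℝ) := by
      have : R0 / d ≤ R.H / d := by gcongr
      linarith
    have j1 : (R.dm d).l < (R.dm d).t := by
      have : (0 : ℝ) < (((R.dm d).t - (R.dm d).l : ℤ) : ℝ) := by linarith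
      have : (0 : ℤ) < (R.dm d).t - (R.dm d).l := by exact_mod_cast this
      omega
    have j2 : (R.dm d).t < (R.dm d).r := by
      have : (0 : ℝ) < (((R.dm d).r - (R.dm d).t : ℤ) : ℝ) := by linarith
      have : (0 : ℤ) < (R.dm d).r - (R.dm d).t := by exact_mod_cast this
      omega
    have hst := R.pos_start hd
    have hst1 : (R.dm d).start.1 = ((R.dm d).t, (R.dm d).h) := rfl
    have hprob : R.prob d (fun F => (R.curve d F, R.time d F) ∉
        {p : X | ∀ s t : unitInterval, s ≤ t → dist (p.1 s) R.a ≤ R0 ∨ η ≤ dist (p.1 t) R.a}) ≤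
        P (R.dm d).edges (fun F => ∃ k l : ℕ, k ≤ l ∧ l ≤ (R.dm d).len F ∧
          R' ≤ sd ((R.dm d).walk F k).1 ((R.dm d).t, (R.dm d).h) ∧
          sd ((R.dm d).walk F l).1 ((R.dm d).t, (R.dm d).h) ≤ r') := by
      unfold Rect.prob
      refine Pr_mono (fun _ => ⟨by norm_num, by norm_num⟩) fun F hF hF2 => ?_
      simp only [Set.mem_ofPred_eq, not_forall, not_or, not_le] at hF2
      obtain ⟨s, t, hst', hs, ht⟩ := hF2
      obtain ⟨k, l, hkl, hl, h1, h2⟩ := curve_two hd.le (len_pos hD hF) hst'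
      refine ⟨k, l, hkl, hl, ?_, ?_⟩
      · have h3 := dist_triangle (R.curve d F s) (pos d ((R.dm d).walk F k)) R.a
        have h3' := dist_triangle (pos d ((R.dm d).walk F k)) (pos d (R.dm d).start) R.a
        have h4 := dist_pos_le hd.le ((R.dm d).walk F k) (R.dm d).start
        rw [hst1] at h4
        have h1' : dist (R.curve d F s) (pos d ((R.dm d).walk F k)) ≤ d / 2 := h1
        have h5 : R0 / d < 2 * ((sd ((R.dm d).walk F k).1 ((R.dm d).t, (R.dm d).h) : ℤ) : ℝ) +
            4 + 1/2 := by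
          rw [div_lt_iff₀ hd]
          have h6 : R0 < dist (R.curve d F s) R.a := hs
          nlinarith
        have h8 : (R' : ℝ) ≤ ((sd ((R.dm d).walk F k).1 ((R.dm d).t, (R.dm d).h) : ℤ) : ℝ) := by
          linarith
        exact_mod_cast h8
      · have h3 := dist_triangle (pos d ((R.dm d).walk F l)) (R.curve d F t) R.a
        have h3' := dist_triangle (pos d ((R.dm d).walk F l)) R.a (pos d (R.dm d).start)
        have h4 := le_dist_pos hd.le ((R.dm d).walk F l) (R.dm d).start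
        rw [hst1] at h4
        rw [dist_comm R.a] at h3'
        have h2' : dist (pos d ((R.dm d).walk F l)) (R.curve d F t) ≤ d / 2 := by
          rw [dist_comm]; exact h2
        have h6 : ((sd ((R.dm d).walk F l).1 ((R.dm d).t, (R.dm d).h) : ℤ) : ℝ) - 4 < η / d := by
          rw [lt_div_iff₀ hd]
          have h6 : dist (R.curve d F t) R.a < η := ht
          nlinarith
        have h8 : ((sd ((R.dm d).walk F l).1 ((R.dm d).t, (R.dm d).h) : ℤ) : ℝ) ≤ r' := by
          linarith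
        exact_mod_cast h8
    refine hprob.trans ?_
    rcases le_or_gt r' R' with hle | hlt
    · refine (hret (R.dm d) hD j1 j2 r' R' g3 hle (by exact_mod_cast i1)
        (by exact_mod_cast i2)).trans ?_
      apply mul_le_mul_of_nonneg_left _ hA.le
      have hr0 : (0 : ℝ) ≤ r' := by linarith
      have hR'0 : (0 : ℝ) < R' := by linarith
      apply Real.rpow_le_rpow (by positivity) _ ha.le
      rw [div_le_div_iff₀ hR'0 hR0]
      have k1 : (r' : ℝ) * R0 ≤ 2 * (η / d) * R0 := mul_le_mul_of_nonneg_right g2 hR0.le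
      have k2 : 16 * η * (R0 / d / 8) ≤ 16 * η * R' := mul_le_mul_of_nonneg_left g1 (by linarith)
      have k3 : 16 * η * (R0 / d / 8) = 2 * (η / d) * R0 := by ring
      linarith
    · have hR'0 : (0 : ℝ) < R' := by linarith
      have k0 : (R' : ℝ) ≤ r' := by exact_mod_cast hlt.le
      have k4 : 1 ≤ 16 * η / R0 := by
        rw [le_div_iff₀ hR0, one_mul]
        have k5 : R0 / d / 8 ≤ 2 * (η / d) := g1.trans (k0.trans g2)
        have k6 : R0 / d / 8 = R0 / 8 / d := by ring
        have k7 : 2 * (η / d) = 2 * η / d := by ring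
        rw [k6, k7, div_le_div_iff_of_pos_right hd] at k5
        linarith
      have k5 : 1 ≤ (16 * η / R0) ^ a := Real.one_le_rpow k4 ha.le
      have hok : Ok (fun _ : Edg => (1/2:ℝ)) := fun _ => ⟨by norm_num, by norm_num⟩
      refine (Pr_le_one hok _ _).trans ?_
      nlinarith
  have h := ae_of_scales (μ := (μ : Measure X)) (G := fun R0 η => {p : X | ∀ s t : unitInterval,
    s ≤ t → dist (p.1 s) R.a ≤ R0 ∨ η ≤ dist (p.1 t) R.a}ᶜ) hA.le ha (by norm_num : (0:ℝ) ≤ 16)
    (lt_min hRA hRH) key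
  filter_upwards [h] with p hp s t hst ht
  by_contra hne
  refine hp (dist (p.1 s) R.a / 2) (by have := dist_pos.2 hne; positivity) ?_
  intro R1 η hR1 hR1' hη hmem
  have h0 : 0 < dist (p.1 s) R.a := dist_pos.2 hne
  rcases hmem s t hst with h1 | h1
  · linarith
  · rw [ht, dist_self] at h1
    linarith

end

end Pool.Agent.Q289.SI
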