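import Pool.Agent.Q289.SI.Soft
import Pool.Agent.H984R4.NP.PL

/-!
The soft stopping of a piecewise linear curve only depends on its first points.
-/

set_option autoImplicit false

namespace Pool.Agent.Q289.SI

open H984N MeasureTheory Filter Topology Set

theorem pl_eq_of {N N' : ℕ} {q q' : ℕ → ℂ} {k : ℕ} (hk : k + 1 ≤ N) (hk' : k + 1 ≤ N')
    (h : ∀ j ≤ k + 1, q' j = q j) {s s' : unitInterval} (hs : (s : ℝ) * N = s' * N')
    (hle : (s : ℝ) * N ≤ k + 1) : pl N q s = pl N' q' s' := by
  have key : ∀ (M : ℕ) (p : ℕ → ℂ) (t : unitInterval), k + 1 ≤ M → (t : ℝ) * M = s * N →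
      (∀ j ≤ k + 1, p j = q j) →
      pl M p t = q 0 + ∑ j ∈ Finset.range (k + 1),
        ((clamp ((s : ℝ) * N - j) : ℝ) : ℂ) * (q (j + 1) - q j) := by
    intro M p t hM ht hp
    rw [pl_apply', hp 0 (by omega), ht]
    congr 1
    have hsub : Finset.range (k + 1) ⊆ Finset.range M := Finset.range_subset_range.2 hM
    rw [← Finset.sum_subset hsub]
    · apply Finset.sum_congr rfl
      intro j hj
      have hj' := Finset.mem_range.1 hj
      rw [hp j (by omega), hp (j + 1) (by omega)]
    · intro j _ hj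
      have hj' : k + 1 ≤ j := by
        by_contra hcon
        exact hj (Finset.mem_range.2 (by omega))
      have : clamp ((s : ℝ) * N - j) = 0 := by
        apply pl_clamp_zero
        have : ((k + 1 : ℕ) : ℝ) ≤ j := by exact_mod_cast hj'
        push_cast at this
        linarith
      rw [this]
      simp
  rw [key N q s hk rfl (fun _ _ => rfl), key N' q' s' hk' hs.symm h]

theorem mn_eq_of (u : ℂ → ℝ) {N N' : ℕ} {q q' : ℕ → ℂ} {k : ℕ} (hk : k + 1 ≤ N)
    (hk' : k + 1 ≤ N') (h : ∀ j ≤ k + 1, q' j = q j) {s s' : unitInterval}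
    (hs : (s : ℝ) * N = s' * N') (hle : (s : ℝ) * N ≤ k + 1) :
    mn u (pl N q) s = mn u (pl N' q') s' := by
  unfold mn
  congr 1
  funext v
  congr 1
  have e1 : ((v * s : unitInterval) : ℝ) * N = v * (s * N) := by
    show (v : ℝ) * s * N = _
    ring
  have e2 : ((v * s' : unitInterval) : ℝ) * N' = v * (s' * N') := by
    show (v : ℝ) * s' * N' = _
    ring
  refine pl_eq_of hk hk' h ?_ ?_
  · rw [e1, e2, hs]
  · rw [e1]
    have h1 := v.2.1
    have h2 := v.2.2
    have h3 : (0 : ℝ) ≤ s * N := mul_nonneg s.2.1 (Nat.cast_nonneg N)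
    nlinarith

/-- `q'` agrees with `q` as long as `q` is in `{u > r}`. -/
def Foll (r : ℝ) (u : ℂ → ℝ) (N N' : ℕ) (q q' : ℕ → ℂ) : Prop :=
  ∀ k < N, (∀ j ≤ k, r < u (q j)) → k + 1 ≤ N' ∧ ∀ j ≤ k + 1, q' j = q j

section

variable {U : Set ℂ} {u : ℂ → ℝ} (hu : Cut U u) {r : ℝ} (hr : 0 < r) {N N' : ℕ} {q q' : ℕ → ℂ}

include hu hr

theorem foll_key (hN : 0 < N) (hN' : 0 < N') (H : Foll r u N N' q q') {x : ℝ} (hx0 : 0 < x)
    (hxN : x ≤ N) (hpos : 0 < fn r u (pl N q) (x / N)) :
    x ≤ N' ∧ fn r u (pl N' q') (x / N') = fn r u (pl N q) (x / N) ∧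
      ∀ s s' : unitInterval, (s : ℝ) * N = s' * N' → (s : ℝ) * N ≤ x →
        pl N q s = pl N' q' s' := by
  have hNr : (0 : ℝ) < N := by exact_mod_cast hN
  have hNr' : (0 : ℝ) < N' := by exact_mod_cast hN'
  obtain ⟨k, hk⟩ : ∃ k : ℕ, ⌈x⌉₊ = k + 1 := ⟨⌈x⌉₊ - 1, by
    have := Nat.ceil_pos.2 hx0
    omega⟩
  have hxk : x ≤ k + 1 := by
    have := Nat.le_ceil x
    rw [hk] at this
    exact_mod_cast this
  have hkx : (k : ℝ) < x := by
    have := Nat.ceil_lt_add_one hx0.le
    rw [hk] at this
    push_cast at this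
    linarith
  have hkN : k < N := by
    have : (k : ℝ) < N := hkx.trans_le hxN
    exact_mod_cast this
  have hmem : x / N ∈ Icc (0:ℝ) 1 := ⟨by positivity, (div_le_one hNr).2 hxN⟩
  have hfn : fn r u (pl N q) (x / N) =
      clamp ((mn u (pl N q) ⟨x / N, hmem⟩ - r) / r) := by
    unfold fn
    rw [projIcc_of_mem zero_le_one hmem]
  have hmn : r < mn u (pl N q) ⟨x / N, hmem⟩ := by
    by_contra hcon
    push Not at hcon
    rw [hfn, pl_clamp_zero (div_nonpos_of_nonpos_of_nonneg (by linarith) hr.le)] at hpos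
    exact lt_irrefl _ hpos
  have hall : ∀ j ≤ k, r < u (q j) := by
    intro j hj
    have hjN : (j : ℝ) / N ∈ Icc (0:ℝ) 1 := by
      refine ⟨by positivity, (div_le_one hNr).2 ?_⟩
      exact_mod_cast (by omega : j ≤ N)
    have h1 : (⟨(j : ℝ) / N, hjN⟩ : unitInterval) ≤ ⟨x / N, hmem⟩ := by
      show (j : ℝ) / N ≤ x / N
      have : (j : ℝ) ≤ k := by exact_mod_cast hj
      gcongr
      linarith
    have h2 := mn_le_of_le hu (pl N q) h1
    have e : (j : ℝ) / N * N = j := by field_simp
    have h3 : pl N q ⟨(j : ℝ) / N, hjN⟩ = q j := by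
      rw [pl_seg (k := j) (by omega) (by show (j : ℝ) ≤ j / N * N; rw [e])
        (by show (j : ℝ) / N * N ≤ j + 1; rw [e]; linarith)]
      have : ((⟨(j : ℝ) / N, hjN⟩ : unitInterval) : ℝ) * N - j = 0 := by
        show (j : ℝ) / N * N - j = 0
        rw [e]; ring
      rw [this]
      simp
    rw [h3] at h2
    linarith
  obtain ⟨h1, h2⟩ := H k hkN hall
  have hxN' : x ≤ N' := by
    have : ((k + 1 : ℕ) : ℝ) ≤ N' := by exact_mod_cast h1
    push_cast at this
    linarith
  have hmem' : x / N' ∈ Icc (0:ℝ) 1 := ⟨by positivity, (div_le_one hNr').2 hxN'⟩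
  refine ⟨hxN', ?_, ?_⟩
  · rw [hfn]
    unfold fn
    rw [projIcc_of_mem zero_le_one hmem']
    congr 3
    symm
    refine mn_eq_of u (by omega) h1 h2 ?_ ?_
    · show x / N * N = x / N' * N'
      field_simp
    · show x / N * N ≤ k + 1
      rw [div_mul_cancel₀ _ hNr.ne']
      exact hxk
  · intro s s' hs hsx
    exact pl_eq_of (by omega) h1 h2 hs (hsx.trans hxk)

/-- Natural version of the integrand. -/
noncomputable def natf (r : ℝ) (u : ℂ → ℝ) (N : ℕ) (q : ℕ → ℂ) (x : ℝ) : ℝ :=
  indicator (Ioc 0 (N : ℝ)) (fun x => fn r u (pl N q) (x / N)) x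

omit hu hr in
theorem fn_nonneg (r : ℝ) (u : ℂ → ℝ) (γ : C(unitInterval, ℂ)) (s : ℝ) : 0 ≤ fn r u γ s :=
  clamp_nonneg' _

omit hu hr in
theorem natf_nonneg (r : ℝ) (u : ℂ → ℝ) (N : ℕ) (q : ℕ → ℂ) (x : ℝ) : 0 ≤ natf r u N q x := by
  unfold natf
  exact indicator_nonneg (fun _ _ => fn_nonneg _ _ _ _) x

theorem natf_eq_of_pos (hN : 0 < N) (hN' : 0 < N') (H : Foll r u N N' q q') {x : ℝ}
    (hpos : 0 < natf r u N q x) : natf r u N' q' x = natf r u N q x := by
  have hx : x ∈ Ioc 0 (N : ℝ) := by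
    by_contra hcon
    unfold natf at hpos
    rw [indicator_of_notMem hcon] at hpos
    exact lt_irrefl _ hpos
  unfold natf at hpos ⊢
  rw [indicator_of_mem hx] at hpos ⊢
  obtain ⟨h1, h2, -⟩ := foll_key hu hr hN hN' H hx.1 hx.2 hpos
  have hx' : x ∈ Ioc 0 (N' : ℝ) := ⟨hx.1, h1⟩
  rw [indicator_of_mem hx']
  exact h2

theorem natf_eq (hN : 0 < N) (hN' : 0 < N') (H : Foll r u N N' q q') (H' : Foll r u N' N q' q) :
    natf r u N' q' = natf r u N q := by
  funext x
  rcases (natf_nonneg r u N q x).eq_or_lt with h | h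
  · rcases (natf_nonneg r u N' q' x).eq_or_lt with h' | h'
    · rw [← h, ← h']
    · exact (natf_eq_of_pos hu hr hN' hN H' h').symm
  · exact natf_eq_of_pos hu hr hN hN' H h

omit hu hr in
theorem lam_eq_natf (hN : 0 < N) : lam r u (pl N q) * N = ∫ x, natf r u N q x := by
  have hNr : (0 : ℝ) < N := by exact_mod_cast hN
  unfold natf
  rw [integral_indicator measurableSet_Ioc, ← intervalIntegral.integral_of_le hNr.le,
    intervalIntegral.integral_comp_div (fun s => fn r u (pl N q) s) hNr.ne']
  unfold lam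
  rw [zero_div, div_self hNr.ne', smul_eq_mul, mul_comm]

omit hu hr in
/-- If `natf` vanishes after `y` then the soft stopping time is at most `y`. -/
theorem lam_le_of (hN : 0 < N) {y : ℝ} (hy : 0 ≤ y)
    (h : ∀ x, y ≤ x → natf r u N q x = 0) : lam r u (pl N q) * N ≤ y := by
  rw [lam_eq_natf hN]
  have h1 : ∀ x, natf r u N q x ≤ indicator (Ioo 0 y) (fun _ => (1:ℝ)) x := by
    intro x
    by_cases hx : x ∈ Ioo 0 y
    · rw [indicator_of_mem hx]
      unfold natf
      by_cases hx2 : x ∈ Ioc 0 (N : ℝ)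
      · rw [indicator_of_mem hx2]
        exact clamp_le_one' _
      · rw [indicator_of_notMem hx2]
        exact zero_le_one
    · rw [indicator_of_notMem hx]
      rcases le_or_gt y x with h2 | h2
      · rw [h x h2]
      · have h3 : x ∉ Ioc 0 (N : ℝ) := fun h3 => hx ⟨h3.1, h2⟩
        unfold natf
        rw [indicator_of_notMem h3]
  have h2 : ∫ x, natf r u N q x ≤ ∫ x, indicator (Ioo 0 y) (fun _ => (1:ℝ)) x := by
    apply integral_mono_of_nonneg
    · exact Eventually.of_forall (natf_nonneg r u N q)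
    · rw [integrable_indicator_iff measurableSet_Ioo]
      exact integrableOn_const (by simp) 
    · exact Eventually.of_forall h1
  refine h2.trans ?_
  rw [integral_indicator measurableSet_Ioo]
  simp [hy]

theorem soft_pl (hN : 0 < N) (hN' : 0 < N') (h0 : q' 0 = q 0) (H : Foll r u N N' q q')
    (H' : Foll r u N' N q' q) (c : ℝ) :
    softX r u (pl N q, c * N) = softX r u (pl N' q', c * N') := by
  have hNr : (0 : ℝ) < N := by exact_mod_cast hN
  have hNr' : (0 : ℝ) < N' := by exact_mod_cast hN'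
  have e1 : lam r u (pl N q) * N = lam r u (pl N' q') * N' := by
    rw [lam_eq_natf hN, lam_eq_natf hN', natf_eq hu hr hN hN' H H']
  have hm := lam_mem hu hr (pl N q)
  have hm' := lam_mem hu hr (pl N' q')
  unfold softX
  rw [Prod.mk.injEq]
  constructor
  · rw [projIcc_of_mem zero_le_one hm, projIcc_of_mem zero_le_one hm']
    -- agreement before the end
    have hlt : ∀ s : unitInterval, s < 1 →
        cutAt (pl N q) ⟨lam r u (pl N q), hm⟩ s = cutAt (pl N' q') ⟨lam r u (pl N' q'), hm'⟩ s := by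
      intro s hs
      have hs1 : (s : ℝ) < 1 := hs
      rw [cutAt_apply, cutAt_apply]
      have f1 : (((⟨lam r u (pl N q), hm⟩ : unitInterval) * s : unitInterval) : ℝ) * N =
          s * (lam r u (pl N q) * N) := by
        show lam r u (pl N q) * s * N = _
        ring
      have f2 : (((⟨lam r u (pl N' q'), hm'⟩ : unitInterval) * s : unitInterval) : ℝ) * N' =
          s * (lam r u (pl N' q') * N') := by
        show lam r u (pl N' q') * s * N' = _
        ring
      have f3 : (((⟨lam r u (pl N q), hm⟩ : unitInterval) * s : unitInterval) : ℝ) * N =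
          (((⟨lam r u (pl N' q'), hm'⟩ : unitInterval) * s : unitInterval) : ℝ) * N' := by
        rw [f1, f2, e1]
      rcases (mul_nonneg hm.1 hNr.le).eq_or_lt with hz | hz
      · -- the stopping time is zero
        have z1 : lam r u (pl N q) = 0 := by
          rcases mul_eq_zero.1 hz.symm with h | h
          · exact h
          · exact absurd h hNr.ne'
        have z2 : lam r u (pl N' q') = 0 := by
          rw [← hz] at e1
          rcases mul_eq_zero.1 e1.symm with h | h
          · exact h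
          · exact absurd h hNr'.ne'
        have g1 : (⟨lam r u (pl N q), hm⟩ : unitInterval) * s = 0 := by
          apply Subtype.ext
          show lam r u (pl N q) * s = 0
          rw [z1, zero_mul]
        have g2 : (⟨lam r u (pl N' q'), hm'⟩ : unitInterval) * s = 0 := by
          apply Subtype.ext
          show lam r u (pl N' q') * s = 0
          rw [z2, zero_mul]
        rw [g1, g2, pl_zero, pl_zero, h0]
      · have hy : (s : ℝ) * (lam r u (pl N q) * N) < lam r u (pl N q) * N := by
          nlinarith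
        have hy0 : 0 ≤ (s : ℝ) * (lam r u (pl N q) * N) := mul_nonneg s.2.1 hz.le
        obtain ⟨x, hx1, hx2⟩ : ∃ x, (s : ℝ) * (lam r u (pl N q) * N) ≤ x ∧ natf r u N q x ≠ 0 := by
          by_contra hcon
          push Not at hcon
          exact absurd (lam_le_of hN hy0 hcon) (not_le.2 hy)
        have hpos : 0 < natf r u N q x :=
          lt_of_le_of_ne (natf_nonneg r u N q x) (Ne.symm hx2)
        have hx : x ∈ Ioc 0 (N : ℝ) := by
          by_contra hcon
          unfold natf at hpos
          rw [indicator_of_notMem hcon] at hpos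
          exact lt_irrefl _ hpos
        unfold natf at hpos
        rw [indicator_of_mem hx] at hpos
        obtain ⟨-, -, h3⟩ := foll_key hu hr hN hN' H hx.1 hx.2 hpos
        exact h3 _ _ f3 (by rw [f1]; exact hx1)
    have hd : Dense {s : unitInterval | s < 1} := by
      have : Dense (Iio (1 : unitInterval)) := by
        rw [dense_iff_closure_eq, closure_Iio' ⟨0, by simp⟩]
        ext s
        simp [unitInterval.le_one']
      exact this
    apply ContinuousMap.ext
    intro s
    have := Continuous.ext_on hd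
      (cutAt (pl N q) ⟨lam r u (pl N q), hm⟩).continuous
      (cutAt (pl N' q') ⟨lam r u (pl N' q'), hm'⟩).continuous (fun s hs => hlt s hs)
    exact congrFun this s
  · calc lam r u (pl N q) * (c * N) = c * (lam r u (pl N q) * N) := by ring
      _ = c * (lam r u (pl N' q') * N') := by rw [e1]
      _ = _ := by ring

end

theorem revC_pl {N : ℕ} (hN : 0 < N) (q : ℕ → ℂ) :
    revC (pl N q) = pl N (fun k => q (N - k)) := by
  have hNr : (0 : ℝ) < N := by exact_mod_cast hN
  apply ContinuousMap.ext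
  intro s
  rw [revC_apply]
  obtain ⟨k, hk, hk1, hk2⟩ := pl_exists_seg hN s
  have e : ((unitInterval.symm s : unitInterval) : ℝ) * N = N - s * N := by
    rw [unitInterval.coe_symm_eq]
    ring
  have hc : ((N - (k + 1) : ℕ) : ℝ) = N - (k + 1) := by
    rw [Nat.cast_sub (by omega)]
    push_cast
    ring
  rw [pl_seg (k := N - (k + 1)) (by omega) (by rw [e, hc]; linarith) (by rw [e, hc]; linarith),
    pl_seg hk hk1 hk2, e, hc]
  have i1 : N - (k + 1) + 1 = N - k := by omega
  rw [i1]
  push_cast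
  ring

end Pool.Agent.Q289.SI
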