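import Pool.Agent.Q289.SI.Loc
import Pool.Agent.Q289.SI.Refl

/-!
Near its starting point the limit is the mirror image of the reversed limit near the end point.
-/

set_option autoImplicit false

namespace Pool.Agent.Q289.SI

open H974 Finset H342P H984P H984N MeasureTheory Filter Topology ProbabilityTheory
open scoped BoundedContinuousFunction ComplexConjugate

/-- The mirror image of the rectangle; the start of the mirror image is at `0`. -/
def rfR (R : Rect) : Rect where
  A := R.A + R.t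
  B := R.B - R.t
  H := R.H
  t := -R.t
  hA := by linarith [R.ht1]
  hB := by linarith [R.ht2]
  hH := R.hH
  ht1 := by linarith [R.hA]
  ht2 := by linarith [R.hB]

/-- A reflection of the plane. -/
noncomputable def mirC (w : ℂ) : C(ℂ, ℂ) := ⟨fun z => conj z + w, by fun_prop⟩

/-- The mirror image of a curve. -/
noncomputable def mir (w : ℂ) (p : X) : X := ((mirC w).comp p.1, p.2)

theorem mir_cont (w : ℂ) : Continuous (mir w) :=
  ((ContinuousMap.continuous_postcomp _).comp continuous_fst).prodMk continuous_snd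

theorem mir_dist (w w' : ℂ) (p : X) : dist (mir w p) (mir w' p) ≤ dist w w' := by
  unfold mir
  rw [Prod.dist_eq]
  refine max_le ?_ ?_
  · rw [ContinuousMap.dist_le dist_nonneg]
    intro s
    show dist (conj (p.1 s) + w) (conj (p.1 s) + w') ≤ dist w w'
    rw [dist_add_left]
  · simp only
    rw [dist_self]
    exact dist_nonneg

/-- The translation part for the lattice rectangle. -/
noncomputable def shD (D : Dm) (δ : ℝ) : ℂ := ⟨-(δ * D.t), δ * (D.h + 2)⟩

theorem pos_rfS (D : Dm) (δ : ℝ) (σ : St) : pos δ (rfS D σ) = conj (pos δ σ) + shD D δ := by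
  obtain ⟨⟨x, y⟩, q⟩ := σ
  cases q <;> apply Complex.ext <;>
    simp only [pos, rfS, rfV, rfQ, shD, Complex.add_re, Complex.add_im, Complex.conj_re,
      Complex.conj_im] <;> push_cast <;> ring

theorem mir_pl (w : ℂ) (N : ℕ) (p : ℕ → ℂ) :
    (mirC w).comp (pl N p) = pl N (fun k => conj (p k) + w) := by
  apply ContinuousMap.ext
  intro s
  show conj (p 0 + ∑ k ∈ Finset.range N, ((clamp (s * N - k) : ℝ) : ℂ) * (p (k + 1) - p k)) + w =
    conj (p 0) + w + ∑ k ∈ Finset.range N, ((clamp (s * N - k) : ℝ) : ℂ) *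
      (conj (p (k + 1)) + w - (conj (p k) + w))
  rw [map_add, map_sum]
  have e : ∀ k ∈ Finset.range N, conj (((clamp (s * N - k) : ℝ) : ℂ) * (p (k + 1) - p k)) =
      ((clamp (s * N - k) : ℝ) : ℂ) * (conj (p (k + 1)) + w - (conj (p k) + w)) := by
    intro k _
    rw [map_mul, Complex.conj_ofReal, map_sub]
    ring
  rw [Finset.sum_congr rfl e]
  ring

theorem pl_congr' {N : ℕ} {p q : ℕ → ℂ} (h : ∀ k ≤ N, p k = q k) : pl N p = pl N q := by
  apply ContinuousMap.ext
  intro s
  show p 0 + ∑ k ∈ Finset.range N, ((clamp (s * N - k) : ℝ) : ℂ) * (p (k + 1) - p k) =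
    q 0 + ∑ k ∈ Finset.range N, ((clamp (s * N - k) : ℝ) : ℂ) * (q (k + 1) - q k)
  rw [h 0 (Nat.zero_le _)]
  congr 1
  apply Finset.sum_congr rfl
  intro k hk
  rw [Finset.mem_range] at hk
  rw [h k hk.le, h (k + 1) hk]

theorem mir_curve {D : Dm} (hD : D.Ok) (hD' : (rfD D).Ok) (δ : ℝ) {F : Finset Edg}
    (hF : F ⊆ D.edges) : mir (shD D δ) (cvD D δ F) = revX (cvD (rfD D) δ (rfF D F)) := by
  unfold mir cvD revX
  simp only
  rw [mir_pl, revC_pl (len_pos hD' (rfF_sub hF)), rf_len hD hD' hF]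
  refine Prod.ext ?_ rfl
  simp only
  apply pl_congr'
  intro k hk
  rw [← pos_rfS, rf_walk hD hD' hF hk]

theorem edges_iffD {D : Dm} {e : Edg} (g1 : D.l + 1 ≤ e.1) (g2 : e.1 < D.r) (g3 : e.2.1 < D.h) :
    (e ∈ D.edges ↔ 0 ≤ e.2.1) ∧ (e ∈ D.wir ↔ e.2.2 = true ∧ e.2.1 = 0 ∧ e.1 < 0) := by
  obtain ⟨x, y, b⟩ := e
  simp only at g1 g2 g3
  unfold Dm.edges Dm.wir
  cases b
  · refine ⟨by rw [mem_RE_false]; simp only; constructor <;> intro h <;> omega, ?_⟩
    constructor
    · rintro (⟨h, -⟩ | ⟨-, h, -⟩ | ⟨h, -⟩)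
      · exact absurd h (by simp)
      · simp only at h; omega
      · exact absurd h (by simp)
    · rintro ⟨h, -⟩
      exact absurd h (by simp)
  · refine ⟨by rw [mem_RE_true]; simp only; constructor <;> intro h <;> omega, ?_⟩
    constructor
    · rintro (⟨-, h, -⟩ | ⟨h, -⟩ | ⟨-, h, -, h'⟩)
      · simp only at h; omega
      · exact absurd h (by simp)
      · exact ⟨rfl, h, h'⟩
    · rintro ⟨-, h, h'⟩
      refine Or.inr (Or.inr ⟨rfl, h, ?_, h'⟩)
      simp only; omega

section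

variable {U : Set ℂ} {u : ℂ → ℝ} (hu : Cut U u) {r δ : ℝ} (hδ : 0 < δ) (hr : 6 * δ ≤ r)

include hu hδ hr

theorem locOk_rf (R : Rect) (hUR : U ⊆ below (rfR R)) : LocOk (rfD (R.dm δ)) u r δ := by
  have main : ∀ e : Edg, r / 2 < u (vp δ (src e)) → (rfD (R.dm δ)).l + 1 ≤ e.1 ∧
      e.1 < (rfD (R.dm δ)).r ∧ e.2.1 < (rfD (R.dm δ)).h := by
    intro e he
    have key : ∀ w : ℂ, dist (vp δ (src e)) w ≤ 3 * δ → w ∈ U := by
      intro w hw
      rw [← hu.pos]
      have h1 := hu.lip (vp δ (src e)) w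
      linarith
    have d2 : |3 * δ| = 3 * δ := abs_of_pos (by linarith)
    obtain ⟨x, y, b⟩ := e
    have h1 := (hUR (key ⟨(vp δ (src (x, y, b))).re - 3 * δ, (vp δ (src (x, y, b))).im⟩ (by
      refine (cdist_le (a := 3 * δ) (b := 0) ?_ ?_).trans (by linarith)
      · simp only
        rw [sub_sub_cancel, d2]
      · simp))).1
    have h2 := (hUR (key ⟨(vp δ (src (x, y, b))).re + 3 * δ, (vp δ (src (x, y, b))).im⟩ (by
      refine (cdist_le (a := 3 * δ) (b := 0) ?_ ?_).trans (by linarith)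
      · simp only
        rw [sub_add_cancel_left, abs_neg, d2]
      · simp))).2.1
    have h3 := (hUR (key ⟨(vp δ (src (x, y, b))).re, (vp δ (src (x, y, b))).im + 3 * δ⟩ (by
      refine (cdist_le (a := 0) (b := 3 * δ) ?_ ?_).trans (by linarith)
      · simp
      · simp only
        rw [sub_add_cancel_left, abs_neg, d2]))).2.2
    simp only [rfR, vp, src_mk] at h1 h2 h3
    have e1 : -(R.A / δ) - R.t / δ + 3 < x := by
      have : (-(R.A + R.t) + 3 * δ) / δ < x := by rw [div_lt_iff₀ hδ]; linarith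
      rw [add_div, mul_div_cancel_right₀ _ hδ.ne', neg_div, add_div] at this
      linarith
    have e2 : (x : ℝ) < R.B / δ - R.t / δ - 3 := by
      have : (x : ℝ) < (R.B - R.t - 3 * δ) / δ := by rw [lt_div_iff₀ hδ]; linarith
      rw [sub_div, mul_div_cancel_right₀ _ hδ.ne', sub_div] at this
      linarith
    have e3 : (y : ℝ) + 1 < R.H / δ - 3 := by
      have : (y : ℝ) + 1 < (R.H - 3 * δ) / δ := by rw [lt_div_iff₀ hδ]; linarith
      rw [sub_div, mul_div_cancel_right₀ _ hδ.ne'] at this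
      linarith
    have c1 := Int.floor_le (-(R.A / δ))
    have c2 := Int.lt_floor_add_one (R.t / δ)
    have c3 := Int.le_ceil (R.B / δ)
    have c4 := Int.floor_le (R.t / δ)
    have c5 := Int.le_ceil (R.H / δ)
    refine ⟨?_, ?_, ?_⟩
    · show ⌊-(R.A / δ)⌋ + 1 - ⌊R.t / δ⌋ + 1 ≤ x
      have k2 : ((⌊-(R.A / δ)⌋ + 1 - ⌊R.t / δ⌋ + 1 : ℤ) : ℝ) < x := by push_cast; linarith
      have k3 : ⌊-(R.A / δ)⌋ + 1 - ⌊R.t / δ⌋ + 1 < x := by exact_mod_cast k2
      omega
    · show x < ⌈R.B / δ⌉ - 1 - ⌊R.t / δ⌋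
      have k2 : (x : ℝ) < ((⌈R.B / δ⌉ - 1 - ⌊R.t / δ⌋ : ℤ) : ℝ) := by push_cast; linarith
      exact_mod_cast k2
    · show y < ⌈R.H / δ⌉ - 2
      have k2 : (y : ℝ) < ((⌈R.H / δ⌉ - 2 : ℤ) : ℝ) := by push_cast; linarith
      exact_mod_cast k2
  refine ⟨fun e he => ?_, fun e he => ?_, ?_⟩
  · obtain ⟨g1, g2, g3⟩ := main e he
    exact (edges_iffD g1 g2 g3).1
  · obtain ⟨g1, g2, g3⟩ := main e he
    exact (edges_iffD g1 g2 g3).2
  · have h1 : (rfR R).a ∉ U := fun h => by
      have := (hUR h).2.2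
      exact lt_irrefl _ this
    have h2 : u (rfR R).a ≤ 0 := by
      by_contra hcon
      exact h1 ((hu.pos _).1 (not_le.1 hcon))
    have h3 := hu.lip (pos δ (rfD (R.dm δ)).start) (rfR R).a
    have h4 : dist (pos δ (rfD (R.dm δ)).start) (rfR R).a ≤ 3 * δ := by
      have cH := Int.le_ceil (R.H / δ)
      have cH' := Int.ceil_lt_add_one (R.H / δ)
      have ft := Int.floor_le (R.t / δ)
      have ft' := Int.lt_floor_add_one (R.t / δ)
      have eH : δ * (R.H / δ) = R.H := by field_simp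
      have et : δ * (R.t / δ) = R.t := by field_simp
      have m1 := mul_le_mul_of_nonneg_left cH hδ.le
      have m2 := mul_le_mul_of_nonneg_left cH'.le hδ.le
      have m3 := mul_le_mul_of_nonneg_left ft hδ.le
      have m4 := mul_le_mul_of_nonneg_left ft'.le hδ.le
      refine (cdist_le (a := 3/2 * δ) (b := 3/2 * δ) ?_ ?_).trans (by linarith)
      · rw [ML.pos_re]
        show |δ * (((-⌊R.t / δ⌋ : ℤ) : ℝ) + 1 / 4) - -R.t| ≤ 3/2 * δ
        push_cast
        rw [abs_le]
        constructor <;> nlinarith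
      · rw [ML.pos_im]
        show |δ * (((⌈R.H / δ⌉ - 2 : ℤ) : ℝ) + 1 + 1 / 4) - R.H| ≤ 3/2 * δ
        push_cast
        rw [abs_le]
        constructor <;> nlinarith
    linarith

end

theorem E_mir {D : Dm} (hD : D.Ok) (hD' : (rfD D).Ok) (δ : ℝ) (g : X → ℝ) :
    E D.edges (fun F => g (mir (shD D δ) (cvD D δ F))) =
      E (rfD D).edges (fun F => g (revX (cvD (rfD D) δ F))) := by
  rw [rf_Ex D (fun F => g (revX (cvD (rfD D) δ F)))]
  apply Ex_congr
  intro F hF
  rw [mir_curve hD hD' δ hF]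

/-- The mirror image of the limit. -/
theorem mir_law (R : Rect) {δ : ℕ → ℝ} (hδ : ∀ i, 0 < δ i) (hlim : Tendsto δ atTop (𝓝 0))
    {μ : ProbabilityMeasure X} (hμ : Tendsto (fun i => R.law (δ i)) atTop (𝓝 μ)) (g : X →ᵇ ℝ) :
    Tendsto (fun i => ∫ p, g (mir (shD (R.dm (δ i)) (δ i)) p) ∂(R.law (δ i) : Measure X)) atTop
      (𝓝 (∫ p, g (mir ⟨-R.t, R.H⟩ p) ∂(μ : Measure X))) := by
  obtain ⟨w, hw⟩ : ∃ w : ℂ, w = ⟨-R.t, R.H⟩ := ⟨_, rfl⟩
  rw [← hw]
  have hd : ∀ i, dist (shD (R.dm (δ i)) (δ i)) w ≤ 2 * δ i := by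
    intro i
    have hi := hδ i
    generalize δ i = d at hi ⊢
    have cH := Int.le_ceil (R.H / d)
    have cH' := Int.ceil_lt_add_one (R.H / d)
    have ft := Int.floor_le (R.t / d)
    have ft' := Int.lt_floor_add_one (R.t / d)
    have eH : d * (R.H / d) = R.H := by field_simp
    have et : d * (R.t / d) = R.t := by field_simp
    have m1 := mul_le_mul_of_nonneg_left cH hi.le
    have m2 := mul_le_mul_of_nonneg_left cH'.le hi.le
    have m3 := mul_le_mul_of_nonneg_left ft hi.le
    have m4 := mul_le_mul_of_nonneg_left ft'.le hi.le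
    rw [hw]
    refine (cdist_le (a := d) (b := d) ?_ ?_).trans (by linarith)
    · show |-(d * ((⌊R.t / d⌋ : ℤ) : ℝ)) - -R.t| ≤ d
      rw [abs_le]
      constructor <;> nlinarith
    · show |d * (((⌈R.H / d⌉ - 2 : ℤ) : ℝ) + 2) - R.H| ≤ d
      push_cast
      rw [abs_le]
      constructor <;> nlinarith
  -- the mirror images as probability measures
  let ν : ℕ → ProbabilityMeasure X := fun i =>
    (R.law (δ i)).map (mir_cont (shD (R.dm (δ i)) (δ i))).measurable.aemeasurable
  let ν' : ProbabilityMeasure X := μ.map (mir_cont w).measurable.aemeasurable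
  have hν : Tendsto ν atTop (𝓝 ν') := by
    rw [tendsto_iff_forall_lipschitz_integral_tendsto]
    rintro f ⟨C, hC⟩ ⟨L, hL⟩
    have hfc : Continuous f := hL.continuous
    let fb : X →ᵇ ℝ := ⟨⟨f, hfc⟩, ⟨C, hC⟩⟩
    have t1 := ProbabilityMeasure.tendsto_iff_forall_integral_tendsto.mp hμ
      (bc fb (mir_cont w))
    have e1 : ∫ p, bc fb (mir_cont w) p ∂(μ : Measure X) = ∫ p, f p ∂(ν' : Measure X) := by
      show _ = ∫ p, f p ∂((μ : Measure X).map (mir w))
      rw [integral_map (mir_cont w).measurable.aemeasurable hfc.aestronglyMeasurable]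
      rfl
    rw [← e1]
    have e2 : ∀ i, ∫ p, f p ∂(ν i : Measure X) =
        ∫ p, f (mir (shD (R.dm (δ i)) (δ i)) p) ∂(R.law (δ i) : Measure X) := by
      intro i
      show ∫ p, f p ∂((R.law (δ i) : Measure X).map (mir (shD (R.dm (δ i)) (δ i)))) = _
      rw [integral_map (mir_cont _).measurable.aemeasurable hfc.aestronglyMeasurable]
    have t2 : Tendsto (fun i => L * (2 * δ i)) atTop (𝓝 0) := by
      have := (hlim.const_mul 2).const_mul (L : ℝ)
      simpa using this
    have t3 : Tendsto (fun i => ∫ p, f p ∂(ν i : Measure X) -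
        ∫ p, bc fb (mir_cont w) p ∂(R.law (δ i) : Measure X)) atTop (𝓝 0) := by
      apply squeeze_zero_norm _ t2
      intro i
      rw [e2 i, ← integral_sub]
      · refine (norm_integral_le_of_norm_le_const (C := L * (2 * δ i)) ?_).trans ?_
        · refine Eventually.of_forall fun p => ?_
          rw [← dist_eq_norm]
          refine (hL.dist_le_mul _ _).trans ?_
          apply mul_le_mul_of_nonneg_left _ L.2
          exact (mir_dist _ _ p).trans (hd i)
        · simp
      · exact (fb.compContinuous ⟨_, mir_cont (shD (R.dm (δ i)) (δ i))⟩).integrable _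
      · exact (bc fb (mir_cont w)).integrable _
    have t4 := t3.add t1
    rw [zero_add] at t4
    refine t4.congr fun i => ?_
    ring
  have t5 := ProbabilityMeasure.tendsto_iff_forall_integral_tendsto.mp hν g
  have e3 : ∫ p, g p ∂(ν' : Measure X) = ∫ p, g (mir w p) ∂(μ : Measure X) := by
    show ∫ p, g p ∂((μ : Measure X).map (mir w)) = _
    rw [integral_map (mir_cont w).measurable.aemeasurable g.continuous.aestronglyMeasurable]
  rw [e3] at t5
  refine t5.congr fun i => ?_
  show ∫ p, g p ∂((R.law (δ i) : Measure X).map (mir (shD (R.dm (δ i)) (δ i)))) = _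
  rw [integral_map (mir_cont _).measurable.aemeasurable g.continuous.aestronglyMeasurable]

/-- Near its start the limit in `R` is the mirror image of the reversed limit in `R'` near the
end. -/
theorem locality_refl (R R' : Rect) {δ : ℕ → ℝ} (hδ : ∀ i, 0 < δ i)
    (hlim : Tendsto δ atTop (𝓝 0))
    {μ μ' : ProbabilityMeasure X} (hμ : Tendsto (fun i => R.law (δ i)) atTop (𝓝 μ))
    (hμ' : Tendsto (fun i => R'.law (δ i)) atTop (𝓝 μ')) {V : Set ℂ} (hV : IsOpen V)
    (hVR : V ⊆ below (rfR R)) (hVR' : V ⊆ below R') :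
    (μ : Measure X).map (fun p => stopX V (mir ⟨-R.t, R.H⟩ p)) =
      (μ' : Measure X).map (fun p => stopX V (revX p)) := by
  obtain ⟨v, hv⟩ := exists_cut hV
  have hmV : Measurable (fun p => stopX V (revX p)) := (stopX_meas hV).comp revX_cont.measurable
  have hmV' : Measurable (fun p => stopX V (mir ⟨-R.t, R.H⟩ p)) :=
    (stopX_meas hV).comp (mir_cont _).measurable
  have hr : ∀ n : ℕ, (0:ℝ) < 1 / ((n : ℝ) + 1) := fun n => by positivity
  have i1 : IsFiniteMeasure ((μ' : Measure X).map (fun p => stopX V (revX p))) :=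
    Measure.isFiniteMeasure_map _ _
  apply ext_of_forall_integral_eq_of_IsFiniteMeasure
  intro f
  rw [integral_map hmV'.aemeasurable f.continuous.aestronglyMeasurable,
    integral_map hmV.aemeasurable f.continuous.aestronglyMeasurable]
  have hsoft : ∀ n : ℕ, ∫ p, f (softX (1 / ((n : ℝ) + 1)) v (mir ⟨-R.t, R.H⟩ p)) ∂(μ : Measure X) =
      ∫ p, f (softX (1 / ((n : ℝ) + 1)) v (revX p)) ∂(μ' : Measure X) := by
    intro n
    have hcs : Continuous (fun p : X => softX (1 / ((n : ℝ) + 1)) v p) := softX_cont hv (hr n)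
    have hcv : Continuous (fun p : X => softX (1 / ((n : ℝ) + 1)) v (revX p)) :=
      hcs.comp revX_cont
    have t1 := mir_law R hδ hlim hμ (bc f hcs)
    have t2 := ProbabilityMeasure.tendsto_iff_forall_integral_tendsto.mp hμ' (bc f hcv)
    obtain ⟨κ, S, δ0, -, -, hδ0, -, hshape⟩ := R.shape
    obtain ⟨κ', S', δ0', -, -, hδ0', -, hshape'⟩ := R'.shape
    refine tendsto_nhds_unique t1 (t2.congr' ?_)
    have hA := R.ht1
    have hB := R.ht2
    filter_upwards [hlim.eventually (ge_mem_nhds hδ0), hlim.eventually (ge_mem_nhds hδ0'),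
      hlim.eventually (ge_mem_nhds (show 0 < 1 / ((n : ℝ) + 1) / 6 by positivity)),
      hlim.eventually (gt_mem_nhds (show 0 < (R.A + R.t) / 2 by linarith)),
      hlim.eventually (gt_mem_nhds (show 0 < R.B - R.t by linarith))]
      with i hi1 hi2 hi3 hi4 hi5
    have hd := hδ i
    have hD := (hshape _ hd hi1).ok
    have hD' : (rfD (R.dm (δ i))).Ok := by
      apply rfD_ok hD
      · have c1 := Int.floor_le (-(R.A / δ i))
        have c2 := Int.lt_floor_add_one (R.t / δ i)
        have c3 : 2 < (R.A + R.t) / δ i := by rw [lt_div_iff₀ hd]; linarith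
        rw [add_div] at c3
        show ⌊-(R.A / δ i)⌋ + 1 < ⌊R.t / δ i⌋
        have k2 : ((⌊-(R.A / δ i)⌋ + 1 : ℤ) : ℝ) < ((⌊R.t / δ i⌋ : ℤ) : ℝ) := by
          push_cast; linarith
        exact_mod_cast k2
      · have c1 := Int.le_ceil (R.B / δ i)
        have c2 := Int.floor_le (R.t / δ i)
        have c3 : 1 < (R.B - R.t) / δ i := by rw [lt_div_iff₀ hd]; linarith
        rw [sub_div] at c3
        show ⌊R.t / δ i⌋ < ⌈R.B / δ i⌉ - 1
        have k2 : ((⌊R.t / δ i⌋ : ℤ) : ℝ) < ((⌈R.B / δ i⌉ - 1 : ℤ) : ℝ) := by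
          push_cast; linarith
        exact_mod_cast k2
    have e1 : ∫ p, bc f hcs (mir (shD (R.dm (δ i)) (δ i)) p) ∂(R.law (δ i) : Measure X) =
        E (R.dm (δ i)).edges (fun F => f (softX (1 / ((n : ℝ) + 1)) v
          (mir (shD (R.dm (δ i)) (δ i)) (cvD (R.dm (δ i)) (δ i) F)))) :=
      law_int R (δ i) (bc (bc f hcs) (mir_cont (shD (R.dm (δ i)) (δ i))))
    have e2 : ∫ p, bc f hcv p ∂(R'.law (δ i) : Measure X) =
        E (R'.dm (δ i)).edges (fun F => f (softX (1 / ((n : ℝ) + 1)) v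
          (revX (cvD (R'.dm (δ i)) (δ i) F)))) := law_int R' (δ i) (bc f hcv)
    rw [e1, e2, E_mir hD hD' (δ i) (fun q => f (softX (1 / ((n : ℝ) + 1)) v q))]
    exact (disc_locD hv hd (by linarith) hD' (hshape' _ hd hi2).ok
      (locOk_rf hv hd (by linarith) R hVR) (locOk_of hv hd (by linarith) R' hVR') f).symm
  have lim : ∀ (ν : ProbabilityMeasure X) (W : X → X), Continuous W → Tendsto (fun n : ℕ =>
      ∫ p, f (softX (1 / ((n : ℝ) + 1)) v (W p)) ∂(ν : Measure X)) atTop
      (𝓝 (∫ p, f (stopX V (W p)) ∂(ν : Measure X))) := by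
    intro ν W hW
    apply tendsto_integral_of_dominated_convergence (fun _ => ‖f‖)
    · exact fun n => (f.continuous.comp ((softX_cont hv (hr n)).comp hW)).aestronglyMeasurable
    · exact integrable_const _
    · exact fun n => Eventually.of_forall fun p => f.norm_coe_le_norm _
    · exact Eventually.of_forall fun p => (f.continuous.tendsto _).comp (softX_tendsto hv _)
  exact tendsto_nhds_unique (lim μ _ (mir_cont _))
    ((lim μ' _ revX_cont).congr fun n => (hsoft n).symm)

end Pool.Agent.Q289.SI
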