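import Pool.Agent.Q289.SI.RetP

/-!
The path in the rectangle does not come close to its end point before the end.
-/

set_option autoImplicit false

namespace Pool.Agent.Q289.SI

open H974 Finset H342P H984P H984N MeasureTheory

/-- There is no corner below the negative half-axis. -/
theorem not_bad {D : Dm} (hD : D.Ok) {F : Finset Edg} (hF : F ⊆ D.edges) {k : ℕ}
    (hk : k ≤ D.len F) (h1 : (face (D.walk F k)).2 = -1) (h2 : (face (D.walk F k)).1 < 0) :
    False := by
  have h0 := hD.r_pos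
  have h3 := hD.h_pos
  obtain ⟨-, h⟩ := walk_clu hD hF hk
  rcases dclu_in hD h with (⟨-, k1, -⟩ | ⟨k1, -⟩ | ⟨k1, -⟩) | ⟨-, k1, -⟩ <;> omega

/-- The vertices of the path. -/
theorem nxt_cases (G : Set Edg) (σ : St) : (nxt G σ).1 = σ.1 ∨ (ae σ ∈ G ∧
    ((src (ae σ) = σ.1 ∧ tgt (ae σ) = (nxt G σ).1) ∨
      (src (ae σ) = (nxt G σ).1 ∧ tgt (ae σ) = σ.1))) := by
  by_cases h : ae σ ∈ G
  · right
    rw [nxt_open h]
    exact ⟨h, p2_ends σ⟩
  · left
    rw [nxt_closed h, p2_rt_fst]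

theorem walk_nonneg {D : Dm} (hD : D.Ok) {F : Finset Edg} (hF : F ⊆ D.edges) {k : ℕ}
    (hk : k ≤ D.len F) : 0 ≤ (D.walk F k).1.2 :=
  (clu_inR hD hF (walk_clu hD hF hk).1).2.1

/-- Once it is outside the backward path stays outside. -/
theorem retD_step {D : Dm} (hD : D.Ok) {F : Finset Edg} (hF : F ⊆ D.edges) {r R : ℤ} (hr : 0 ≤ r)
    (hrR : r < R) (hl : R ≤ -D.l) (hh : R ≤ D.h)
    (hS : ∀ v ∈ RS F r, sd v (0, 0) < R) {k : ℕ} (hk : k + 1 ≤ D.len F)
    (hT : (D.walk F (k + 1)).1 ∈ RT F r R) :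
    (D.walk F k).1 ∈ RT F r R := by
  have hbad := not_bad hD hF (k := k) (by omega)
  have hnn : 0 ≤ (D.walk F k).1.2 := walk_nonneg hD hF (by omega)
  rw [clu_walk_succ] at hT
  generalize hσ : D.walk F k = σ at hT hbad hnn ⊢
  rcases nxt_cases (D.cfg F) σ with h | ⟨he, hc⟩
  · rw [← h]; exact hT
  obtain ⟨hk0, hkS, w, hw, hkw⟩ := hT
  have he0 : 0 ≤ (ae σ).2.1 := by
    rcases hc with ⟨h1, h2⟩ | ⟨h1, h2⟩
    · rw [← h1] at hnn; exact hnn
    · rw [← h1] at hk0; exact hk0
  have hvS : σ.1 ∉ RS F r := by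
    intro hv
    have hsd := hS _ hv
    rw [Ret_sd, max_lt_iff, abs_lt, abs_lt] at hsd
    by_cases hneg : (ae σ).2.1 = 0 ∧ (ae σ).2.2 = true ∧ (ae σ).1 < 0
    · obtain ⟨h1, h2, h3⟩ := hneg
      obtain ⟨⟨x, y⟩, q⟩ := σ
      cases q
      · simp only [ae_ne, src_mk, tgt_true] at h1 h3 hc
        subst h1
        rcases hc with ⟨h4, h5⟩ | ⟨h4, h5⟩
        · refine Ret_planar hr hrR hS h3 hv ?_
          rw [h5]
          exact ⟨hk0, hkS, w, hw, hkw⟩
        · simp only [Prod.mk.injEq] at h5; omega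
      · simp at h2
      · simp only [ae_sw, src_mk, tgt_true] at h1 h3 hc
        subst h1
        exact hbad (by simp) (by simp; omega)
      · simp at h2
    · rcases he with he | he
      · apply hkS
        exact Ret_S_closed hv ⟨ae σ, ⟨he0, hneg, he⟩, hc⟩
      · rcases he with ⟨h1, h2, h3⟩ | ⟨h1, h2, h3⟩ | ⟨h1, h2, h3⟩
        · rcases hc with ⟨h4, h5⟩ | ⟨h4, h5⟩
          · rw [← h4] at hsd
            simp only [src] at hsd
            omega
          · rw [← h5] at hsd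
            generalize ae σ = e at *
            obtain ⟨x, y, b⟩ := e
            simp only at h1 h2
            subst h1
            simp only [tgt_true] at hsd
            omega
        · rcases hc with ⟨h4, h5⟩ | ⟨h4, h5⟩
          · rw [← h4] at hsd
            simp only [src] at hsd
            omega
          · rw [← h5] at hsd
            generalize ae σ = e at *
            obtain ⟨x, y, b⟩ := e
            simp only at h1 h2
            subst h1
            simp only [tgt_false] at hsd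
            omega
        · exact hneg ⟨h2, h1, h3.2⟩
  refine ⟨hnn, hvS, w, hw, Reach.trans (Adj.reach ⟨ae σ, ⟨he0, ?_, ?_⟩, hc⟩) hkw⟩
  · rcases hc with ⟨h1, h2⟩ | ⟨h1, h2⟩
    · rw [h1]; exact hvS
    · rw [h1]; exact hkS
  · rcases hc with ⟨h1, h2⟩ | ⟨h1, h2⟩
    · rw [h2]; exact hkS
    · rw [h2]; exact hvS

/-- If the cluster of the half-box of radius `r` off the axis does not reach distance `R`, then
the path does not go from distance `r` to distance `R`. -/
theorem retD_det {D : Dm} (hD : D.Ok) {F : Finset Edg} (hF : F ⊆ D.edges) {r R : ℤ} (hr : 0 ≤ r)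
    (hrR : r < R) (hl : R ≤ -D.l) (hh : R ≤ D.h)
    (hS : ∀ v ∈ RS F r, sd v (0, 0) < R) {k l : ℕ} (hkl : k ≤ l) (hlen : l ≤ D.len F)
    (hk : sd (D.walk F k).1 (0, 0) ≤ r) (hl' : R ≤ sd (D.walk F l).1 (0, 0)) : False := by
  have h0 : (D.walk F l).1 ∈ RT F r R := by
    refine ⟨walk_nonneg hD hF hlen, fun h => ?_, _, hl', Reach.refl _ _⟩
    have := hS _ h
    omega
  have h1 : ∀ n : ℕ, n ≤ l → (D.walk F (l - n)).1 ∈ RT F r R := by
    intro n hn
    induction n with
    | zero => exact h0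
    | succ n ih =>
      have e : l - n = (l - (n + 1)) + 1 := by omega
      have h2 := ih (by omega)
      rw [e] at h2
      exact retD_step hD hF hr hrR hl hh hS (by omega) h2
  have h2 := h1 (l - k) (by omega)
  have e : l - (l - k) = k := by omega
  rw [e] at h2
  exact h2.2.1 ⟨_, hk, walk_nonneg hD hF (by omega), Reach.refl _ _⟩

/-- The arm event. -/
theorem retD_arm {F : Finset Edg} {r R : ℕ} {v : Vtx} (hv : v ∈ RS F r)
    (hR : (R : ℤ) ≤ sd v (0, 0)) : H12S.Crs 0 0 r R (↑F : Set Edg) := by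
  obtain ⟨u, hu, hu0, hreach⟩ := hv
  have hv0 := Ret_O_nonneg hu0 hreach
  rw [Ret_sd, max_le_iff, abs_le, abs_le] at hu
  rw [Ret_sd, le_max_iff, le_abs, le_abs] at hR
  refine ⟨u, v, ?_, ?_, hreach.mono ?_⟩
  · unfold inR; omega
  · omega
  · rintro e ⟨-, -, he⟩
    exact he

/-- Before the end the path comes close to its end point and goes away again with small
probability. -/
theorem retD : ∃ a A : ℝ, 0 < a ∧ 1 ≤ A ∧ ∀ (D : Dm), D.Ok → ∀ r R : ℤ, 1 ≤ r → r ≤ R → R ≤ -D.l →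
    R ≤ D.h → P D.edges (fun F => ∃ k l : ℕ, k ≤ l ∧ l ≤ D.len F ∧
      sd (D.walk F k).1 (0, 0) ≤ r ∧ R ≤ sd (D.walk F l).1 (0, 0)) ≤ A * ((r : ℝ) / R) ^ a := by
  obtain ⟨κ, hκ, hW⟩ := H12S.win_half
  obtain ⟨C, c, hC, hc, harm⟩ := H12S.win_arm_of
    (fun h _ h1 h2 => fun c1 c2 S => H12S.win_blk h h1 h2 c1 c2 S) κ hκ
  refine ⟨c, max C 1, hc, le_max_right _ _, ?_⟩
  intro D hD r R hr hrR hl hh
  have hok : Ok (fun _ : Edg => (1/2:ℝ)) := fun _ => ⟨by norm_num, by norm_num⟩
  rcases eq_or_lt_of_le hrR with h | hlt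
  · subst h
    have hr0 : (r : ℝ) ≠ 0 := by
      have : (0:ℝ) < r := by exact_mod_cast (by omega : 0 < r)
      exact this.ne'
    rw [div_self hr0, Real.one_rpow, mul_one]
    exact (Pr_le_one hok _ _).trans (le_max_right _ _)
  · lift r to ℕ using (by omega) with r'
    lift R to ℕ using (by omega) with R'
    have hr1 : 1 ≤ r' := by exact_mod_cast hr
    have hrR' : r' < R' := by exact_mod_cast hlt
    have h1 : P D.edges (fun F => ∃ k l : ℕ, k ≤ l ∧ l ≤ D.len F ∧
        sd (D.walk F k).1 (0, 0) ≤ (r' : ℤ) ∧ (R' : ℤ) ≤ sd (D.walk F l).1 (0, 0)) ≤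
        P D.edges (fun F => H12S.Crs 0 0 r' R' (↑F : Set Edg)) := by
      refine Pr_mono hok fun F hF => ?_
      rintro ⟨k, l, hkl, hlen, hk, hl'⟩
      by_contra hcon
      refine retD_det hD hF (r := r') (R := R') (by positivity) (by exact_mod_cast hrR') hl hh ?_
        hkl hlen hk hl'
      intro v hv
      by_contra hv2
      push Not at hv2
      exact hcon (retD_arm hv hv2)
    refine h1.trans ?_
    have h2 := (harm (1/2) R' (hW R') r' R' hr1 hrR'.le le_rfl 0 0 D.edges).1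
    refine h2.trans ?_
    have h3 : (0:ℝ) ≤ ((r':ℝ) / R') ^ c := by positivity
    have h4 := mul_le_mul_of_nonneg_right (le_max_left C 1) h3
    simp only [Int.cast_natCast]
    exact h4

end Pool.Agent.Q289.SI
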