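import Pool.Agent.H12R2.Sep.Win2
import Pool.Agent.H12R2.Sep.WinHalf
import Pool.Agent.H984R4.NP.Clu
import Pool.Agent.H984R4.NP.Limit

/-!
The cluster of a half-box around the end point of the exploration path in a rectangle: the planar
fact (after `Pool.Agent.H984R4.HN.Ret`, where the positive half-axis is closed).
-/

set_option autoImplicit false

namespace Pool.Agent.Q289.SI

open H974 Finset H342P H984P H984N MeasureTheory

/-! ### planarity -/

/-- The edges inside a set of vertices. -/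
def Ret_E (S : Set Vtx) : Set Edg := {e | src e ∈ S ∧ tgt e ∈ S}

theorem Ret_adj {S : Set Vtx} {u v : Vtx} (h : Adj (Ret_E S) u v) : u ∈ S ∧ v ∈ S := by
  obtain ⟨e, he, hc⟩ := h
  rcases hc with ⟨h1, h2⟩ | ⟨h1, h2⟩
  · rw [← h1, ← h2]; exact he
  · rw [← h1, ← h2]; exact ⟨he.2, he.1⟩

theorem Ret_reach_mem {S T : Set Vtx} (hST : Disjoint S T) {G : Set Edg}
    (hG : G ⊆ Ret_E S ∪ Ret_E T) {u v : Vtx} (hu : u ∈ S) (h : Reach G u v) : v ∈ S := by
  induction h with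
  | refl => exact hu
  | @tail w w' _ hs ih =>
    obtain ⟨e, he, hc⟩ := hs
    rcases hG he with h1 | h1
    · exact (Ret_adj ⟨e, h1, hc⟩).2
    · exact absurd (Ret_adj ⟨e, h1, hc⟩).1 (Set.disjoint_left.mp hST ih)

theorem Ret_first {G : Set Edg} {u v : Vtx} (h : Reach G u v) (hne : u ≠ v) : ∃ w, Adj G u w := by
  rcases Relation.ReflTransGen.cases_head h with h1 | ⟨w, h1, -⟩
  · exact absurd h1 hne
  · exact ⟨w, h1⟩

/-- Two paths in disjoint sets of vertices do not cross. -/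
theorem Ret_no_cross {S T : Set Vtx} (hST : Disjoint S T) {a b c d : ℤ} (hab : a < b) (hcd : c < d)
    {u v u' v' : Vtx} (h1 : Reach (Ret_E S ∩ ↑(RE a b c d)) u v) (hu : u.1 = a) (hv : v.1 = b)
    (h2 : Reach (Ret_E T ∩ ↑(RE a b c d)) u' v') (hu' : u'.2 = c) (hv' : v'.2 = d) : False := by
  classical
  set FS : Finset Edg := (RE a b c d).filter (fun e => e ∈ Ret_E S) with hFS
  set FT : Finset Edg := (RE a b c d).filter (fun e => e ∈ Ret_E T) with hFT
  have e1 : LRc a b c d FS := by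
    refine LRc_of_reach hab (h1.mono ?_) hu hv
    rintro e ⟨he1, he2⟩
    refine ⟨?_, he2⟩
    rw [hFS, Finset.mem_coe, Finset.mem_filter]
    exact ⟨by exact_mod_cast he2, he1⟩
  have e2 : TBc a b c d FT := by
    refine TBc_of_reach hcd (h2.mono ?_) hu' hv'
    rintro e ⟨he1, he2⟩
    refine ⟨?_, he2⟩
    rw [hFT, Finset.mem_coe, Finset.mem_filter]
    exact ⟨by exact_mod_cast he2, he1⟩
  obtain ⟨y, y', h4, h5, h6⟩ := e1
  obtain ⟨x, x', h10, h11, h12⟩ := e2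
  have hFSs : ∀ e ∈ (↑FS : Set Edg), e ∈ Ret_E S := by
    intro e he
    rw [Finset.mem_coe, hFS, Finset.mem_filter] at he
    exact he.2
  have hFTs : ∀ e ∈ (↑FT : Set Edg), e ∈ Ret_E T := by
    intro e he
    rw [Finset.mem_coe, hFT, Finset.mem_filter] at he
    exact he.2
  have hmeet := crossings_meet hab hcd.le (F := (↑FS ∪ ↑FT : Set Edg)) h5 h10
    (h6.mono (Set.inter_subset_inter_left _ Set.subset_union_left))
    (h12.mono (Set.inter_subset_inter_left _ Set.subset_union_right))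
  have hS : ((a, y) : Vtx) ∈ S := by
    obtain ⟨w, hw⟩ := Ret_first h6 (by intro h; rw [Prod.mk.injEq] at h; omega)
    exact (Ret_adj (hw.mono (fun e he => hFSs e he.1))).1
  have hT : ((x, c) : Vtx) ∈ T := by
    obtain ⟨w, hw⟩ := Ret_first h12 (by intro h; rw [Prod.mk.injEq] at h; omega)
    exact (Ret_adj (hw.mono (fun e he => hFTs e he.1))).1
  have := Ret_reach_mem hST (G := (↑FS ∪ ↑FT : Set Edg) ∩ ↑(RE a b c d)) (by
    rintro e ⟨he | he, _⟩
    · exact Or.inl (hFSs e he)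
    · exact Or.inr (hFTs e he)) hS hmeet
  exact Set.disjoint_left.mp hST this hT

/-- horizontal segments -/
theorem Ret_row {G : Set Edg} {y : ℤ} (x : ℤ) (n : ℕ)
    (h : ∀ i : ℤ, x ≤ i → i < x + n → ((i, y, true) : Edg) ∈ G) : Reach G (x, y) (x + n, y) := by
  induction n with
  | zero => simpa using Reach.refl G (x, y)
  | succ n ih =>
    refine (ih fun i h1 h2 => h i h1 (by push_cast; omega)).trans (Adj.reach ⟨(x + n, y, true), ?_, Or.inl ⟨rfl, ?_⟩⟩)
    · exact h _ (by omega) (by push_cast; omega)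
    · rw [tgt_true]; push_cast; rw [add_assoc]

theorem Ret_row' {G : Set Edg} {y x x' : ℤ} (hx : x ≤ x')
    (h : ∀ i : ℤ, x ≤ i → i < x' → ((i, y, true) : Edg) ∈ G) : Reach G (x, y) (x', y) := by
  obtain ⟨n, rfl⟩ := Int.le.dest hx
  exact Ret_row x n h

theorem Ret_col {G : Set Edg} {x : ℤ} (y : ℤ) (n : ℕ)
    (h : ∀ i : ℤ, y ≤ i → i < y + n → ((x, i, false) : Edg) ∈ G) : Reach G (x, y) (x, y + n) := by
  induction n with
  | zero => simpa using Reach.refl G (x, y)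
  | succ n ih =>
    refine (ih fun i h1 h2 => h i h1 (by push_cast; omega)).trans (Adj.reach ⟨(x, y + n, false), ?_, Or.inl ⟨rfl, ?_⟩⟩)
    · exact h _ (by omega) (by push_cast; omega)
    · rw [tgt_false]; push_cast; rw [add_assoc]

theorem Ret_col' {G : Set Edg} {x y y' : ℤ} (hy : y ≤ y')
    (h : ∀ i : ℤ, y ≤ i → i < y' → ((x, i, false) : Edg) ∈ G) : Reach G (x, y) (x, y') := by
  obtain ⟨n, rfl⟩ := Int.le.dest hy
  exact Ret_col y n h

/-! ### the cluster of the half-box -/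

/-- The open edges off the negative half-axis. -/
def RO (F : Finset Edg) : Set Edg := {e | 0 ≤ e.2.1 ∧ ¬ (e.2.1 = 0 ∧ e.2.2 = true ∧ e.1 < 0) ∧ e ∈ F}

/-- The cluster of the half-box, off the axis. -/
def RS (F : Finset Edg) (r : ℤ) : Set Vtx :=
  {v | ∃ u : Vtx, sd u (0, 0) ≤ r ∧ 0 ≤ u.2 ∧ Reach (RO F) u v}

/-- The vertices of the upper half-plane which are connected to distance `R` off the cluster. -/
def RT (F : Finset Edg) (r R : ℤ) : Set Vtx :=
  {v | 0 ≤ v.2 ∧ v ∉ RS F r ∧ ∃ w : Vtx, R ≤ sd w (0, 0) ∧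
    Reach {e | 0 ≤ e.2.1 ∧ src e ∉ RS F r ∧ tgt e ∉ RS F r} v w}

theorem Ret_sd (u : Vtx) : sd u (0, 0) = max |u.1| |u.2| := by
  unfold sd; simp

theorem Ret_O_nonneg {F : Finset Edg} {u v : Vtx} (hu : 0 ≤ u.2) (h : Reach (RO F) u v) : 0 ≤ v.2 := by
  induction h with
  | refl => exact hu
  | @tail w w' _ hs ih =>
    obtain ⟨⟨x, y, b⟩, he, hc⟩ := hs
    have h0 : 0 ≤ y := he.1
    cases b
    · simp only [src_mk, tgt_false] at hc
      rcases hc with ⟨h1, h2⟩ | ⟨h1, h2⟩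
      · rw [← h2]; simp only; omega
      · rw [← h1]; exact h0
    · simp only [src_mk, tgt_true] at hc
      rcases hc with ⟨h1, h2⟩ | ⟨h1, h2⟩
      · rw [← h2]; exact h0
      · rw [← h1]; exact h0

theorem Ret_S_nonneg {F : Finset Edg} {r : ℤ} {v : Vtx} (hv : v ∈ RS F r) : 0 ≤ v.2 := by
  obtain ⟨u, _, h0, h⟩ := hv
  exact Ret_O_nonneg h0 h

theorem Ret_S_closed {F : Finset Edg} {r : ℤ} {u v : Vtx} (hu : u ∈ RS F r) (h : Adj (RO F) u v) :
    v ∈ RS F r := by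
  obtain ⟨w, h1, h0, h2⟩ := hu
  exact ⟨w, h1, h0, h2.trans h.reach⟩

/-- A path of the cluster stays in the cluster. -/
theorem Ret_S_path {F : Finset Edg} {r : ℤ} {u v : Vtx} (hu : u ∈ RS F r) (h : Reach (RO F) u v) :
    Reach (Ret_E (RS F r)) u v ∧ v ∈ RS F r := by
  induction h with
  | refl => exact ⟨Reach.refl _ _, hu⟩
  | @tail w w' _ hs ih =>
    have hw' := Ret_S_closed ih.2 hs
    obtain ⟨e, he, hc⟩ := hs
    refine ⟨ih.1.trans (Adj.reach ⟨e, ?_, hc⟩), hw'⟩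
    rcases hc with ⟨h1, h2⟩ | ⟨h1, h2⟩
    · show src e ∈ _ ∧ tgt e ∈ _
      rw [h1, h2]; exact ⟨ih.2, hw'⟩
    · show src e ∈ _ ∧ tgt e ∈ _
      rw [h1, h2]; exact ⟨hw', ih.2⟩

/-- The planar fact. -/
theorem Ret_planar {F : Finset Edg} {r R : ℤ} (hr : 0 ≤ r) (hrR : r < R)
    (hS : ∀ v ∈ RS F r, sd v (0, 0) < R) {x : ℤ} (hx : x < 0) (h1 : ((x, 0) : Vtx) ∈ RS F r)
    (h2 : ((x + 1, 0) : Vtx) ∈ RT F r R) : False := by
  obtain ⟨-, hxS, w, hw, hreach⟩ := h2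
  obtain ⟨u0, hu0, hu0', hπ⟩ := h1
  have hbox : ∀ v : Vtx, sd v (0, 0) ≤ r → 0 ≤ v.2 → v ∈ RS F r := fun v h h' => ⟨v, h, h', Reach.refl _ _⟩
  have hx1 : x + 1 < -r := by
    by_contra hcon
    apply hxS
    apply hbox _ _ le_rfl
    rw [Ret_sd]
    simp only [abs_zero]
    apply max_le _ hr
    rw [abs_le]
    omega
  have hu0S := hbox u0 hu0 hu0'
  have hxx : ((x, 0) : Vtx) ∈ RS F r := ⟨u0, hu0, hu0', hπ⟩
  have habs : ∀ v : Vtx, sd v (0, 0) < R → (-R < v.1 ∧ v.1 < R) ∧ (-R < v.2 ∧ v.2 < R) := by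
    intro v hv
    rw [Ret_sd, max_lt_iff, abs_lt, abs_lt] at hv
    exact hv
  have hSb : ∀ v ∈ RS F r, (-R < v.1 ∧ v.1 < R) ∧ (0 ≤ v.2 ∧ v.2 < R) := fun v hv =>
    ⟨(habs v (hS v hv)).1, Ret_S_nonneg hv, (habs v (hS v hv)).2.2⟩
  obtain ⟨⟨hxb1, -⟩, -⟩ := hSb _ hxx
  simp only at hxb1
  have hu0r : (-r ≤ u0.1 ∧ u0.1 ≤ r) ∧ u0.2 ≤ r := by
    rw [Ret_sd, max_le_iff, abs_le, abs_le] at hu0
    exact ⟨hu0.1, hu0.2.2⟩
  set S' : Set Vtx := {v | v ∈ RS F r ∨ (v.2 = -1 ∧ v.1 ≤ x) ∨ (v.2 = -1 ∧ -r ≤ v.1)} with hS'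
  set T' : Set Vtx := {v | (0 ≤ v.2 ∧ v ∉ RS F r) ∨ (v.2 = -1 ∧ x < v.1 ∧ v.1 < -r) ∨ v.2 = -2} with hT'
  have hdis : Disjoint S' T' := by
    rw [Set.disjoint_left]
    rintro v (h | ⟨h, h'⟩ | ⟨h, h'⟩) (k | ⟨k, k', k''⟩ | k)
    · exact k.2 h
    · have := Ret_S_nonneg h; omega
    · have := Ret_S_nonneg h; omega
    all_goals omega
  -- the left-right path
  have p1 : Reach (Ret_E S' ∩ ↑(RE (-R) R (-2) R)) (-R, -1) (x, -1) := by
    apply Ret_row' (by omega)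
    intro i hi1 hi2
    refine ⟨⟨Or.inr (Or.inl ⟨rfl, by simp only [src_mk]; omega⟩), Or.inr (Or.inl ⟨by simp, by simp only [tgt_true]; omega⟩)⟩, ?_⟩
    rw [Finset.mem_coe, mem_RE_true]; omega
  have p2 : Reach (Ret_E S' ∩ ↑(RE (-R) R (-2) R)) (x, -1) (x, 0) := by
    apply Ret_col' (by omega)
    intro i hi1 hi2
    have : i = -1 := by omega
    subst this
    refine ⟨⟨Or.inr (Or.inl ⟨rfl, le_rfl⟩), Or.inl (by simpa using hxx)⟩, ?_⟩
    rw [Finset.mem_coe, mem_RE_false]; omega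
  have hin : ∀ u v : Vtx, Reach (Ret_E (RS F r)) u v → Reach (Ret_E S' ∩ ↑(RE (-R) R (-2) R)) u v := by
    intro u v h
    refine h.mono ?_
    rintro e ⟨he1, he2⟩
    refine ⟨⟨Or.inl he1, Or.inl he2⟩, ?_⟩
    have b1 := hSb _ he1
    have b2 := hSb _ he2
    obtain ⟨a, b, _ | _⟩ := e
    · simp only [src_mk, tgt_false] at b1 b2
      rw [Finset.mem_coe, mem_RE_false]; omega
    · simp only [src_mk, tgt_true] at b1 b2
      rw [Finset.mem_coe, mem_RE_true]; omega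
  have p3 : Reach (Ret_E S' ∩ ↑(RE (-R) R (-2) R)) u0 (x, 0) := hin _ _ (Ret_S_path hu0S hπ).1
  have p4 : Reach (Ret_E S' ∩ ↑(RE (-R) R (-2) R)) (u0.1, -1) (u0.1, u0.2) := by
    apply Ret_col' (by omega)
    intro i hi1 hi2
    have hmem : ∀ j : ℤ, -1 ≤ j → j ≤ u0.2 → ((u0.1, j) : Vtx) ∈ S' := by
      intro j hj1 hj2
      rcases eq_or_lt_of_le hj1 with h | h
      · right; right
        exact ⟨h.symm, hu0r.1.1⟩
      · left
        apply hbox _ _ (by simp only; omega)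
        rw [Ret_sd]
        simp only
        apply max_le
        · rw [abs_le]; exact hu0r.1
        · rw [abs_le]; omega
    refine ⟨⟨hmem i hi1 (by omega), by rw [tgt_false]; exact hmem (i + 1) (by omega) (by omega)⟩, ?_⟩
    rw [Finset.mem_coe, mem_RE_false]; omega
  have p5 : Reach (Ret_E S' ∩ ↑(RE (-R) R (-2) R)) (u0.1, -1) (R, -1) := by
    apply Ret_row' (by omega)
    intro i hi1 hi2
    refine ⟨⟨Or.inr (Or.inr ⟨rfl, by simp only [src_mk]; omega⟩), Or.inr (Or.inr ⟨by simp, by simp only [tgt_true]; omega⟩)⟩, ?_⟩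
    rw [Finset.mem_coe, mem_RE_true]; omega
  have pLR : Reach (Ret_E S' ∩ ↑(RE (-R) R (-2) R)) (-R, -1) (R, -1) :=
    p1.trans (p2.trans (p3.symm.trans (p4.symm.trans p5)))
  -- the bottom-top path
  have q1 : Reach (Ret_E T' ∩ ↑(RE (-R) R (-2) R)) (x + 1, -2) (x + 1, 0) := by
    apply Ret_col' (by omega)
    intro i hi1 hi2
    have hmem : ∀ j : ℤ, -2 ≤ j → j ≤ 0 → ((x + 1, j) : Vtx) ∈ T' := by
      intro j hj1 hj2
      rcases (by omega : j = -2 ∨ j = -1 ∨ j = 0) with h | h | h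
      · right; right; exact h
      · right; left; exact ⟨h, by simp only; omega, by simp only; omega⟩
      · left; subst h; exact ⟨le_rfl, hxS⟩
    refine ⟨⟨hmem i hi1 (by omega), by rw [tgt_false]; exact hmem (i + 1) (by omega) (by omega)⟩, ?_⟩
    rw [Finset.mem_coe, mem_RE_false]; omega
  -- exit from the box
  have hw' : w.1 ≤ -R ∨ R ≤ w.1 ∨ w.2 ≤ -2 ∨ R ≤ w.2 := by
    have hw0 : 0 ≤ w.2 := by
      have : ∀ v, Reach {e : Edg | 0 ≤ e.2.1 ∧ src e ∉ RS F r ∧ tgt e ∉ RS F r} (x + 1, 0) v → 0 ≤ v.2 := by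
        intro v hv
        induction hv with
        | refl => exact le_rfl
        | @tail a a' _ hs ih =>
          obtain ⟨⟨x', y', b⟩, he, hc⟩ := hs
          have h0 : 0 ≤ y' := he.1
          cases b
          · simp only [src_mk, tgt_false] at hc
            rcases hc with ⟨h1, h2⟩ | ⟨h1, h2⟩
            · rw [← h2]; simp only; omega
            · rw [← h1]; exact h0
          · simp only [src_mk, tgt_true] at hc
            rcases hc with ⟨h1, h2⟩ | ⟨h1, h2⟩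
            · rw [← h2]; exact h0
            · rw [← h1]; exact h0
      exact this w hreach
    rw [Ret_sd, le_max_iff, le_abs, le_abs] at hw
    omega
  obtain ⟨z, hz1, hz2, hz3⟩ := first_exit (a := -R) (b := R) (c := -2) (d := R) (u := ((x + 1, 0) : Vtx))
    (by unfold inR; simp only; omega) hreach hw'
  have hzz : ∀ v, Reach ({e : Edg | 0 ≤ e.2.1 ∧ src e ∉ RS F r ∧ tgt e ∉ RS F r} ∩ ↑(RE (-R) R (-2) R))
      (x + 1, 0) v → Reach (Ret_E T' ∩ ↑(RE (-R) R (-2) R)) (x + 1, 0) v ∧ 0 ≤ v.2 := by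
    intro v hv
    induction hv with
    | refl => exact ⟨Reach.refl _ _, le_rfl⟩
    | @tail a a' _ hs ih =>
      obtain ⟨e, ⟨he, heR⟩, hc⟩ := hs
      have he' : e ∈ Ret_E T' := by
        obtain ⟨h0, hs, ht⟩ := he
        obtain ⟨x', y', _ | _⟩ := e
        · exact ⟨Or.inl ⟨h0, hs⟩, Or.inl ⟨by simp only [tgt_false] at h0 ⊢; omega, ht⟩⟩
        · exact ⟨Or.inl ⟨h0, hs⟩, Or.inl ⟨h0, ht⟩⟩
      refine ⟨ih.1.trans (Adj.reach ⟨e, ⟨he', heR⟩, hc⟩), ?_⟩
      have h0 : 0 ≤ e.2.1 := he.1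
      obtain ⟨x', y', _ | _⟩ := e
      · simp only [src_mk, tgt_false] at hc h0
        rcases hc with ⟨h1, h2⟩ | ⟨h1, h2⟩
        · rw [← h2]; simp only; omega
        · rw [← h1]; exact h0
      · simp only [src_mk, tgt_true] at hc h0
        rcases hc with ⟨h1, h2⟩ | ⟨h1, h2⟩
        · rw [← h2]; exact h0
        · rw [← h1]; exact h0
  obtain ⟨hz4, hz5⟩ := hzz z hz3
  obtain ⟨⟨hz6, hz7⟩, hz8, hz9⟩ := hz1
  have q3 : Reach (Ret_E T' ∩ ↑(RE (-R) R (-2) R)) (z.1, z.2) (z.1, R) := by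
    rcases hz2 with h | h | h | h
    · apply Ret_col' hz9
      intro i hi1 hi2
      have hmem : ∀ j : ℤ, 0 ≤ j → ((z.1, j) : Vtx) ∈ T' := by
        intro j hj
        left
        refine ⟨hj, fun hc => ?_⟩
        have := (hSb _ hc).1
        simp only at this
        omega
      refine ⟨⟨hmem i (by omega), by rw [tgt_false]; exact hmem (i + 1) (by omega)⟩, ?_⟩
      rw [Finset.mem_coe, mem_RE_false]; omega
    · apply Ret_col' hz9
      intro i hi1 hi2
      have hmem : ∀ j : ℤ, 0 ≤ j → ((z.1, j) : Vtx) ∈ T' := by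
        intro j hj
        left
        refine ⟨hj, fun hc => ?_⟩
        have := (hSb _ hc).1
        simp only at this
        omega
      refine ⟨⟨hmem i (by omega), by rw [tgt_false]; exact hmem (i + 1) (by omega)⟩, ?_⟩
      rw [Finset.mem_coe, mem_RE_false]; omega
    · omega
    · rw [h]; exact Reach.refl _ _
  exact Ret_no_cross hdis (by omega) (by omega) pLR rfl rfl (q1.trans (hz4.trans q3)) rfl rfl

end Pool.Agent.Q289.SI
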