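import Pool.Agent.H984R4.NP.Model

/-!
Curves stopped when they leave an open set, and continuous approximations of them.
-/

set_option autoImplicit false

namespace Pool.Agent.Q289.SI

open H984N MeasureTheory Filter Topology Set

/-- Multiplication by `l` as a map of the unit interval. -/
def mulC (l : unitInterval) : C(unitInterval, unitInterval) := ⟨fun s => l * s, by fun_prop⟩

/-- The part of the curve before time `l`, as a curve on `[0, 1]`. -/
noncomputable def cutAt (γ : C(unitInterval, ℂ)) (l : unitInterval) : C(unitInterval, ℂ) := γ.comp (mulC l)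

@[simp] theorem cutAt_apply (γ : C(unitInterval, ℂ)) (l s : unitInterval) :
    cutAt γ l s = γ (l * s) := rfl

theorem continuous_mulC : Continuous mulC :=
  ContinuousMap.continuous_of_continuous_uncurry _ continuous_mul

theorem continuous_cutAt :
    Continuous (fun q : C(unitInterval, ℂ) × unitInterval => cutAt q.1 q.2) :=
  Continuous.compCM continuous_fst (continuous_mulC.comp continuous_snd)

/-- A cut-off function of the open set `U`. -/
structure Cut (U : Set ℂ) (u : ℂ → ℝ) : Prop where
  lip : ∀ z w, u z ≤ u w + dist z w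
  nonneg : ∀ z, 0 ≤ u z
  le_one : ∀ z, u z ≤ 1
  pos : ∀ z, 0 < u z ↔ z ∈ U

theorem Cut.cont {U : Set ℂ} {u : ℂ → ℝ} (h : Cut U u) : Continuous u := by
  have : LipschitzWith 1 u := by
    apply LipschitzWith.of_dist_le_mul
    intro x y
    rw [Real.dist_eq, abs_le, NNReal.coe_one, one_mul]
    have h1 := h.lip x y
    have h2 := h.lip y x
    rw [dist_comm y x] at h2
    constructor <;> linarith
  exact this.continuous

theorem exists_cut {U : Set ℂ} (hU : IsOpen U) : ∃ u, Cut U u := by
  rcases (Uᶜ).eq_empty_or_nonempty with h | h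
  · refine ⟨fun _ => 1, ⟨fun z w => ?_, fun z => zero_le_one, fun z => le_rfl, fun z => ?_⟩⟩
    · have := dist_nonneg (x := z) (y := w)
      linarith
    · rw [compl_empty_iff] at h
      simp [h]
  · refine ⟨fun z => min 1 (Metric.infDist z Uᶜ), ⟨fun z w => ?_, fun z => ?_, fun z => ?_,
      fun z => ?_⟩⟩
    · have h1 := Metric.infDist_le_infDist_add_dist (s := Uᶜ) (x := z) (y := w)
      have h2 := dist_nonneg (x := z) (y := w)
      rcases le_total 1 (Metric.infDist w Uᶜ) with h3 | h3
      · rw [min_eq_left h3]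
        exact (min_le_left _ _).trans (by linarith)
      · rw [min_eq_right h3]
        exact (min_le_right _ _).trans h1
    · exact le_min zero_le_one Metric.infDist_nonneg
    · exact min_le_left _ _
    · rw [lt_min_iff]
      have h1 := (hU.isClosed_compl.notMem_iff_infDist_pos h (x := z))
      rw [← h1]
      simp

/-- The least value of `u` on the curve before time `s`. -/
noncomputable def mn (u : ℂ → ℝ) (γ : C(unitInterval, ℂ)) (s : unitInterval) : ℝ :=
  ⨅ v : unitInterval, u (γ (v * s))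

section

variable {U : Set ℂ} {u : ℂ → ℝ} (hu : Cut U u)

include hu

theorem mn_bdd (γ : C(unitInterval, ℂ)) (s : unitInterval) :
    BddBelow (range fun v : unitInterval => u (γ (v * s))) :=
  ⟨0, by rintro _ ⟨v, rfl⟩; exact hu.nonneg _⟩

theorem mn_le (γ : C(unitInterval, ℂ)) (s v : unitInterval) : mn u γ s ≤ u (γ (v * s)) :=
  ciInf_le (mn_bdd hu γ s) v

theorem mn_nonneg (γ : C(unitInterval, ℂ)) (s : unitInterval) : 0 ≤ mn u γ s :=
  le_ciInf fun _ => hu.nonneg _

theorem mn_lip (γ γ' : C(unitInterval, ℂ)) (s : unitInterval) :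
    mn u γ s ≤ mn u γ' s + dist γ γ' := by
  rw [← sub_le_iff_le_add]
  refine le_ciInf fun v => ?_
  have h1 := mn_le hu γ s v
  have h2 := hu.lip (γ (v * s)) (γ' (v * s))
  have h3 := ContinuousMap.dist_apply_le_dist (f := γ) (g := γ') (v * s)
  linarith

theorem mn_le_of_le (γ : C(unitInterval, ℂ)) {s v : unitInterval} (h : v ≤ s) :
    mn u γ s ≤ u (γ v) := by
  rcases eq_or_lt_of_le (s.2.1) with h0 | h0
  · have hv : v = s := by
      apply Subtype.ext
      have h1 : (v : ℝ) ≤ s := h
      have h2 := v.2.1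
      linarith
    have := mn_le hu γ s 1
    rw [one_mul] at this
    rw [hv]
    exact this
  · have hm : (v : ℝ) / s ∈ Icc (0:ℝ) 1 :=
      ⟨div_nonneg v.2.1 h0.le, (div_le_one h0).2 h⟩
    have h1 := mn_le hu γ s ⟨(v : ℝ) / s, hm⟩
    have h2 : (⟨(v : ℝ) / s, hm⟩ : unitInterval) * s = v := by
      apply Subtype.ext
      show (v : ℝ) / s * s = v
      field_simp
    rwa [h2] at h1

theorem mn_antitone (γ : C(unitInterval, ℂ)) : Antitone (mn u γ) := by
  intro s t hst
  refine le_ciInf fun v => mn_le_of_le hu γ ?_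
  have h1 : ((v * s : unitInterval) : ℝ) ≤ s := by
    show (v : ℝ) * s ≤ s
    have := s.2.1
    have := v.2.2
    nlinarith
  have h2 : (s : ℝ) ≤ t := hst
  exact Subtype.coe_le_coe.1 (h1.trans h2)

theorem mn_pos_iff (γ : C(unitInterval, ℂ)) (s : unitInterval) :
    0 < mn u γ s ↔ ∀ v : unitInterval, v ≤ s → γ v ∈ U := by
  constructor
  · intro h v hv
    exact (hu.pos _).1 (h.trans_le (mn_le_of_le hu γ hv))
  · intro h
    have hc : Continuous (fun v : unitInterval => u (γ (v * s))) :=
      hu.cont.comp (γ.continuous.comp (by fun_prop))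
    obtain ⟨v0, -, hv0⟩ := isCompact_univ.exists_isMinOn univ_nonempty hc.continuousOn
    have h1 : u (γ (v0 * s)) ≤ mn u γ s := le_ciInf fun v => hv0 (mem_univ v)
    refine lt_of_lt_of_le ((hu.pos _).2 (h _ ?_)) h1
    have h2 : ((v0 * s : unitInterval) : ℝ) ≤ s := by
      show (v0 : ℝ) * s ≤ s
      have := s.2.1
      have := v0.2.2
      nlinarith
    exact Subtype.coe_le_coe.1 h2

end

theorem clamp_nonneg' (x : ℝ) : 0 ≤ clamp x := le_max_left _ _

theorem clamp_le_one' (x : ℝ) : clamp x ≤ 1 := max_le zero_le_one (min_le_left _ _)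

theorem clamp_mono' : Monotone clamp := by
  intro x y h
  unfold clamp
  exact max_le_max le_rfl (min_le_min le_rfl h)

theorem clamp_sub (x y : ℝ) : clamp x ≤ clamp y + |x - y| := by
  unfold clamp
  have h1 := le_abs_self (x - y)
  have h2 := abs_nonneg (x - y)
  rcases le_total x 1 with h | h <;> rcases le_total y 1 with h' | h' <;>
    rcases le_total x 0 with k | k <;> rcases le_total y 0 with k' | k' <;>
    simp [h, h', k, k'] <;> linarith

/-- The integrand of the soft stopping time. -/
noncomputable def fn (r : ℝ) (u : ℂ → ℝ) (γ : C(unitInterval, ℂ)) (s : ℝ) : ℝ :=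
  clamp ((mn u γ (projIcc 0 1 zero_le_one s) - r) / r)

/-- The soft stopping time. -/
noncomputable def lam (r : ℝ) (u : ℂ → ℝ) (γ : C(unitInterval, ℂ)) : ℝ :=
  ∫ s in (0:ℝ)..1, fn r u γ s

section

variable {U : Set ℂ} {u : ℂ → ℝ} (hu : Cut U u) {r : ℝ} (hr : 0 < r)

include hu hr

theorem fn_antitone (γ : C(unitInterval, ℂ)) : Antitone (fn r u γ) := by
  intro s t hst
  unfold fn
  apply clamp_mono'
  have := mn_antitone hu γ (monotone_projIcc zero_le_one hst)
  gcongr

theorem fn_int (γ : C(unitInterval, ℂ)) (a b : ℝ) : IntervalIntegrable (fn r u γ) volume a b :=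
  (fn_antitone hu hr γ).intervalIntegrable

theorem lam_mem (γ : C(unitInterval, ℂ)) : lam r u γ ∈ Icc (0:ℝ) 1 := by
  constructor
  · exact intervalIntegral.integral_nonneg zero_le_one fun s _ => clamp_nonneg' _
  · have h := intervalIntegral.integral_mono_on (a := 0) (b := 1) zero_le_one
      (fn_int hu hr γ 0 1) (intervalIntegrable_const (c := (1:ℝ))) (fun s _ => clamp_le_one' _)
    unfold lam
    simpa using h

theorem lam_lip (γ γ' : C(unitInterval, ℂ)) : |lam r u γ - lam r u γ'| ≤ 1 / r * dist γ γ' := by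
  unfold lam
  rw [← intervalIntegral.integral_sub (fn_int hu hr γ 0 1) (fn_int hu hr γ' 0 1)]
  have h := intervalIntegral.norm_integral_le_of_norm_le_const (a := 0) (b := 1)
    (f := fun s => fn r u γ s - fn r u γ' s) (C := 1 / r * dist γ γ') (fun s _ => by
      have key : ∀ δ δ' : C(unitInterval, ℂ), fn r u δ s ≤ fn r u δ' s + 1 / r * dist δ δ' := by
        intro δ δ'
        unfold fn
        have h1 := mn_lip hu δ δ' (projIcc 0 1 zero_le_one s)
        have h2 : clamp ((mn u δ (projIcc 0 1 zero_le_one s) - r) / r) ≤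
            clamp ((mn u δ' (projIcc 0 1 zero_le_one s) + dist δ δ' - r) / r) :=
          clamp_mono' (by gcongr)
        refine h2.trans ((clamp_sub _ ((mn u δ' (projIcc 0 1 zero_le_one s) - r) / r)).trans ?_)
        gcongr
        have h3 : (mn u δ' (projIcc 0 1 zero_le_one s) + dist δ δ' - r) / r -
            (mn u δ' (projIcc 0 1 zero_le_one s) - r) / r = 1 / r * dist δ δ' := by
          field_simp
          ring
        rw [h3, abs_of_nonneg (by positivity)]
      rw [Real.norm_eq_abs, abs_le]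
      have h1 := key γ γ'
      have h2 := key γ' γ
      rw [dist_comm γ' γ] at h2
      constructor <;> linarith)
  simpa using h

theorem lam_cont : Continuous (lam r u) := by
  have : LipschitzWith (Real.toNNReal (1 / r)) (lam r u) := by
    apply LipschitzWith.of_dist_le_mul
    intro x y
    rw [Real.dist_eq, Real.coe_toNNReal _ (by positivity)]
    exact lam_lip hu hr x y
  exact this.continuous

end

open Classical in
/-- The first exit time from `U` of a curve on `[0, 1]` (it is `1` if the curve stays in `U`). -/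
noncomputable def exitT (U : Set ℂ) (γ : C(unitInterval, ℂ)) : ℝ :=
  sSup {s : ℝ | (0 ≤ s ∧ s ≤ 1) ∧ ∀ v : unitInterval, (v : ℝ) ≤ s → γ v ∈ U}

theorem exitT_bdd (U : Set ℂ) (γ : C(unitInterval, ℂ)) :
    BddAbove {s : ℝ | (0 ≤ s ∧ s ≤ 1) ∧ ∀ v : unitInterval, (v : ℝ) ≤ s → γ v ∈ U} :=
  ⟨1, fun _ hs => hs.1.2⟩

theorem exitT_mem (U : Set ℂ) (γ : C(unitInterval, ℂ)) : exitT U γ ∈ Icc (0:ℝ) 1 := by
  constructor
  · exact Real.sSup_nonneg fun s hs => hs.1.1
  · exact Real.sSup_le (fun s hs => hs.1.2) zero_le_one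

theorem mem_of_lt_exitT {U : Set ℂ} {γ : C(unitInterval, ℂ)} {v : unitInterval}
    (h : (v : ℝ) < exitT U γ) : γ v ∈ U := by
  have hne : {s : ℝ | (0 ≤ s ∧ s ≤ 1) ∧ ∀ v : unitInterval, (v : ℝ) ≤ s → γ v ∈ U}.Nonempty := by
    by_contra hcon
    rw [not_nonempty_iff_eq_empty] at hcon
    unfold exitT at h
    rw [hcon, Real.sSup_empty] at h
    exact absurd h (not_lt.2 v.2.1)
  obtain ⟨s, hs, hvs⟩ := exists_lt_of_lt_csSup hne h
  exact hs.2 v hvs.le

theorem le_exitT {U : Set ℂ} {γ : C(unitInterval, ℂ)} {s : unitInterval}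
    (h : ∀ v : unitInterval, v ≤ s → γ v ∈ U) : (s : ℝ) ≤ exitT U γ :=
  le_csSup (exitT_bdd U γ) ⟨s.2, fun v hv => h v hv⟩

section

variable {U : Set ℂ} {u : ℂ → ℝ} (hu : Cut U u)

include hu

theorem mn_pos_of_lt {γ : C(unitInterval, ℂ)} {s : unitInterval} (h : (s : ℝ) < exitT U γ) :
    0 < mn u γ s := by
  rw [mn_pos_iff hu]
  intro v hv
  exact mem_of_lt_exitT (lt_of_le_of_lt (Subtype.coe_le_coe.2 hv) h)

theorem mn_zero_of_lt {γ : C(unitInterval, ℂ)} {s : unitInterval} (h : exitT U γ < (s : ℝ)) :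
    mn u γ s = 0 := by
  by_contra hcon
  have h1 : 0 < mn u γ s := lt_of_le_of_ne (mn_nonneg hu γ s) (Ne.symm hcon)
  exact absurd (le_exitT ((mn_pos_iff hu γ s).1 h1)) (not_le.2 h)

theorem lam_tendsto (γ : C(unitInterval, ℂ)) :
    Tendsto (fun n : ℕ => lam (1 / ((n : ℝ) + 1)) u γ) atTop (𝓝 (exitT U γ)) := by
  have hm := exitT_mem U γ
  have e : exitT U γ = ∫ s in (0:ℝ)..1, indicator {x | x ≤ exitT U γ} (fun _ => (1:ℝ)) s := by
    rw [intervalIntegral.integral_indicator hm]
    simp
  rw [e]
  unfold lam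
  apply intervalIntegral.tendsto_integral_filter_of_dominated_convergence (fun _ => (1:ℝ))
  · refine Eventually.of_forall fun n => ?_
    exact (fn_antitone hu (by positivity) γ).measurable.aestronglyMeasurable
  · refine Eventually.of_forall fun n => ?_
    refine Eventually.of_forall fun s _ => ?_
    unfold fn
    rw [Real.norm_eq_abs, abs_of_nonneg (clamp_nonneg' _)]
    exact clamp_le_one' _
  · exact intervalIntegrable_const
  · have hae : ∀ᵐ s : ℝ ∂volume, s ≠ exitT U γ := by
      rw [ae_iff]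
      simp
    filter_upwards [hae] with s hs hs2
    rw [uIoc_of_le zero_le_one] at hs2
    have hp : projIcc 0 1 zero_le_one s = ⟨s, hs2.1.le, hs2.2⟩ :=
      projIcc_of_mem zero_le_one ⟨hs2.1.le, hs2.2⟩
    unfold fn
    rw [hp]
    rcases lt_or_gt_of_ne hs with h | h
    · have h1 : s ∈ {x | x ≤ exitT U γ} := h.le
      rw [indicator_of_mem h1]
      have h2 : 0 < mn u γ ⟨s, hs2.1.le, hs2.2⟩ := mn_pos_of_lt hu (s := ⟨s, hs2.1.le, hs2.2⟩) h
      have h3 : Tendsto (fun n : ℕ => 1 / ((n : ℝ) + 1)) atTop (𝓝 0) :=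
        tendsto_one_div_add_atTop_nhds_zero_nat
      apply tendsto_const_nhds.congr'
      filter_upwards [h3.eventually (gt_mem_nhds (half_pos h2))] with n hn
      symm
      have hpos : (0:ℝ) < 1 / ((n : ℝ) + 1) := by positivity
      have h4 : 1 ≤ (mn u γ ⟨s, hs2.1.le, hs2.2⟩ - 1 / ((n : ℝ) + 1)) / (1 / ((n : ℝ) + 1)) := by
        rw [le_div_iff₀ hpos]
        linarith
      unfold clamp
      rw [min_eq_left h4]
      simp
    · have h1 : s ∉ {x | x ≤ exitT U γ} := not_le.2 h
      rw [indicator_of_notMem h1]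
      have h2 : mn u γ ⟨s, hs2.1.le, hs2.2⟩ = 0 := mn_zero_of_lt hu (s := ⟨s, hs2.1.le, hs2.2⟩) h
      rw [h2]
      apply tendsto_const_nhds.congr
      intro n
      have hpos : (0:ℝ) < 1 / ((n : ℝ) + 1) := by positivity
      have h4 : (0 - 1 / ((n : ℝ) + 1)) / (1 / ((n : ℝ) + 1)) = -1 := by
        field_simp
        ring
      rw [h4]
      unfold clamp
      norm_num

end

/-- The curve with its natural time, stopped when it leaves `U`. -/
noncomputable def stopX (U : Set ℂ) (p : X) : X :=
  (cutAt p.1 ⟨exitT U p.1, exitT_mem U p.1⟩, exitT U p.1 * p.2)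

/-- The soft version. -/
noncomputable def softX (r : ℝ) (u : ℂ → ℝ) (p : X) : X :=
  (cutAt p.1 (projIcc 0 1 zero_le_one (lam r u p.1)), lam r u p.1 * p.2)

section

variable {U : Set ℂ} {u : ℂ → ℝ} (hu : Cut U u)

include hu

theorem softX_cont {r : ℝ} (hr : 0 < r) : Continuous (softX r u) := by
  unfold softX
  have h1 : Continuous (fun p : X => lam r u p.1) := (lam_cont hu hr).comp continuous_fst
  have h2 : Continuous (fun p : X => projIcc (0:ℝ) 1 zero_le_one (lam r u p.1)) :=
    continuous_projIcc.comp h1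
  exact (continuous_cutAt.comp (continuous_fst.prodMk h2)).prodMk (h1.mul continuous_snd)

theorem softX_tendsto (p : X) :
    Tendsto (fun n : ℕ => softX (1 / ((n : ℝ) + 1)) u p) atTop (𝓝 (stopX U p)) := by
  have h1 := lam_tendsto hu p.1
  unfold softX stopX
  apply Tendsto.prodMk_nhds
  · have h2 : Tendsto (fun n : ℕ => projIcc (0:ℝ) 1 zero_le_one (lam (1 / ((n : ℝ) + 1)) u p.1))
        atTop (𝓝 (projIcc (0:ℝ) 1 zero_le_one (exitT U p.1))) :=
      (continuous_projIcc.tendsto _).comp h1
    rw [projIcc_of_mem zero_le_one (exitT_mem U p.1)] at h2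
    exact (continuous_cutAt.tendsto (p.1, (⟨exitT U p.1, exitT_mem U p.1⟩ : unitInterval))).comp
      (tendsto_const_nhds.prodMk_nhds h2)
  · exact h1.mul tendsto_const_nhds

end

/-- The curve run backwards. -/
noncomputable def revC (γ : C(unitInterval, ℂ)) : C(unitInterval, ℂ) :=
  γ.comp ⟨unitInterval.symm, unitInterval.continuous_symm⟩

@[simp] theorem revC_apply (γ : C(unitInterval, ℂ)) (s : unitInterval) :
    revC γ s = γ (unitInterval.symm s) := rfl

/-- The curve with its natural time, run backwards. -/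
noncomputable def revX (p : X) : X := (revC p.1, p.2)

theorem revX_cont : Continuous revX :=
  ((ContinuousMap.continuous_precomp _).comp continuous_fst).prodMk continuous_snd

end Pool.Agent.Q289.SI
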