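import Pool.Agent.Q289.SI.Germ
import Pool.Agent.Q289.SI.NoRetA
import Pool.Agent.Results.MP_fe58d8_pr.NaturalCurve

/-!
The zero-one laws at the two end points.
-/

set_option autoImplicit false

namespace Pool.Agent.Q289.SI

open H984N MeasureTheory Filter Topology ProbabilityTheory Set

theorem exitT_pos {U : Set ℂ} (hU : IsOpen U) {γ : C(unitInterval, ℂ)} (h : γ 0 ∈ U) :
    0 < exitT U γ := by
  have h1 : γ ⁻¹' U ∈ 𝓝 (0 : unitInterval) := (hU.preimage γ.continuous).mem_nhds h
  rw [Metric.mem_nhds_iff] at h1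
  obtain ⟨r, hr, hb⟩ := h1
  obtain ⟨s, hs⟩ : ∃ s : ℝ, s = min (r / 2) 1 := ⟨_, rfl⟩
  have hs0 : 0 < s := by rw [hs]; positivity
  have hs1 : s ≤ 1 := by rw [hs]; exact min_le_right _ _
  have hsr : s ≤ r / 2 := by rw [hs]; exact min_le_left _ _
  refine lt_of_lt_of_le hs0 (le_exitT (s := ⟨s, hs0.le, hs1⟩) fun v hv => ?_)
  apply hb
  rw [Metric.mem_ball, Subtype.dist_eq, Real.dist_eq]
  have h2 : (v : ℝ) ≤ s := hv
  have h3 := v.2.1
  show |(v : ℝ) - 0| < r
  rw [sub_zero, abs_of_nonneg h3]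
  linarith

/-- The complement of a small closed disc. -/
def outD (z : ℂ) (n : ℕ) : Set ℂ := {w | 1 / ((n : ℝ) + 1) < dist w z}

/-- A small open disc. -/
def inD (z : ℂ) (n : ℕ) : Set ℂ := {w | dist w z < 1 / ((n : ℝ) + 1)}

theorem outD_open (z : ℂ) (n : ℕ) : IsOpen (outD z n) :=
  isOpen_lt continuous_const (continuous_id.dist continuous_const)

theorem inD_open (z : ℂ) (n : ℕ) : IsOpen (inD z n) :=
  isOpen_lt (continuous_id.dist continuous_const) continuous_const

theorem outD_inD (z : ℂ) (n : ℕ) : Disjoint (outD z n) (inD z n) := by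
  rw [Set.disjoint_left]
  intro w h1 h2
  have h1' : 1 / ((n : ℝ) + 1) < dist w z := h1
  have h2' : dist w z < 1 / ((n : ℝ) + 1) := h2
  exact lt_asymm h1' h2'

theorem exitT_outD {z : ℂ} {γ : C(unitInterval, ℂ)} (h : ∀ s : unitInterval, s < 1 → γ s ≠ z) :
    Tendsto (fun n => exitT (outD z n) γ) atTop (𝓝 1) := by
  rw [tendsto_order]
  refine ⟨fun a ha => ?_, fun a ha => ?_⟩
  · obtain ⟨s, hs⟩ : ∃ s : ℝ, s = (max a 0 + 1) / 2 := ⟨_, rfl⟩
    have hm : max a 0 < 1 := max_lt ha zero_lt_one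
    have hm0 : 0 ≤ max a 0 := le_max_right _ _
    have hma : a ≤ max a 0 := le_max_left _ _
    have hs0 : 0 ≤ s := by rw [hs]; linarith
    have hs1 : s < 1 := by rw [hs]; linarith
    have hsa : a < s := by rw [hs]; linarith
    have hK : IsCompact {v : unitInterval | (v : ℝ) ≤ s} :=
      (isClosed_le continuous_subtype_val continuous_const).isCompact
    have hne : {v : unitInterval | (v : ℝ) ≤ s}.Nonempty := ⟨0, hs0⟩
    obtain ⟨v0, hv0, hmin⟩ := hK.exists_isMinOn hne
      (f := fun v : unitInterval => dist (γ v) z) (by fun_prop)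
    have hpos : 0 < dist (γ v0) z := dist_pos.2 (h v0 (by
      have : (v0 : ℝ) < 1 := lt_of_le_of_lt hv0 hs1
      exact this))
    filter_upwards [(tendsto_one_div_add_atTop_nhds_zero_nat (𝕜 := ℝ)).eventually
      (gt_mem_nhds hpos)] with n hn
    refine hsa.trans_le (le_exitT (s := ⟨s, hs0, hs1.le⟩) fun v hv => ?_)
    exact lt_of_lt_of_le hn (hmin (show (v : ℝ) ≤ s from hv))
  · exact Eventually.of_forall fun n => lt_of_le_of_lt (exitT_mem _ _).2 ha

theorem stopX_outD {z : ℂ} {p : X} (h : ∀ s : unitInterval, s < 1 → p.1 s ≠ z) :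
    Tendsto (fun n => stopX (outD z n) p) atTop (𝓝 p) := by
  have h1 := exitT_outD h
  have e : p = (cutAt p.1 1, 1 * p.2) := by
    refine Prod.ext ?_ (by simp)
    ext s
    simp only [cutAt_apply]
    rw [one_mul]
  unfold stopX
  have h2 : Tendsto (fun n => (⟨exitT (outD z n) p.1, exitT_mem _ _⟩ : unitInterval)) atTop
      (𝓝 1) := by
    rw [tendsto_subtype_rng]
    exact h1
  have h3 : Tendsto (fun n => (cutAt p.1 ⟨exitT (outD z n) p.1, exitT_mem _ _⟩,
      exitT (outD z n) p.1 * p.2)) atTop (𝓝 (cutAt p.1 1, 1 * p.2)) := by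
    apply Tendsto.prodMk_nhds
    · exact (continuous_cutAt.tendsto (p.1, (1 : unitInterval))).comp
        (tendsto_const_nhds.prodMk_nhds h2)
    · exact h1.mul tendsto_const_nhds
  rwa [← e] at h3

section

variable (R : Rect) {δ : ℕ → ℝ} (hδ : ∀ i, 0 < δ i) (hlim : Tendsto δ atTop (𝓝 0))
  {μ : ProbabilityMeasure X} (hμ : Tendsto (fun i => R.law (δ i)) atTop (𝓝 μ))

include hδ hlim hμ

/-- The curve is at its end points only at its ends. -/
theorem simple_ends : ∀ᵐ p ∂(μ : Measure X), 0 < p.2 ∧ p.1 0 = R.a ∧ p.1 1 = 0 ∧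
    (∀ s : unitInterval, s < 1 → p.1 s ≠ 0) ∧ (∀ s : unitInterval, 0 < s → p.1 s ≠ R.a) := by
  obtain ⟨-, -, -, h⟩ := Pool.Agent.Results.MP_fe58d8_pr.NaturalCurve.result R
  filter_upwards [h δ hδ hlim μ hμ, noret_end R hδ hlim hμ, noret_start R hδ hlim hμ]
    with p hp he hs
  obtain ⟨h1, h2, h3, -, h4, -⟩ := hp
  refine ⟨h1, h2, h3, fun s hs1 h0 => ?_, fun s hs1 h0 => ?_⟩
  · have e : p.1 '' Icc s 1 = {0} := by
      apply Subset.antisymm
      · rintro _ ⟨t, ht, rfl⟩
        exact he s t ht.1 h0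
      · rintro _ rfl
        exact ⟨s, ⟨le_rfl, hs1.le⟩, h0⟩
    have h5 := h4 s 1 hs1
    rw [e, dimH_singleton] at h5
    exact absurd h5 (by
      apply ne_of_lt
      exact ENNReal.div_pos (by norm_num) (by norm_num))
  · have e : p.1 '' Icc 0 s = {R.a} := by
      apply Subset.antisymm
      · rintro _ ⟨t, ht, rfl⟩
        exact hs t s ht.2 h0
      · rintro _ rfl
        exact ⟨s, ⟨hs1.le, le_rfl⟩, h0⟩
    have h5 := h4 0 s hs1
    rw [e, dimH_singleton] at h5
    exact absurd h5 (by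
      apply ne_of_lt
      exact ENNReal.div_pos (by norm_num) (by norm_num))

/-- The zero-one law at the end. -/
theorem zero_one_end {A : Set X} (hA : ∀ ε : ℝ, 0 < ε → MeasurableSet[sigL ε] A) :
    (μ : Measure X) A = 0 ∨ (μ : Measure X) A = 1 := by
  have hse := simple_ends R hδ hlim hμ
  refine zero_one_aux (μ := (μ : Measure X)) (W := id) measurable_id (fun _ => rfl)
    (Φ := fun n => stopX (outD 0 n)) (Ψ := fun n p => stopX (inD 0 n) (revX p))
    (fun n => stopX_meas (outD_open 0 n))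
    (fun n => (stopX_meas (inD_open 0 n)).comp revX_cont.measurable)
    (fun n => spatial_indep R hδ hlim hμ (outD_open 0 n) (inD_open 0 n) (outD_inD 0 n)) ?_
    (g := fun ε p => firstX ε (revX p)) ?_ hA ?_
  · filter_upwards [hse] with p hp
    exact stopX_outD hp.2.2.2.1
  · intro n
    filter_upwards [hse] with p hp
    have h0 : (revX p).1 0 ∈ inD 0 n := by
      show dist (p.1 (unitInterval.symm 0)) 0 < _
      rw [unitInterval.symm_zero, hp.2.2.1, dist_self]
      positivity
    have h1 := exitT_pos (inD_open 0 n) h0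
    refine ⟨exitT (inD 0 n) (revX p).1 * p.2, mul_pos h1 hp.1, fun ε hε hle => ?_⟩
    exact firstX_stopX (p := revX p) hp.1 hε hle
  · obtain ⟨B, hB, hBA⟩ := hA 1 one_pos
    rw [← hBA]
    exact ((firstX_meas 1).comp revX_cont.measurable) hB

/-- The zero-one law at the start. -/
theorem zero_one_start {A : Set X} (hA : ∀ ε : ℝ, 0 < ε → MeasurableSet[sigF ε] A) :
    (μ : Measure X) A = 0 ∨ (μ : Measure X) A = 1 := by
  have hse := simple_ends R hδ hlim hμ
  refine zero_one_aux (μ := (μ : Measure X)) (W := revX) revX_cont.measurable revX_revX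
    (Φ := fun n p => stopX (outD R.a n) (revX p)) (Ψ := fun n => stopX (inD R.a n))
    (fun n => (stopX_meas (outD_open R.a n)).comp revX_cont.measurable)
    (fun n => stopX_meas (inD_open R.a n))
    (fun n => (spatial_indep R hδ hlim hμ (inD_open R.a n) (outD_open R.a n)
      (outD_inD R.a n).symm).symm) ?_
    (g := firstX) ?_ hA ?_
  · filter_upwards [hse] with p hp
    refine stopX_outD fun s hs => ?_
    show p.1 (unitInterval.symm s) ≠ R.a
    apply hp.2.2.2.2
    have h1 : (s : ℝ) < 1 := hs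
    show (0:ℝ) < 1 - s
    linarith
  · intro n
    filter_upwards [hse] with p hp
    have h0 : p.1 0 ∈ inD R.a n := by
      show dist (p.1 0) R.a < _
      rw [hp.2.1, dist_self]
      positivity
    have h1 := exitT_pos (inD_open R.a n) h0
    refine ⟨exitT (inD R.a n) p.1 * p.2, mul_pos h1 hp.1, fun ε hε hle => ?_⟩
    exact firstX_stopX hp.1 hε hle
  · obtain ⟨B, hB, hBA⟩ := hA 1 one_pos
    rw [← hBA]
    exact (firstX_meas 1) hB

end

end Pool.Agent.Q289.SI
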