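import Pool.Agent.Q289.SI.ReflLoc
import Pool.Agent.Q289.SI.ZeroOne
import Pool.Agent.Q289.SI.Mod
import Pool.Agent.Results.MP_fe58d8_pr.ExactModulus

/-!
The germs at the end points.
-/

set_option autoImplicit false

namespace Pool.Agent.Q289.SI

open H984N MeasureTheory Filter Topology ProbabilityTheory Set
open scoped ComplexConjugate

/-- Germs are determined by the stopped curves. -/
theorem germ_transfer {ν ν' : Measure X} [IsProbabilityMeasure ν] [IsProbabilityMeasure ν']
    {V : Set ℂ} (hV : IsOpen V) (h0 : (0 : ℂ) ∈ V) (h : ν.map (stopX V) = ν'.map (stopX V))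
    (h1 : ∀ᵐ p ∂ν, 0 < p.2 ∧ p.1 0 = 0) (h2 : ∀ᵐ p ∂ν', 0 < p.2 ∧ p.1 0 = 0) {A : Set X}
    (hA : ∀ ε : ℝ, 0 < ε → MeasurableSet[sigF ε] A) : ν A = ν' A := by
  have hB : ∀ m : ℕ, ∃ B : Set X, MeasurableSet B ∧ firstX (1 / ((m : ℝ) + 1)) ⁻¹' B = A :=
    fun m => hA _ (by positivity)
  choose B hBm hBA using hB
  have hAm : MeasurableSet A := by
    rw [← hBA 0]
    exact (firstX_meas _) (hBm 0)
  have hTm : ∀ m : ℕ, MeasurableSet {q : X | 1 / ((m : ℝ) + 1) ≤ q.2} := fun m =>
    measurableSet_le measurable_const measurable_snd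
  have hpos : ∀ m : ℕ, (0:ℝ) < 1 / ((m : ℝ) + 1) := fun m => by positivity
  -- the part of `A` with `T ≥ 1/(m+1)`
  let S : ℕ → Set X := fun m => {p | 0 < p.2} ∩ (A ∩ {p | 1 / ((m : ℝ) + 1) ≤ (stopX V p).2})
  have hS : ∀ m, S m = {p | 0 < p.2} ∩ stopX V ⁻¹' (firstX (1 / ((m : ℝ) + 1)) ⁻¹' B m ∩
      {q : X | 1 / ((m : ℝ) + 1) ≤ q.2}) := by
    intro m
    ext p
    simp only [S, mem_inter_iff, mem_ofPred_eq, mem_preimage]
    refine and_congr_right fun hp => ?_
    constructor
    · rintro ⟨ha, ht⟩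
      refine ⟨?_, ht⟩
      rw [firstX_stopX hp (hpos m) ht]
      rw [← hBA m] at ha
      exact ha
    · rintro ⟨ha, ht⟩
      refine ⟨?_, ht⟩
      rw [firstX_stopX hp (hpos m) ht] at ha
      rw [← hBA m]
      exact ha
  have hmeas : ∀ m : ℕ, MeasurableSet (firstX (1 / ((m : ℝ) + 1)) ⁻¹' B m ∩
      {q : X | 1 / ((m : ℝ) + 1) ≤ q.2}) := fun m => ((firstX_meas _) (hBm m)).inter (hTm m)
  have hfull : ∀ (ρ : Measure X), IsProbabilityMeasure ρ → (∀ᵐ p ∂ρ, 0 < p.2 ∧ p.1 0 = 0) →
      ∀ E : Set X, ρ ({p | 0 < p.2} ∩ E) = ρ E := by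
    intro ρ _ hρ E
    apply measure_congr
    filter_upwards [hρ] with p hp
    apply propext
    show p ∈ {p : X | 0 < p.2} ∩ E ↔ p ∈ E
    exact ⟨fun k => k.2, fun k => ⟨hp.1, k⟩⟩
  have hSS : ∀ m, ν (S m) = ν' (S m) := by
    intro m
    rw [hS m, hfull ν inferInstance h1, hfull ν' inferInstance h2,
      ← Measure.map_apply (stopX_meas hV) (hmeas m), ← Measure.map_apply (stopX_meas hV) (hmeas m),
      h]
  have hmono : Monotone S := by
    intro m n hmn p hp
    have h3 : 1 / ((m : ℝ) + 1) ≤ (stopX V p).2 := hp.2.2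
    have : (m : ℝ) ≤ n := by exact_mod_cast hmn
    have h4 : 1 / ((n : ℝ) + 1) ≤ 1 / ((m : ℝ) + 1) := by gcongr
    exact ⟨hp.1, hp.2.1, h4.trans h3⟩
  have hun : ∀ (ρ : Measure X), IsProbabilityMeasure ρ → (∀ᵐ p ∂ρ, 0 < p.2 ∧ p.1 0 = 0) →
      Tendsto (fun m => ρ (S m)) atTop (𝓝 (ρ A)) := by
    intro ρ _ hρ
    have k1 := tendsto_measure_iUnion_atTop (μ := ρ) hmono
    have k2 : ρ (⋃ m, S m) = ρ A := by
      apply measure_congr
      filter_upwards [hρ] with p hp
      apply propext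
      show p ∈ ⋃ m, S m ↔ p ∈ A
      rw [mem_iUnion]
      constructor
      · rintro ⟨m, hm⟩
        exact hm.2.1
      · intro ha
        have h3 : 0 < exitT V p.1 := exitT_pos hV (by rw [hp.2]; exact h0)
        obtain ⟨m, hm⟩ := exists_nat_one_div_lt (mul_pos h3 hp.1)
        exact ⟨m, hp.1, ha, hm.le⟩
    rw [k2] at k1
    exact k1
  exact tendsto_nhds_unique (hun ν inferInstance h1) ((hun ν' inferInstance h2).congr
    fun m => (hSS m).symm)

/-- The modulus of continuity at the start is invariant under reflections. -/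
theorem AK_mir (K : ℝ) (w : ℂ) (p : X) : mir w p ∈ AK K ↔ p ∈ AK K := by
  have e : ∀ ε : ℝ, firstX ε (mir w p) = mir w (firstX ε p) := fun _ => rfl
  have e2 : ∀ (θ : ℝ) (q : X), mir w q ∈ CM K θ ↔ q ∈ CM K θ := by
    intro θ q
    unfold CM mir
    simp only [mem_ofPred_eq, ContinuousMap.comp_apply]
    have e3 : ∀ z z' : ℂ, dist (mirC w z) (mirC w z') = dist z z' := by
      intro z z'
      show dist (conj z + w) (conj z' + w) = dist z z'
      rw [dist_add_right, Complex.dist_conj_conj]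
    simp only [e3]
  unfold AK
  simp only [mem_ofPred_eq]
  constructor
  · rintro ⟨n, hn⟩
    rw [e, e2] at hn
    exact ⟨n, hn⟩
  · rintro ⟨n, hn⟩
    refine ⟨n, ?_⟩
    rw [e, e2]
    exact hn

/-- A disc below both rectangles. -/
theorem exists_V (R R' : Rect) : ∃ V : Set ℂ, IsOpen V ∧ (0 : ℂ) ∈ V ∧ V ⊆ below R ∧
    V ⊆ below R' := by
  have h : ∀ R : Rect, IsOpen (below R) ∧ (0 : ℂ) ∈ below R := by
    intro R
    refine ⟨?_, ?_⟩
    · exact (isOpen_lt continuous_const Complex.continuous_re).inter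
        ((isOpen_lt Complex.continuous_re continuous_const).inter
          (isOpen_lt Complex.continuous_im continuous_const))
    · refine ⟨?_, ?_, ?_⟩
      · show -R.A < (0:ℂ).re
        rw [Complex.zero_re]; linarith [R.hA]
      · show (0:ℂ).re < R.B
        rw [Complex.zero_re]; exact R.hB
      · show (0:ℂ).im < R.H
        rw [Complex.zero_im]; exact R.hH
  exact ⟨below R ∩ below R', (h R).1.inter (h R').1, ⟨(h R).2, (h R').2⟩, inter_subset_left,
    inter_subset_right⟩

section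

variable (R : Rect) {δ : ℕ → ℝ} (hδ : ∀ i, 0 < δ i) (hlim : Tendsto δ atTop (𝓝 0))
  {μ : ProbabilityMeasure X} (hμ : Tendsto (fun i => R.law (δ i)) atTop (𝓝 μ))

include hδ hlim hμ

theorem rev_start : ∀ᵐ p ∂((μ : Measure X).map revX), 0 < p.2 ∧ p.1 0 = 0 := by
  have hm : MeasurableSet {p : X | 0 < p.2 ∧ p.1 0 = 0} := by
    refine (measurableSet_lt measurable_const measurable_snd).inter ?_
    have : Continuous (fun p : X => p.1 0) := by fun_prop
    exact (isClosed_eq this continuous_const).measurableSet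
  rw [ae_map_iff revX_cont.measurable.aemeasurable hm]
  filter_upwards [simple_ends R hδ hlim hμ] with p hp
  refine ⟨hp.1, ?_⟩
  show p.1 (unitInterval.symm 0) = 0
  rw [unitInterval.symm_zero]
  exact hp.2.2.1

theorem mir_start : ∀ᵐ p ∂((μ : Measure X).map (mir ⟨-R.t, R.H⟩)), 0 < p.2 ∧ p.1 0 = 0 := by
  have hm : MeasurableSet {p : X | 0 < p.2 ∧ p.1 0 = 0} := by
    refine (measurableSet_lt measurable_const measurable_snd).inter ?_
    have : Continuous (fun p : X => p.1 0) := by fun_prop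
    exact (isClosed_eq this continuous_const).measurableSet
  rw [ae_map_iff (mir_cont _).measurable.aemeasurable hm]
  filter_upwards [simple_ends R hδ hlim hμ] with p hp
  refine ⟨hp.1, ?_⟩
  show conj (p.1 0) + (⟨-R.t, R.H⟩ : ℂ) = 0
  rw [hp.2.1]
  apply Complex.ext
  · show R.t + -R.t = 0
    ring
  · show -R.H + R.H = 0
    ring

/-- The germs at the end do not depend on the rectangle. -/
theorem germ_end (R' : Rect) {μ' : ProbabilityMeasure X}
    (hμ' : Tendsto (fun i => R'.law (δ i)) atTop (𝓝 μ')) {A : Set X}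
    (hA : ∀ ε : ℝ, 0 < ε → MeasurableSet[sigF ε] A) :
    (μ : Measure X).map revX A = (μ' : Measure X).map revX A := by
  obtain ⟨V, hV, h0, h1, h2⟩ := exists_V R R'
  have i1 : IsProbabilityMeasure ((μ : Measure X).map revX) :=
    Measure.isProbabilityMeasure_map revX_cont.measurable.aemeasurable
  have i2 : IsProbabilityMeasure ((μ' : Measure X).map revX) :=
    Measure.isProbabilityMeasure_map revX_cont.measurable.aemeasurable
  refine germ_transfer hV h0 ?_ (rev_start R hδ hlim hμ) (rev_start R' hδ hlim hμ') hA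
  rw [Measure.map_map (stopX_meas hV) revX_cont.measurable,
    Measure.map_map (stopX_meas hV) revX_cont.measurable]
  exact locality R R' hδ hlim hμ hμ' hV h1 h2

/-- The germs at the start are the mirror images of the germs at the end. -/
theorem germ_start (R' : Rect) {μ' : ProbabilityMeasure X}
    (hμ' : Tendsto (fun i => R'.law (δ i)) atTop (𝓝 μ')) {A : Set X}
    (hA : ∀ ε : ℝ, 0 < ε → MeasurableSet[sigF ε] A) :
    (μ : Measure X).map (mir ⟨-R.t, R.H⟩) A = (μ' : Measure X).map revX A := by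
  obtain ⟨V, hV, h0, h1, h2⟩ := exists_V (rfR R) R'
  have i1 : IsProbabilityMeasure ((μ : Measure X).map (mir ⟨-R.t, R.H⟩)) :=
    Measure.isProbabilityMeasure_map (mir_cont _).measurable.aemeasurable
  have i2 : IsProbabilityMeasure ((μ' : Measure X).map revX) :=
    Measure.isProbabilityMeasure_map revX_cont.measurable.aemeasurable
  refine germ_transfer hV h0 ?_ (mir_start R hδ hlim hμ) (rev_start R' hδ hlim hμ') hA
  rw [Measure.map_map (stopX_meas hV) (mir_cont _).measurable,
    Measure.map_map (stopX_meas hV) revX_cont.measurable]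
  exact locality_refl R R' hδ hlim hμ hμ' hV h1 h2

/-- The zero-one law for the germs at the end, in terms of the reversed curve. -/
theorem zero_one_rev {A : Set X} (hA : ∀ ε : ℝ, 0 < ε → MeasurableSet[sigF ε] A) :
    (μ : Measure X).map revX A = 0 ∨ (μ : Measure X).map revX A = 1 := by
  have hAm : MeasurableSet A := by
    obtain ⟨B, hB, hBA⟩ := hA 1 one_pos
    rw [← hBA]
    exact (firstX_meas 1) hB
  rw [Measure.map_apply revX_cont.measurable hAm]
  apply zero_one_end R hδ hlim hμ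
  intro ε hε
  obtain ⟨B, hB, hBA⟩ := hA ε hε
  refine ⟨B, hB, ?_⟩
  rw [← hBA]
  rfl

/-- Bounds for the constant. -/
theorem AK_bounds : ∃ c C : ℝ, 0 < c ∧ 0 < C ∧ (μ : Measure X).map revX (AK C) = 1 ∧
    ∀ K : ℝ, K < c → (μ : Measure X).map revX (AK K) = 0 := by
  obtain ⟨-, c, C, hc, hC, h⟩ := Pool.Agent.Results.MP_fe58d8_pr.ExactModulus.result R
  have hAm : ∀ K, MeasurableSet (AK K) := by
    intro K
    obtain ⟨B, hB, hBA⟩ := AK_germ K (ε := 1) one_pos
    rw [← hBA]
    exact (firstX_meas 1) hB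
  have i1 : IsProbabilityMeasure ((μ : Measure X).map revX) :=
    Measure.isProbabilityMeasure_map revX_cont.measurable.aemeasurable
  have hp := h δ hδ hlim μ hμ
  have hsymm : ∀ (p : X) (s : unitInterval), (revX p).1 s = p.1 (unitInterval.symm s) :=
    fun _ _ => rfl
  have hsv : ∀ s : unitInterval, ((unitInterval.symm s : unitInterval) : ℝ) = 1 - s := fun _ => rfl
  refine ⟨c, C, hc, hC, ?_, ?_⟩
  · rw [← prob_compl_eq_zero_iff (hAm C)]
    have key : ∀ᵐ p ∂((μ : Measure X).map revX), p ∈ AK C := by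
      refine (ae_map_iff revX_cont.measurable.aemeasurable (p := fun q => q ∈ AK C)
        (hAm C)).2 ?_
      filter_upwards [hp] with p hp
      obtain ⟨hp2, H⟩ := hp
      obtain ⟨h0, hh0, H⟩ := H 0 1 zero_lt_one
      rw [mem_AK (show 0 < (revX p).2 from hp2)]
      refine ⟨min h0 1, by positivity, min_le_right _ _, fun k hk hk2 s t hst _ hd => ?_⟩
      rw [hsymm, hsymm]
      apply (H k hk (hk2.trans_le (min_le_left _ _))).2
      rw [hsv, hsv]
      have hst' : (s : ℝ) ≤ t := hst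
      rw [show (1 - (s : ℝ)) - (1 - (t : ℝ)) = t - s by ring, abs_of_nonneg (by linarith)]
      exact hd.le
    exact key
  · intro K hK
    have key : ∀ᵐ p ∂((μ : Measure X).map revX), p ∉ AK K := by
      refine (ae_map_iff revX_cont.measurable.aemeasurable (p := fun q => q ∉ AK K)
        (hAm K).compl).2 ?_
      filter_upwards [hp] with p hp hcon
      obtain ⟨hp2, H⟩ := hp
      obtain ⟨K', hK'⟩ : ∃ K' : ℝ, K' = max K 0 := ⟨_, rfl⟩
      have hK0 : 0 ≤ K' := by rw [hK']; exact le_max_right _ _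
      have hKc : K' < c := by rw [hK']; exact max_lt hK hc
      have hcon' : revX p ∈ AK K' := AK_mono (by rw [hK']; exact le_max_left _ _) hcon
      obtain ⟨θ, hθ, hθ1, G⟩ := (mem_AK (show 0 < (revX p).2 from hp2)).1 hcon'
      -- the last part of the curve
      obtain ⟨x, hx⟩ : ∃ x : ℝ, x = min 1 (θ / p.2) := ⟨_, rfl⟩
      have hx0 : 0 < x := by rw [hx]; positivity
      have hx1 : x ≤ 1 := by rw [hx]; exact min_le_left _ _
      have hxθ : x * p.2 ≤ θ := by
        have : x ≤ θ / p.2 := by rw [hx]; exact min_le_right _ _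
        rwa [le_div_iff₀ hp2] at this
      have ha : 1 - x ∈ Icc (0:ℝ) 1 := ⟨by linarith, by linarith⟩
      obtain ⟨h0, hh0, H⟩ := H ⟨1 - x, ha⟩ 1 (by
        show (1 - x : ℝ) < 1
        linarith)
      obtain ⟨η, hη⟩ : ∃ η : ℝ, η = (c - K') / (2 * c) := ⟨_, rfl⟩
      have hη0 : 0 < η := by rw [hη]; apply div_pos <;> linarith
      have hη1 : η < 1 := by rw [hη, div_lt_one (by linarith)]; linarith
      have hcη : c * (1 - η) = (c + K') / 2 := by rw [hη]; field_simp; ring
      obtain ⟨k, hk⟩ : ∃ k : ℝ, k = min h0 θ / 2 := ⟨_, rfl⟩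
      have hk0 : 0 < k := by rw [hk]; positivity
      have hkh : k < h0 := by
        rw [hk]
        have : min h0 θ ≤ h0 := min_le_left _ _
        have : 0 < min h0 θ := by positivity
        linarith
      have hkθ : k < θ := by
        rw [hk]
        have : min h0 θ ≤ θ := min_le_right _ _
        have : 0 < min h0 θ := by positivity
        linarith
      have hk1 : k < 1 := hkθ.trans_le hθ1
      obtain ⟨k', hk'⟩ : ∃ k' : ℝ, k' = (1 - η) * k := ⟨_, rfl⟩
      have hk'0 : 0 < k' := by rw [hk']; apply mul_pos _ hk0; linarith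
      have hk'k : k' < k := by rw [hk']; nlinarith
      obtain ⟨⟨s, t, hs, hst, -, hd, hlow⟩, -⟩ := H k' hk'0 (hk'k.trans hkh)
      have hs' : 1 - x ≤ (s : ℝ) := hs
      have hst' : (s : ℝ) ≤ t := hst
      have G1 := G k hk0 hkθ (unitInterval.symm t) (unitInterval.symm s) (by
        show (1 - (t : ℝ)) ≤ 1 - s
        linarith) (by
        show (1 - (s : ℝ)) * p.2 ≤ θ
        nlinarith) (by
        show ((1 - (s : ℝ)) - (1 - t)) * p.2 < k
        have : ((1 - (s : ℝ)) - (1 - t)) * p.2 = ((t : ℝ) - s) * p.2 := by ring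
        rw [this]
        linarith)
      rw [hsymm, hsymm, unitInterval.symm_symm, unitInterval.symm_symm, dist_comm] at G1
      have hlog : 0 < Real.log (1 / k) := Real.log_pos (by rw [lt_div_iff₀ hk0]; linarith)
      have hlog' : Real.log (1 / k) ≤ Real.log (1 / k') := by
        apply Real.log_le_log (by positivity)
        gcongr
      have hph : 0 < ph k := by unfold ph; positivity
      have hlow2 : (1 - η) * ph k ≤ k' ^ (4/7 : ℝ) * Real.log (1 / k') ^ (3/7 : ℝ) := by
        have e1 : k' ^ (4/7 : ℝ) = (1 - η) ^ (4/7 : ℝ) * k ^ (4/7 : ℝ) := by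
          rw [hk', Real.mul_rpow (by linarith) hk0.le]
        have e2 : (1 - η) ≤ (1 - η) ^ (4/7 : ℝ) :=
          Real.self_le_rpow_of_le_one (by linarith) (by linarith) (by norm_num)
        have e3 : Real.log (1 / k) ^ (3/7 : ℝ) ≤ Real.log (1 / k') ^ (3/7 : ℝ) :=
          Real.rpow_le_rpow hlog.le hlog' (by norm_num)
        rw [e1]
        unfold ph
        have e4 : 0 ≤ k ^ (4/7 : ℝ) := by positivity
        have e5 : 0 ≤ Real.log (1 / k) ^ (3/7 : ℝ) := by positivity
        calc (1 - η) * (k ^ (4/7 : ℝ) * Real.log (1 / k) ^ (3/7 : ℝ)) =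
            ((1 - η) * k ^ (4/7 : ℝ)) * Real.log (1 / k) ^ (3/7 : ℝ) := by ring
          _ ≤ ((1 - η) ^ (4/7 : ℝ) * k ^ (4/7 : ℝ)) * Real.log (1 / k') ^ (3/7 : ℝ) := by
            apply mul_le_mul _ e3 e5 (by rw [← e1]; positivity)
            exact mul_le_mul_of_nonneg_right e2 e4
      have h5 : c * ((1 - η) * ph k) ≤ K' * ph k :=
        (mul_le_mul_of_nonneg_left hlow2 hc.le).trans (hlow.trans G1)
      have h6 : c * (1 - η) ≤ K' := by
        have : c * (1 - η) * ph k ≤ K' * ph k := by rw [mul_assoc]; exact h5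
        exact le_of_mul_le_mul_right this hph
      rw [hcη] at h6
      linarith
    exact measure_eq_zero_iff_ae_notMem.2 key

end

end Pool.Agent.Q289.SI
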